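import Pool.Agent.Lib.MP_4beb96_co.ET.DetAlg

/-!
# board ET, module AffInv

Invariance of all notions under an affine equivalence `L`. Tools: `L` injective, `Finset.mem_image`,
`AffineMap.image_convexHull` (or `L.toAffineMap.image_convexHull`) with `Finset.coe_image`; collinearity:
`Collinear.map`/`AffineEquiv` versions, or via `collinear_iff_of_mem`. For the counting statements: `T ↦ T.image L` is
a bijection of `emptyTri P` onto `emptyTri (P.image L)` with inverse `T ↦ T.image L.symm` (enough: prove `≤` for all `L`,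
then apply it to `L.symm`, as `(P.image L).image L.symm = P`).
-/

set_option autoImplicit false

namespace Pool.Agent.Lib.MP_4beb96_co.ET

open Finset

theorem genPos_image (P : Finset Pt) (L : Pt ≃ᵃ[ℝ] Pt) (h : GenPos P) : GenPos (P.image L) := by
  intro a ha b hb c hc hab hac hbc hcol
  obtain ⟨a', ha', rfl⟩ := Finset.mem_image.mp ha
  obtain ⟨b', hb', rfl⟩ := Finset.mem_image.mp hb
  obtain ⟨c', hc', rfl⟩ := Finset.mem_image.mp hc
  refine h a' ha' b' hb' c' hc' (fun e => hab (by rw [e])) (fun e => hac (by rw [e]))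
    (fun e => hbc (by rw [e])) ?_
  rw [collinear_iff_exists_forall_eq_smul_vadd] at hcol ⊢
  obtain ⟨p₀, v, hv⟩ := hcol
  refine ⟨L.symm p₀, L.symm.linear v, fun q hq => ?_⟩
  have hq' : L q ∈ ({L a', L b', L c'} : Set Pt) := by
    simp only [Set.mem_insert_iff, Set.mem_singleton_iff] at hq ⊢
    rcases hq with rfl | rfl | rfl <;> simp
  obtain ⟨r, hr⟩ := hv (L q) hq'
  refine ⟨r, ?_⟩
  have h2 : L.symm (L q) = L.symm (r • v +ᵥ p₀) := by rw [hr]
  rw [AffineEquiv.symm_apply_apply, AffineEquiv.map_vadd] at h2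
  rw [h2, map_smul]

theorem image_symm_image (P : Finset Pt) (L : Pt ≃ᵃ[ℝ] Pt) : (P.image L).image L.symm = P := by
  rw [Finset.image_image]
  have : (L.symm ∘ L : Pt → Pt) = id := by
    funext z; simp
  rw [this, Finset.image_id]

theorem hull_image (S : Set Pt) (L : Pt ≃ᵃ[ℝ] Pt) :
    convexHull ℝ (L '' S) = L '' convexHull ℝ S := by
  have := (L : Pt →ᵃ[ℝ] Pt).image_convexHull S
  simpa using this.symm

theorem mem_hull_image (S : Set Pt) (L : Pt ≃ᵃ[ℝ] Pt) (z : Pt) :
    L z ∈ convexHull ℝ (L '' S) ↔ z ∈ convexHull ℝ S := by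
  rw [hull_image, L.injective.mem_set_image]

theorem convPos_image (T : Finset Pt) (L : Pt ≃ᵃ[ℝ] Pt) (h : ConvPos T) :
    ConvPos (T.image L) := by
  intro t ht
  obtain ⟨s, hs, rfl⟩ := Finset.mem_image.mp ht
  have h1 : ((T.image L : Finset Pt) : Set Pt) \ {L s} = L '' ((T : Set Pt) \ {s}) := by
    rw [Finset.coe_image, Set.image_sdiff L.injective, Set.image_singleton]
  rw [h1, mem_hull_image]
  exact h s hs

theorem tri_image (P : Finset Pt) (L : Pt ≃ᵃ[ℝ] Pt) (T : Finset Pt) (h : T ∈ emptyTri P) :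
    T.image L ∈ emptyTri (P.image L) := by
  obtain ⟨h1, h2, h3⟩ := h
  refine ⟨Finset.image_subset_image h1, ?_, ?_⟩
  · rw [Finset.card_image_of_injective _ L.injective, h2]
  · intro p hp hpT
    obtain ⟨q, hq, rfl⟩ := Finset.mem_image.mp hp
    rw [Finset.coe_image, mem_hull_image]
    exact h3 q hq (fun hqT => hpT (Finset.mem_image_of_mem _ hqT))

theorem pent_image (P : Finset Pt) (L : Pt ≃ᵃ[ℝ] Pt) (F : Finset Pt) (h : F ∈ emptyPent P) :
    F.image L ∈ emptyPent (P.image L) := by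
  obtain ⟨h1, h2, h3, h4⟩ := h
  refine ⟨Finset.image_subset_image h1, ?_, convPos_image F L h3, ?_⟩
  · rw [Finset.card_image_of_injective _ L.injective, h2]
  · intro p hp hpT
    obtain ⟨q, hq, rfl⟩ := Finset.mem_image.mp hp
    rw [Finset.coe_image, mem_hull_image]
    exact h4 q hq (fun hqT => hpT (Finset.mem_image_of_mem _ hqT))

theorem finite_of_subset (P : Finset Pt) (S : Set (Finset Pt)) (h : ∀ T ∈ S, T ⊆ P) :
    S.Finite :=
  (P.powerset.finite_toSet).subset (fun T hT => by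
    simpa using h T hT)

theorem ncard_le_image (P : Finset Pt) (L : Pt ≃ᵃ[ℝ] Pt) (E : Finset Pt → Set (Finset Pt))
    (hE : ∀ Q : Finset Pt, ∀ T ∈ E Q, T ⊆ Q)
    (him : ∀ Q : Finset Pt, ∀ M : Pt ≃ᵃ[ℝ] Pt, ∀ T ∈ E Q, T.image M ∈ E (Q.image M)) :
    (E P).ncard ≤ (E (P.image L)).ncard := by
  refine Set.ncard_le_ncard_of_injOn (fun T => T.image L) (fun T hT => him P L T hT) ?_
    (finite_of_subset _ _ (hE _))
  intro T _ T' _ h
  exact Finset.image_injective L.injective h

theorem ncard_image (P : Finset Pt) (L : Pt ≃ᵃ[ℝ] Pt) (E : Finset Pt → Set (Finset Pt))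
    (hE : ∀ Q : Finset Pt, ∀ T ∈ E Q, T ⊆ Q)
    (him : ∀ Q : Finset Pt, ∀ M : Pt ≃ᵃ[ℝ] Pt, ∀ T ∈ E Q, T.image M ∈ E (Q.image M)) :
    (E (P.image L)).ncard = (E P).ncard := by
  apply le_antisymm
  · have := ncard_le_image (P.image L) L.symm E hE him
    rwa [image_symm_image] at this
  · exact ncard_le_image P L E hE him

theorem emptyTri_image (P : Finset Pt) (L : Pt ≃ᵃ[ℝ] Pt) :
    (emptyTri (P.image L)).ncard = (emptyTri P).ncard :=
  ncard_image P L emptyTri (fun _ _ h => h.1) (fun Q M T h => tri_image Q M T h)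

theorem emptyPent_image (P : Finset Pt) (L : Pt ≃ᵃ[ℝ] Pt) :
    (emptyPent (P.image L)).ncard = (emptyPent P).ncard :=
  ncard_image P L emptyPent (fun _ _ h => h.1) (fun Q M T h => pent_image Q M T h)

end Pool.Agent.Lib.MP_4beb96_co.ET
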