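import Pool.Agent.Lib.MP_4beb96_co.ET.DetAlg

/-!
# board ET, module CupConv

A 6-cup is in convex position. Let `p_i = g i`, `i < 6`, first coordinates increasing, `0 < det3 p_i p_{i+1} p_{i+2}`.
(1) `0 < det3 p_i p_j p_k` for all `i < j < k < 6`. With the slopes `s(i,j) = (p_j.2 - p_i.2)/(p_j.1 - p_i.1)`:
`0 < det3 p_i p_j p_k ↔ s(i,j) < s(j,k) ↔ s(i,j) < s(i,k)` ...; the consecutive slopes increase and `s(i,j)` is a weighted mean
of consecutive slopes. In Lean: 20 triples; write `det3 p_i p_j p_k` by identities like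
`(p_j.1 - p_i.1) * det3 p_i... ` or use the polynomial identity
`(c.1-b.1) * det3 a b d = (d.1-b.1) * det3 a b c + (b.1-a.1) * det3 b c d` (which gives: `abc > 0, bcd > 0 → abd > 0`, and
`(c.1-b.1) * det3 a c d = (d.1-c.1) * det3 a b c + (c.1-a.1) * det3 b c d` (so also `acd > 0`); check both with ring) and
induct / enumerate.
(2) The points are distinct, so the image has 6 elements. `ConvPos`: `p_0` and `p_5` are the points with smallest resp.
largest first coordinate (half-plane `{z | p_0.1 < z.1}` is convex and contains the other ones). For `0 < j < 5` all the other points are in the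
convex set `{z | 0 ≤ det3 p_{j-1} p_{j+1} z}`, but `det3 p_{j-1} p_{j+1} p_j = - det3 p_{j-1} p_j p_{j+1} < 0`.
For caps: apply the cup case to `σ (g i)`, `σ z = (z.1, - z.2)`, and use that ConvPos is invariant under `σ` (an affine equivalence), or
repeat the proof with reversed signs.
-/

set_option autoImplicit false

namespace Pool.Agent.Lib.MP_4beb96_co.ET

open Finset

theorem cc_four (e : ℝ) (a b c d : Pt) (h1 : a.1 < b.1) (h2 : b.1 < c.1) (h3 : c.1 < d.1)
    (habc : 0 < e * det3 a b c) (hbcd : 0 < e * det3 b c d) :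
    0 < e * det3 a b d ∧ 0 < e * det3 a c d := by
  have i1 : (c.1 - b.1) * (e * det3 a b d)
      = (d.1 - b.1) * (e * det3 a b c) + (b.1 - a.1) * (e * det3 b c d) := by
    unfold det3; ring
  have i2 : (c.1 - b.1) * (e * det3 a c d)
      = (d.1 - c.1) * (e * det3 a b c) + (c.1 - a.1) * (e * det3 b c d) := by
    unfold det3; ring
  have hcb : 0 < c.1 - b.1 := by linarith
  have p1 : 0 < (c.1 - b.1) * (e * det3 a b d) := by
    rw [i1]
    have e1 : 0 < (d.1 - b.1) * (e * det3 a b c) := mul_pos (by linarith) habc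
    have e2 : 0 < (b.1 - a.1) * (e * det3 b c d) := mul_pos (by linarith) hbcd
    linarith
  have p2 : 0 < (c.1 - b.1) * (e * det3 a c d) := by
    rw [i2]
    have e1 : 0 < (d.1 - c.1) * (e * det3 a b c) := mul_pos (by linarith) habc
    have e2 : 0 < (c.1 - a.1) * (e * det3 b c d) := mul_pos (by linarith) hbcd
    linarith
  exact ⟨(pos_iff_pos_of_mul_pos p1).mp hcb, (pos_iff_pos_of_mul_pos p2).mp hcb⟩

theorem cc_mono (g : ℕ → Pt) (hx : ∀ i < 5, (g i).1 < (g (i + 1)).1) :
    ∀ j i, i < j → j < 6 → (g i).1 < (g j).1 := by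
  intro j
  induction j with
  | zero => intro i h; omega
  | succ j ih =>
    intro i hij hj
    have h1 := hx j (by omega)
    rcases Nat.lt_succ_iff_lt_or_eq.mp hij with h | h
    · exact (ih i h (by omega)).trans h1
    · subst h; exact h1

theorem cc_all (e : ℝ) (g : ℕ → Pt) (hx : ∀ i < 5, (g i).1 < (g (i + 1)).1)
    (hc : ∀ i < 4, 0 < e * det3 (g i) (g (i + 1)) (g (i + 2))) :
    ∀ i j k, i < j → j < k → k < 6 → 0 < e * det3 (g i) (g j) (g k) := by
  have m := cc_mono g hx
  have t012 : 0 < e * det3 (g 0) (g 1) (g 2) := hc 0 (by norm_num)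
  have t123 : 0 < e * det3 (g 1) (g 2) (g 3) := hc 1 (by norm_num)
  have t234 : 0 < e * det3 (g 2) (g 3) (g 4) := hc 2 (by norm_num)
  have t345 : 0 < e * det3 (g 3) (g 4) (g 5) := hc 3 (by norm_num)
  have F : ∀ a b c d : ℕ, a < b → b < c → c < d → d < 6 → 0 < e * det3 (g a) (g b) (g c) →
      0 < e * det3 (g b) (g c) (g d) →
      0 < e * det3 (g a) (g b) (g d) ∧ 0 < e * det3 (g a) (g c) (g d) := by
    intro a b c d hab hbc hcd hd h1 h2
    exact cc_four e _ _ _ _ (m b a hab (by omega)) (m c b hbc (by omega)) (m d c hcd hd) h1 h2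
  obtain ⟨t013, t023⟩ := F 0 1 2 3 (by norm_num) (by norm_num) (by norm_num) (by norm_num) t012 t123
  obtain ⟨t124, t134⟩ := F 1 2 3 4 (by norm_num) (by norm_num) (by norm_num) (by norm_num) t123 t234
  obtain ⟨t235, t245⟩ := F 2 3 4 5 (by norm_num) (by norm_num) (by norm_num) (by norm_num) t234 t345
  obtain ⟨t014, t034⟩ := F 0 1 3 4 (by norm_num) (by norm_num) (by norm_num) (by norm_num) t013 t134
  obtain ⟨t024, -⟩ := F 0 2 3 4 (by norm_num) (by norm_num) (by norm_num) (by norm_num) t023 t234
  obtain ⟨t125, t145⟩ := F 1 2 4 5 (by norm_num) (by norm_num) (by norm_num) (by norm_num) t124 t245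
  obtain ⟨t135, -⟩ := F 1 3 4 5 (by norm_num) (by norm_num) (by norm_num) (by norm_num) t134 t345
  obtain ⟨t015, t045⟩ := F 0 1 4 5 (by norm_num) (by norm_num) (by norm_num) (by norm_num) t014 t145
  obtain ⟨t025, -⟩ := F 0 2 4 5 (by norm_num) (by norm_num) (by norm_num) (by norm_num) t024 t245
  obtain ⟨t035, -⟩ := F 0 3 4 5 (by norm_num) (by norm_num) (by norm_num) (by norm_num) t034 t345
  intro i j k hij hjk hk
  interval_cases k <;> interval_cases j <;> interval_cases i <;> assumption

theorem cc_convex (e : ℝ) (a b : Pt) : Convex ℝ {z : Pt | 0 ≤ e * det3 a b z} := by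
  intro u hu v hv s t hs ht hst
  simp only [Set.mem_ofPred_eq] at *
  rw [det3_comb a b u v s t hst]
  have h1 := mul_nonneg hs hu
  have h2 := mul_nonneg ht hv
  have h3 : e * (s * det3 a b u + t * det3 a b v)
      = s * (e * det3 a b u) + t * (e * det3 a b v) := by ring
  rw [h3]; linarith

theorem cc_fst_convex_gt (c : ℝ) : Convex ℝ {z : Pt | c < z.1} := by
  intro u hu v hv s t hs ht hst
  simp only [Set.mem_ofPred_eq, Prod.fst_add, Prod.smul_fst, smul_eq_mul] at *
  have hs' : s = 1 - t := by linarith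
  subst hs'
  rcases ht.eq_or_lt with h | h
  · subst h; simpa using hu
  · have h1 := mul_nonneg hs (by linarith : 0 ≤ u.1 - c)
    have h2 := mul_pos h (by linarith : 0 < v.1 - c)
    nlinarith

theorem cc_fst_convex_lt (c : ℝ) : Convex ℝ {z : Pt | z.1 < c} := by
  intro u hu v hv s t hs ht hst
  simp only [Set.mem_ofPred_eq, Prod.fst_add, Prod.smul_fst, smul_eq_mul] at *
  have hs' : s = 1 - t := by linarith
  subst hs'
  rcases ht.eq_or_lt with h | h
  · subst h; simpa using hu
  · have h1 := mul_nonneg hs (by linarith : 0 ≤ c - u.1)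
    have h2 := mul_pos h (by linarith : 0 < c - v.1)
    nlinarith

theorem cc_main (e : ℝ) (g : ℕ → Pt) (hx : ∀ i < 5, (g i).1 < (g (i + 1)).1)
    (hc : ∀ i < 4, 0 < e * det3 (g i) (g (i + 1)) (g (i + 2))) :
    ((Finset.range 6).image g).card = 6 ∧ ConvPos ((Finset.range 6).image g) := by
  have m := cc_mono g hx
  have A := cc_all e g hx hc
  have inj : Set.InjOn g (Finset.range 6 : Finset ℕ) := by
    intro a ha b hb hab
    have ha' : a < 6 := by simpa using ha
    have hb' : b < 6 := by simpa using hb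
    rcases lt_trichotomy a b with h | h | h
    · exact absurd (congrArg Prod.fst hab) (m b a h hb').ne
    · exact h
    · exact absurd (congrArg Prod.fst hab) (m a b h ha').ne'
  refine ⟨by rw [Finset.card_image_of_injOn inj, Finset.card_range], ?_⟩
  intro t ht hmem
  obtain ⟨j, hj, rfl⟩ := Finset.mem_image.mp ht
  have hj6 : j < 6 := Finset.mem_range.mp hj
  -- every element of the punctured set is `g i` with `i ≠ j`
  have hrep : ∀ z ∈ ((((Finset.range 6).image g : Finset Pt) : Set Pt) \ {g j}),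
      ∃ i, i < 6 ∧ i ≠ j ∧ z = g i := by
    rintro z ⟨hz, hzj⟩
    obtain ⟨i, hi, rfl⟩ := Finset.mem_image.mp (Finset.mem_coe.mp hz)
    refine ⟨i, Finset.mem_range.mp hi, ?_, rfl⟩
    rintro rfl
    exact hzj rfl
  rcases Nat.eq_zero_or_pos j with h0 | h0
  · -- leftmost point
    have hsub : ((((Finset.range 6).image g : Finset Pt) : Set Pt) \ {g j})
        ⊆ {z : Pt | (g j).1 < z.1} := by
      intro z hz
      obtain ⟨i, hi, hij, rfl⟩ := hrep z hz
      exact m i j (by omega) hi
    have h9 : (g j).1 < (g j).1 := convexHull_min hsub (cc_fst_convex_gt _) hmem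
    exact lt_irrefl _ h9
  · rcases Nat.lt_or_ge j 5 with h5 | h5
    · obtain ⟨l, rfl⟩ : ∃ l, j = l + 1 := ⟨j - 1, by omega⟩
      have hsub : ((((Finset.range 6).image g : Finset Pt) : Set Pt) \ {g (l + 1)})
          ⊆ {z : Pt | 0 ≤ e * det3 (g l) (g (l + 2)) z} := by
        intro z hz
        obtain ⟨i, hi, hij, rfl⟩ := hrep z hz
        show 0 ≤ e * det3 (g l) (g (l + 2)) (g i)
        rcases lt_trichotomy i l with h | h | h
        · have h1 := A i l (l + 2) h (by omega) (by omega)
          rw [det3_cyc]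
          exact h1.le
        · subst h; rw [det3_aba]; simp
        · have h2 : l + 2 ≤ i := by omega
          rcases h2.eq_or_lt with h3 | h3
          · subst h3; rw [det3_abb]; simp
          · exact (A l (l + 2) i (by omega) h3 hi).le
      have h1 : 0 ≤ e * det3 (g l) (g (l + 2)) (g (l + 1)) :=
        convexHull_min hsub (cc_convex e _ _) hmem
      have h2 := A l (l + 1) (l + 2) (by omega) (by omega) (by omega)
      rw [det3_swap] at h1
      linarith
    · -- rightmost point
      have hsub : ((((Finset.range 6).image g : Finset Pt) : Set Pt) \ {g j})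
          ⊆ {z : Pt | z.1 < (g j).1} := by
        intro z hz
        obtain ⟨i, hi, hij, rfl⟩ := hrep z hz
        exact m j i (by omega) hj6
      have h9 : (g j).1 < (g j).1 := convexHull_min hsub (cc_fst_convex_lt _) hmem
      exact lt_irrefl _ h9

theorem cup_convPos (g : ℕ → Pt) (hx : ∀ i < 5, (g i).1 < (g (i + 1)).1)
    (hc : ∀ i < 4, 0 < det3 (g i) (g (i + 1)) (g (i + 2))) :
    ((Finset.range 6).image g).card = 6 ∧ ConvPos ((Finset.range 6).image g) := by
  refine cc_main 1 g hx (fun i hi => ?_)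
  rw [one_mul]; exact hc i hi

theorem cap_convPos (g : ℕ → Pt) (hx : ∀ i < 5, (g i).1 < (g (i + 1)).1)
    (hc : ∀ i < 4, det3 (g i) (g (i + 1)) (g (i + 2)) < 0) :
    ((Finset.range 6).image g).card = 6 ∧ ConvPos ((Finset.range 6).image g) := by
  refine cc_main (-1) g hx (fun i hi => ?_)
  have := hc i hi
  linarith

end Pool.Agent.Lib.MP_4beb96_co.ET
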