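import Pool.Agent.Lib.MP_4beb96_co.ET.CupCap
import Pool.Agent.Lib.MP_4beb96_co.ET.CupConv

/-!
# board ET, module Hex

Sort `B` by first coordinate: `B.image Prod.fst` has `|B|` elements (`Xd`); let `e : Fin |B| → ℝ` be its increasing enumeration
(`Finset.orderEmbOfFin`) and `s i ∈ B` the point with first coordinate `e i`; define `s : ℕ → Pt` (junk outside), so that
`(s i).1 < (s j).1` for `i < j ≤ 2^16`. Apply `cup_cap` to `R i j k := 0 < det3 (s i) (s j) (s k)`; in the second case
`det3 < 0` by GP. Then `cup_convPos` / `cap_convPos` for `s ∘ g`; all `g i ≤ 2^16 < |B|` (`g i ≤ g 5`).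
-/

set_option autoImplicit false

namespace Pool.Agent.Lib.MP_4beb96_co.ET

open Finset

theorem exists_hex (B : Finset Pt) (hg : GP B) (hx : Xd B) (hK : 2 ^ 16 < B.card) :
    ∃ S ⊆ B, S.card = 6 ∧ ConvPos S := by
  classical
  have hcard : (B.image Prod.fst).card = B.card := by
    refine card_image_of_injOn fun a ha b hb h => ?_
    by_contra hab
    exact hx a ha b hb hab h
  have hex : ∀ i : Fin (B.image Prod.fst).card, ∃ z ∈ B,
      z.1 = (B.image Prod.fst).orderEmbOfFin rfl i := fun i => by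
    obtain ⟨z, hz, h⟩ := mem_image.1 ((B.image Prod.fst).orderEmbOfFin_mem rfl i)
    exact ⟨z, hz, h⟩
  choose s' hs'B hs'1 using hex
  let s : ℕ → Pt := fun n => if h : n < (B.image Prod.fst).card then s' ⟨n, h⟩ else (0, 0)
  have hsB : ∀ n, n ≤ 2 ^ 16 → s n ∈ B := fun n hn => by
    have h : n < (B.image Prod.fst).card := by omega
    simp only [s, dif_pos h]
    exact hs'B _
  have hslt : ∀ n k, n < k → k ≤ 2 ^ 16 → (s n).1 < (s k).1 := fun n k hnk hk => by
    have h1 : k < (B.image Prod.fst).card := by omega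
    have h2 : n < (B.image Prod.fst).card := by omega
    simp only [s, dif_pos h1, dif_pos h2]
    rw [hs'1, hs'1]
    exact ((B.image Prod.fst).orderEmbOfFin rfl).strictMono hnk
  obtain ⟨g, hg1, hg2, hg3⟩ := cup_cap fun i j k => 0 < det3 (s i) (s j) (s k)
  have hgx : ∀ i < 5, (s (g i)).1 < (s (g (i + 1))).1 := fun i hi =>
    hslt _ _ (hg1 i hi) (hg2 (i + 1) (by omega))
  have hsub : (Finset.range 6).image (fun i => s (g i)) ⊆ B := by
    intro z hz
    obtain ⟨i, hi, rfl⟩ := mem_image.1 hz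
    exact hsB _ (hg2 i (mem_range.1 hi))
  rcases hg3 with h | h
  · obtain ⟨h1, h2⟩ := cup_convPos (fun i => s (g i)) hgx h
    exact ⟨_, hsub, h1, h2⟩
  · obtain ⟨h1, h2⟩ := cap_convPos (fun i => s (g i)) hgx (fun i hi => by
      have e1 := hgx i (by omega)
      have e2 := hgx (i + 1) (by omega)
      refine lt_of_le_of_ne (not_lt.1 (h i hi)) (hg _ (hsB _ (hg2 i (by omega))) _
        (hsB _ (hg2 (i + 1) (by omega))) _ (hsB _ (hg2 (i + 2) (by omega))) ?_ ?_ ?_)
      · intro h3
        rw [h3] at e1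
        exact lt_irrefl _ e1
      · intro h3
        rw [h3] at e1
        exact lt_irrefl _ (e1.trans e2)
      · intro h3
        rw [show i + 1 + 1 = i + 2 from rfl, ← h3] at e2
        exact lt_irrefl _ e2)
    exact ⟨_, hsub, h1, h2⟩

end Pool.Agent.Lib.MP_4beb96_co.ET
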