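import Pool.Agent.Lib.MP_4beb96_co.ET.DetAlg

/-!
# board ET, module Sort4

Four points right of `p` in the slope order. The relation `u < v ↔ 0 < det3 p u v` is a strict total order on `T`
(transitive by `det3_trans`, total by `hne` and `det3_swap`).
Existence of a smallest element of a nonempty finite set with this property (induction on the set):
`lem_min`; similarly of a largest one. For `T` with 4 elements take the smallest `a` and the largest
`b` of `T \ {a}`, the remaining two are `x, y` in the right order.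
-/

set_option autoImplicit false

namespace Pool.Agent.Lib.MP_4beb96_co.ET

open Finset

theorem slope_min (p : Pt) (T : Finset Pt) (hT : T.Nonempty) (hr : ∀ t ∈ T, p.1 < t.1)
    (hne : ∀ u ∈ T, ∀ v ∈ T, u ≠ v → det3 p u v ≠ 0) :
    ∃ a ∈ T, ∀ t ∈ T, t ≠ a → 0 < det3 p a t := by
  obtain ⟨a, haT, hmin⟩ := Finset.exists_min_image T
    (fun z => (z.2 - p.2) / (z.1 - p.1)) hT
  refine ⟨a, haT, fun t ht hta => ?_⟩
  have h := hmin t ht
  have ha1 : 0 < a.1 - p.1 := by linarith [hr a haT]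
  have ht1 : 0 < t.1 - p.1 := by linarith [hr t ht]
  rw [div_le_div_iff₀ ha1 ht1] at h
  have hn := hne a haT t ht (Ne.symm hta)
  have hnn : 0 ≤ det3 p a t := by
    unfold det3; linarith
  exact lt_of_le_of_ne hnn (Ne.symm hn)

theorem slope_max (p : Pt) (T : Finset Pt) (hT : T.Nonempty) (hr : ∀ t ∈ T, p.1 < t.1)
    (hne : ∀ u ∈ T, ∀ v ∈ T, u ≠ v → det3 p u v ≠ 0) :
    ∃ b ∈ T, ∀ t ∈ T, t ≠ b → 0 < det3 p t b := by
  obtain ⟨b, hbT, hmax⟩ := Finset.exists_max_image T
    (fun z => (z.2 - p.2) / (z.1 - p.1)) hT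
  refine ⟨b, hbT, fun t ht htb => ?_⟩
  have h := hmax t ht
  have hb1 : 0 < b.1 - p.1 := by linarith [hr b hbT]
  have ht1 : 0 < t.1 - p.1 := by linarith [hr t ht]
  rw [div_le_div_iff₀ ht1 hb1] at h
  have hn := hne t ht b hbT htb
  have hnn : 0 ≤ det3 p t b := by
    unfold det3; linarith
  exact lt_of_le_of_ne hnn (Ne.symm hn)

theorem slope_sort4 (p : Pt) (T : Finset Pt) (hT : T.card = 4) (hr : ∀ t ∈ T, p.1 < t.1)
    (hne : ∀ u ∈ T, ∀ v ∈ T, u ≠ v → det3 p u v ≠ 0) :
    ∃ a ∈ T, ∃ x ∈ T, ∃ y ∈ T, ∃ b ∈ T, a ≠ x ∧ a ≠ y ∧ a ≠ b ∧ x ≠ y ∧ x ≠ b ∧ y ≠ b ∧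
      0 < det3 p a x ∧ 0 < det3 p x y ∧ 0 < det3 p y b := by
  obtain ⟨a, haT, ha⟩ := slope_min p T (Finset.card_pos.mp (by omega)) hr hne
  have hT1 : (T.erase a).card = 3 := by rw [Finset.card_erase_of_mem haT, hT]
  obtain ⟨x, hx, hx'⟩ := slope_min p (T.erase a) (Finset.card_pos.mp (by omega))
    (fun t ht => hr t (Finset.mem_of_mem_erase ht))
    (fun u hu v hv => hne u (Finset.mem_of_mem_erase hu) v (Finset.mem_of_mem_erase hv))
  have hT2 : ((T.erase a).erase x).card = 2 := by rw [Finset.card_erase_of_mem hx, hT1]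
  obtain ⟨y, hy, hy'⟩ := slope_min p ((T.erase a).erase x) (Finset.card_pos.mp (by omega))
    (fun t ht => hr t (Finset.mem_of_mem_erase (Finset.mem_of_mem_erase ht)))
    (fun u hu v hv => hne u (Finset.mem_of_mem_erase (Finset.mem_of_mem_erase hu)) v
      (Finset.mem_of_mem_erase (Finset.mem_of_mem_erase hv)))
  have hT3 : (((T.erase a).erase x).erase y).card = 1 := by
    rw [Finset.card_erase_of_mem hy, hT2]
  obtain ⟨b, hb⟩ := Finset.card_pos.mp (by omega : 0 < (((T.erase a).erase x).erase y).card)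
  have hb1 := Finset.mem_of_mem_erase hb
  have hb2 := Finset.mem_of_mem_erase hb1
  have hb3 := Finset.mem_of_mem_erase hb2
  have hy1 := Finset.mem_of_mem_erase hy
  have hy2 := Finset.mem_of_mem_erase hy1
  have hx1 := Finset.mem_of_mem_erase hx
  refine ⟨a, haT, x, hx1, y, hy2, b, hb3, (Finset.ne_of_mem_erase hx).symm,
    (Finset.ne_of_mem_erase hy1).symm, (Finset.ne_of_mem_erase hb2).symm,
    (Finset.ne_of_mem_erase hy).symm, (Finset.ne_of_mem_erase hb1).symm,
    (Finset.ne_of_mem_erase hb).symm, ha x hx1 (Finset.ne_of_mem_erase hx),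
    hx' y hy1 (Finset.ne_of_mem_erase hy), hy' b hb1 (Finset.ne_of_mem_erase hb)⟩

end Pool.Agent.Lib.MP_4beb96_co.ET
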