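import Pool.Agent.Lib.MP_4beb96_co.ET.NewPent
import Pool.Agent.Lib.MP_4beb96_co.ET.Sort4

/-!
# board ET, module Step2

Let `I = inner B S`, `|I| ≥ 2`. (a) There are `a ≠ b` in `I` with `det3 a b z < 0` for all `z ∈ I`, `z ≠ a, b`: let `a` be the point of `I`
with the smallest first coordinate, and `b` the last one in the slope order around `a` of `I \ {a}` (`slope_max`):
`0 < det3 a z b`, i.e. `det3 a b z < 0`.
(b) `det3 a b s ≠ 0` for `s ∈ S` (GP; `a, b ∉ S`). If at least 3 points of `S` have `det3 a b s > 0`: choose a 3-subset `T` and use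
`new_pent`. Otherwise at least 4 points have `det3 a b s < 0`, i.e. `0 < det3 b a s`: choose a 4-subset `T` and put
`S' = insert b (insert a T)`. `S' ⊆ B`, `ConvPos S'` and `|S'| = 6` by `new_convPos` with `(b,a)`. `inner B S' ⊆ inner B S \ {a}`: for
`z ∈ inner B S'`: `z ∈ convexHull S' ⊆ convexHull S`, `z ≠ a` as `a ∈ S'`, and `z ∉ S` (if `z ∈ S` then `z ∉ S'` and `extreme` gives
`z ∉ convexHull S'`). Since `a ∈ inner B S`, the cardinality drops.
-/

set_option autoImplicit false

namespace Pool.Agent.Lib.MP_4beb96_co.ET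

open Finset

theorem step2 (B S : Finset Pt) (hg : GP B) (hx : Xd B) (hSB : S ⊆ B) (hS : ConvPos S)
    (h6 : S.card = 6) (h2 : 2 ≤ (inner B S).card) :
    (emptyPent B).Nonempty ∨ ∃ S' ⊆ B, S'.card = 6 ∧ ConvPos S' ∧
      (inner B S').card < (inner B S).card := by
  classical
  have hIne : (inner B S).Nonempty := by
    rw [← Finset.card_pos]
    omega
  obtain ⟨a, haI, hamin⟩ := Finset.exists_min_image (inner B S) (fun z => z.1) hIne
  obtain ⟨haB, haS, haH⟩ := mem_inner.1 haI
  have hEne : ((inner B S).erase a).Nonempty := by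
    rw [← Finset.card_pos, Finset.card_erase_of_mem haI]
    omega
  have hIB : ∀ z ∈ inner B S, z ∈ B := fun z hz => (mem_inner.1 hz).1
  have hr : ∀ t ∈ (inner B S).erase a, a.1 < t.1 := by
    intro t ht
    obtain ⟨hta, htI⟩ := Finset.mem_erase.1 ht
    refine lt_of_le_of_ne (hamin t htI) ?_
    exact hx a haB t (hIB t htI) (Ne.symm hta)
  have hne : ∀ u ∈ (inner B S).erase a, ∀ v ∈ (inner B S).erase a, u ≠ v → det3 a u v ≠ 0 := by
    intro u hu v hv huv
    obtain ⟨hua, huI⟩ := Finset.mem_erase.1 hu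
    obtain ⟨hva, hvI⟩ := Finset.mem_erase.1 hv
    exact hg a haB u (hIB u huI) v (hIB v hvI) (Ne.symm hua) (Ne.symm hva) huv
  obtain ⟨b, hbE, hbmax⟩ := slope_max a ((inner B S).erase a) hEne hr hne
  obtain ⟨hba, hbI⟩ := Finset.mem_erase.1 hbE
  obtain ⟨hbB, hbS, hbH⟩ := mem_inner.1 hbI
  have hab : a ≠ b := Ne.symm hba
  have hneg : ∀ z ∈ inner B S, z ≠ a → z ≠ b → det3 a b z < 0 := by
    intro z hz hza hzb
    have h := hbmax z (Finset.mem_erase.2 ⟨hza, hz⟩) hzb
    rw [det3_swap] at h
    linarith
  have hdet : ∀ s ∈ S, det3 a b s ≠ 0 := by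
    intro s hs
    refine hg a haB b hbB s (hSB hs) hab ?_ ?_
    · intro h
      rw [h] at haS
      exact haS hs
    · intro h
      rw [h] at hbS
      exact hbS hs
  have hsum := Finset.card_filter_add_card_filter_not (s := S) (fun t => 0 < det3 a b t)
  rw [h6] at hsum
  rcases Nat.lt_or_ge (S.filter (fun t => 0 < det3 a b t)).card 3 with h3 | h3
  · right
    have h4 : 4 ≤ (S.filter (fun t => ¬ 0 < det3 a b t)).card := by omega
    obtain ⟨T, hT, hT4⟩ := Finset.exists_subset_card_eq h4
    have hTS : T ⊆ S := fun t ht => (Finset.mem_filter.1 (hT ht)).1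
    have hpos : ∀ t ∈ T, 0 < det3 b a t := by
      intro t ht
      obtain ⟨h5, h6'⟩ := Finset.mem_filter.1 (hT ht)
      have h7 := hdet t h5
      rw [det3_swap']
      have h8 : det3 a b t < 0 := lt_of_le_of_ne (not_lt.1 h6') h7
      linarith
    obtain ⟨hcp, hcard⟩ := new_convPos S hS b a hbH haH hba T hTS hpos
    have hS'H : ((insert b (insert a T) : Finset Pt) : Set Pt) ⊆ convexHull ℝ (S : Set Pt) := by
      intro z hz
      rw [Finset.mem_coe, Finset.mem_insert, Finset.mem_insert] at hz
      rcases hz with hz | hz | hz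
      · rw [hz]
        exact hbH
      · rw [hz]
        exact haH
      · exact subset_convexHull ℝ _ (hTS hz)
    refine ⟨insert b (insert a T), ?_, ?_, hcp, ?_⟩
    · intro z hz
      rw [Finset.mem_insert, Finset.mem_insert] at hz
      rcases hz with hz | hz | hz
      · rw [hz]
        exact hbB
      · rw [hz]
        exact haB
      · exact hSB (hTS hz)
    · rw [hcard, hT4]
    · have hsub : inner B (insert b (insert a T)) ⊆ (inner B S).erase a := by
        intro z hz
        obtain ⟨hzB, hzS', hzH⟩ := mem_inner.1 hz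
        rw [Finset.mem_erase]
        refine ⟨?_, ?_⟩
        · intro h
          apply hzS'
          rw [h]
          exact Finset.mem_insert_of_mem (Finset.mem_insert_self a T)
        · rw [mem_inner]
          refine ⟨hzB, ?_, convexHull_min hS'H (convex_convexHull ℝ _) hzH⟩
          intro hzS
          exact extreme S hS z hzS _ hS'H (fun h => hzS' (Finset.mem_coe.1 h)) hzH
      have h9 := Finset.card_le_card hsub
      rw [Finset.card_erase_of_mem haI] at h9
      omega
  · left
    obtain ⟨T, hT, hT3⟩ := Finset.exists_subset_card_eq h3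
    refine ⟨_, new_pent B S T a b hSB hS ?_ hT3 haB hbB haH hbH hab ?_ hneg⟩
    · intro t ht
      exact (Finset.mem_filter.1 (hT ht)).1
    · intro t ht
      exact (Finset.mem_filter.1 (hT ht)).2

end Pool.Agent.Lib.MP_4beb96_co.ET
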