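import Pool.Agent.Lib.MP_4beb96_co.ET.Step01
import Pool.Agent.Lib.MP_4beb96_co.ET.Step2

/-!
# board ET, module HexPent

Strong induction on `(inner B S).card` with `step0`, `step1`, `step2`.
-/

set_option autoImplicit false

namespace Pool.Agent.Lib.MP_4beb96_co.ET

open Finset

theorem hex_to_pent (B : Finset Pt) (hg : GP B) (hx : Xd B)
    (h : ∃ S ⊆ B, S.card = 6 ∧ ConvPos S) : (emptyPent B).Nonempty := by
  have key : ∀ n : ℕ, ∀ S ⊆ B, S.card = 6 → ConvPos S → (inner B S).card = n →
      (emptyPent B).Nonempty := by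
    intro n
    induction n using Nat.strong_induction_on with
    | _ n ih =>
      intro S hSB h6 hS hn
      rcases Nat.lt_or_ge n 2 with h2 | h2
      · rcases Nat.lt_or_ge n 1 with h1 | h1
        · have h0 : inner B S = ∅ := by
            rw [← Finset.card_eq_zero]; omega
          exact step0 B S hSB hS h6 h0
        · exact step1 B S hg hSB hS h6 (by omega)
      · rcases step2 B S hg hx hSB hS h6 (by omega) with h3 | ⟨S', h3, h4, h5, h7⟩
        · exact h3
        · exact ih _ (by omega) S' h3 h4 h5 rfl
  obtain ⟨S, h1, h2, h3⟩ := h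
  exact key _ S h1 h2 h3 rfl

end Pool.Agent.Lib.MP_4beb96_co.ET
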