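import Pool.Agent.Lib.MP_4beb96_co.ET.DetAlg

/-!
# board ET, module Shear

For every finite set `P` there is an affine equivalence `L` of the plane such that the points of `P.image L` have
distinct first coordinates: `L z = (z.1 + κ z.2, z.2)`, inverse `(z.1 - κ z.2, z.2)`, with `κ` outside the finite set
of all `-(a.1-b.1)/(a.2-b.2)`, `a, b ∈ P` (`Set.Finite`/`Finset.exists_notMem`, infinite type ℝ). If `a ≠ b` and
`a.1 + κ a.2 = b.1 + κ b.2`: if `a.2 = b.2` then `a.1 = b.1`, contradiction; otherwise `κ` is in the bad set.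
Hint: build a linear equivalence `ℝ × ℝ ≃ₗ[ℝ] ℝ × ℝ` (`LinearEquiv.ofLinear` or directly by a structure) and use
`.toAffineEquiv`.
-/

set_option autoImplicit false

namespace Pool.Agent.Lib.MP_4beb96_co.ET

open Finset

private def shearMap (κ : ℝ) : Pt ≃ₗ[ℝ] Pt where
  toFun z := (z.1 + κ * z.2, z.2)
  map_add' u w := by
    ext
    · simp only [Prod.fst_add, Prod.snd_add]; ring
    · simp
  map_smul' c u := by
    ext
    · simp only [Prod.smul_fst, Prod.smul_snd, smul_eq_mul, RingHom.id_apply]; ring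
    · simp
  invFun z := (z.1 - κ * z.2, z.2)
  left_inv z := by
    ext
    · simp
    · simp
  right_inv z := by
    ext
    · simp
    · simp

theorem exists_shear (P : Finset Pt) : ∃ L : Pt ≃ᵃ[ℝ] Pt, Xd (P.image L) := by
  classical
  obtain ⟨κ, hκ⟩ := Infinite.exists_notMem_finset
    ((P ×ˢ P).image (fun t : Pt × Pt => -(t.1.1 - t.2.1) / (t.1.2 - t.2.2)))
  refine ⟨(shearMap κ).toAffineEquiv, ?_⟩
  intro a' ha' b' hb' hne heq
  obtain ⟨a, ha, rfl⟩ := Finset.mem_image.mp ha'
  obtain ⟨b, hb, rfl⟩ := Finset.mem_image.mp hb'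
  have h1 : a.1 + κ * a.2 = b.1 + κ * b.2 := heq
  by_cases h2 : a.2 = b.2
  · apply hne
    have h3 : a = b := by
      ext
      · rw [h2] at h1; linarith
      · exact h2
    rw [h3]
  · apply hκ
    refine Finset.mem_image.mpr ⟨(a, b), Finset.mem_product.mpr ⟨ha, hb⟩, ?_⟩
    show -(a.1 - b.1) / (a.2 - b.2) = κ
    rw [div_eq_iff (sub_ne_zero.mpr h2)]
    linarith

end Pool.Agent.Lib.MP_4beb96_co.ET
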