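import Pool.Agent.Lib.MP_4beb96_co.ET.Collin
import Pool.Agent.Lib.MP_4beb96_co.ET.Hex
import Pool.Agent.Lib.MP_4beb96_co.ET.HexPent
import Pool.Agent.Lib.MP_4beb96_co.ET.Shear
import Pool.Agent.Lib.MP_4beb96_co.ET.AffInv

/-!
# board ET, module BlockPent

Choose `L` with `Xd (B.image L)` (`exists_shear`), `GP (B.image L)` (`GenPos.subset`, `genPos_image`, `genPos_iff_gp`), `|B.image L| = |B|`.
`exists_hex` and `hex_to_pent` give `F' ∈ emptyPent (B.image L)`; `F = F'.image L.symm ∈ emptyPent B` (`pent_image` with `L.symm` and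
`image_symm_image`). Then `F ∈ emptyPent P`: `F ⊆ B ⊆ P`; if `z ∈ P`, `z ∉ F`, `z ∈ convexHull F ⊆ C` (`convexHull_min`, `F ⊆ B ⊆ C`) then
`z ∈ B`, contradiction to `F ∈ emptyPent B`.
`strip_pent`: `B = strip Q t c₁ c₂`, the convex set is `C ∩ {z | c₁ ≤ fl t z ∧ fl t z ≤ c₂}`.
-/

set_option autoImplicit false

namespace Pool.Agent.Lib.MP_4beb96_co.ET

open Finset

theorem block_pent (P : Finset Pt) (hP : GenPos P) (C : Set Pt) (hC : Convex ℝ C) (B : Finset Pt)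
    (hB : ∀ z, z ∈ B ↔ z ∈ P ∧ z ∈ C) (hK : 2 ^ 16 < B.card) : ∃ F ∈ emptyPent P, F ⊆ B := by
  have hBP : B ⊆ P := fun z hz => ((hB z).1 hz).1
  have hBC : ∀ z ∈ B, z ∈ C := fun z hz => ((hB z).1 hz).2
  obtain ⟨L, hL⟩ := exists_shear B
  have hB' : GenPos (B.image L) :=
    genPos_image B L fun a ha b hb c hc => hP a (hBP ha) b (hBP hb) c (hBP hc)
  have hg : GP (B.image L) := (genPos_iff_gp _).1 hB'
  have hc : (B.image L).card = B.card := card_image_of_injective _ L.injective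
  obtain ⟨F', hF'⟩ := hex_to_pent _ hg hL (exists_hex _ hg hL (by rw [hc]; exact hK))
  have hF := pent_image (B.image L) L.symm F' hF'
  rw [image_symm_image] at hF
  obtain ⟨h1, h2, h3, h4⟩ := hF
  refine ⟨F'.image L.symm, ⟨h1.trans hBP, h2, h3, ?_⟩, h1⟩
  intro z hz hzF hzc
  have hzC : z ∈ C := convexHull_min (fun y hy => hBC y (h1 (mem_coe.1 hy))) hC hzc
  exact h4 z ((hB z).2 ⟨hz, hzC⟩) hzF hzc

theorem strip_pent (P : Finset Pt) (hP : GenPos P) (C : Set Pt) (hC : Convex ℝ C) (Q : Finset Pt)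
    (hQ : ∀ z, z ∈ Q ↔ z ∈ P ∧ z ∈ C) (t c₁ c₂ : ℝ) (hK : 2 ^ 16 < (strip Q t c₁ c₂).card) :
    ∃ F ∈ emptyPent P, F ⊆ strip Q t c₁ c₂ := by
  have hS : Convex ℝ {z : Pt | c₁ ≤ fl t z ∧ fl t z ≤ c₂} := by
    intro x hx y hy a b ha hb hab
    obtain ⟨hx1, hx2⟩ := hx
    obtain ⟨hy1, hy2⟩ := hy
    have h1 : fl t (a • x + b • y) = a * fl t x + b * fl t y := by
      simp only [fl, Prod.fst_add, Prod.snd_add, Prod.smul_fst, Prod.smul_snd, smul_eq_mul]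
      ring
    show c₁ ≤ fl t (a • x + b • y) ∧ fl t (a • x + b • y) ≤ c₂
    rw [h1]
    have e1 : a * c₁ + b * c₁ = c₁ := by rw [← add_mul, hab, one_mul]
    have e2 : a * c₂ + b * c₂ = c₂ := by rw [← add_mul, hab, one_mul]
    constructor
    · linarith [mul_le_mul_of_nonneg_left hx1 ha, mul_le_mul_of_nonneg_left hy1 hb]
    · linarith [mul_le_mul_of_nonneg_left hx2 ha, mul_le_mul_of_nonneg_left hy2 hb]
  refine block_pent P hP (C ∩ {z : Pt | c₁ ≤ fl t z ∧ fl t z ≤ c₂}) (hC.inter hS) _ ?_ hK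
  intro z
  unfold strip
  rw [mem_filter, hQ]
  constructor
  · rintro ⟨⟨h1, h2⟩, h3⟩
    exact ⟨h1, h2, h3⟩
  · rintro ⟨h1, h2, h3⟩
    exact ⟨⟨h1, h2⟩, h3⟩

end Pool.Agent.Lib.MP_4beb96_co.ET
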