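import Pool.Agent.Lib.MP_4beb96_co.ET.DetAlg

/-!
# board ET, module Collin

`GenPos P ↔ GP P`.
-/

set_option autoImplicit false

namespace Pool.Agent.Lib.MP_4beb96_co.ET

theorem collinear_iff_det3 (a b c : Pt) (hab : a ≠ b) :
    Collinear ℝ ({a, b, c} : Set (ℝ × ℝ)) ↔ det3 a b c = 0 := by
  have ha : a ∈ ({a, b, c} : Set (ℝ × ℝ)) := by simp
  rw [collinear_iff_of_mem ha]
  constructor
  · rintro ⟨v, hv⟩
    obtain ⟨r, hr⟩ := hv b (by simp)
    obtain ⟨s, hs⟩ := hv c (by simp)
    subst hr hs
    simp only [det3, vadd_eq_add, Prod.fst_add, Prod.snd_add, Prod.smul_fst, Prod.smul_snd,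
      smul_eq_mul]
    ring
  · intro h
    refine ⟨b - a, ?_⟩
    have key : ∃ r : ℝ, c = r • (b - a) +ᵥ a := by
      unfold det3 at h
      by_cases h1 : b.1 - a.1 = 0
      · have h2 : b.2 - a.2 ≠ 0 := by
          intro h2
          exact hab (Prod.ext (by linarith) (by linarith))
        refine ⟨(c.2 - a.2) / (b.2 - a.2), ?_⟩
        have h3 : c.1 - a.1 = 0 := by
          rw [h1] at h
          have : (b.2 - a.2) * (c.1 - a.1) = 0 := by linarith
          rcases mul_eq_zero.mp this with h4 | h4
          · exact absurd h4 h2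
          · exact h4
        ext
        · simp only [vadd_eq_add, Prod.fst_add, Prod.smul_fst, Prod.fst_sub, smul_eq_mul, h1]
          linarith
        · simp only [vadd_eq_add, Prod.snd_add, Prod.smul_snd, Prod.snd_sub, smul_eq_mul]
          field_simp
          ring
      · refine ⟨(c.1 - a.1) / (b.1 - a.1), ?_⟩
        ext
        · simp only [vadd_eq_add, Prod.fst_add, Prod.smul_fst, Prod.fst_sub, smul_eq_mul]
          field_simp
          ring
        · simp only [vadd_eq_add, Prod.snd_add, Prod.smul_snd, Prod.snd_sub, smul_eq_mul]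
          field_simp
          linarith
    intro p hp
    simp only [Set.mem_insert_iff, Set.mem_singleton_iff] at hp
    rcases hp with rfl | rfl | rfl
    · exact ⟨0, by simp⟩
    · exact ⟨1, by simp⟩
    · exact key

theorem genPos_iff_gp (P : Finset Pt) : GenPos P ↔ GP P := by
  unfold GenPos GP
  constructor
  · intro h a ha b hb c hc hab hac hbc hd
    exact h a ha b hb c hc hab hac hbc ((collinear_iff_det3 a b c hab).mpr hd)
  · intro h a ha b hb c hc hab hac hbc hd
    exact h a ha b hb c hc hab hac hbc ((collinear_iff_det3 a b c hab).mp hd)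

end Pool.Agent.Lib.MP_4beb96_co.ET
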