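import Pool.Agent.Lib.MP_4beb96_co.ET.Defs

/-!
# board ET, module JCount

Let `r = dist a b = max |a.1-b.1| |a.2-b.2| > 0`, `Δ₁ = a.1-b.1`, `Δ₂ = a.2-b.2`, `t_j = τ + j/m ∈ (0,1)`,
`fl t a - fl t b = Δ₂ - t Δ₁`. Let `J` be the set of the `j < m` with `|Δ₂ - t_j Δ₁| ≤ w = 8K/m`.
Case 1: `|Δ₁| ≥ r/2`. Then `t_j` is in an interval of length `2w/|Δ₁| ≤ 4w/r` (centre `Δ₂/Δ₁`), so the indices `j` are in an interval of
length `m * 4w/r = 32K/r`, which contains at most `32K/r + 1 ≤ 33K/r` integers (`r ≤ 1`, `K ≥ 1`).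
Case 2: `|Δ₁| < r/2`. Then `|Δ₂| = r`, `|Δ₂ - t_j Δ₁| > r - r/2 = r/2` (as `0 < t_j < 1`), so `J ≠ ∅` only if `r/2 < 8K/m`, i.e.
`m < 16K/r`, and `|J| ≤ m`.
-/

set_option autoImplicit false

namespace Pool.Agent.Lib.MP_4beb96_co.ET

open Finset

private theorem card_window_JCount (S : Finset ℕ) (c R : ℝ) (hR : 0 ≤ R)
    (h : ∀ j ∈ S, |c - (j : ℝ)| ≤ R) : (S.card : ℝ) ≤ 2 * R + 1 := by
  rcases S.eq_empty_or_nonempty with rfl | hS
  · simp only [Finset.card_empty, Nat.cast_zero]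
    linarith
  · have h1 := abs_le.mp (h _ (S.min'_mem hS))
    have h2 := abs_le.mp (h _ (S.max'_mem hS))
    have hle : S.min' hS ≤ S.max' hS := S.min'_le _ (S.max'_mem hS)
    have hsub : S ⊆ Finset.Icc (S.min' hS) (S.max' hS) := by
      intro j hj
      rw [Finset.mem_Icc]
      exact ⟨S.min'_le j hj, S.le_max' j hj⟩
    have h3 := Finset.card_le_card hsub
    rw [Nat.card_Icc] at h3
    have h4 : (S.card : ℝ) ≤ ((S.max' hS + 1 - S.min' hS : ℕ) : ℝ) := by exact_mod_cast h3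
    rw [Nat.cast_sub (by omega)] at h4
    push_cast at h4
    linarith [h1.1, h1.2, h2.1, h2.2]

theorem card_J (m : ℕ) (hm : 1 ≤ m) (τ : ℝ) (hτ : 0 < τ) (hτ' : τ < 1 / m) (a b : Pt) (hab : a ≠ b)
    (hd : dist a b ≤ 1) (K : ℕ) (hK : 1 ≤ K) :
    (((Finset.range m).filter (fun j : ℕ => |fl (τ + j / m) a - fl (τ + j / m) b| ≤ 8 * K / m)).card
      : ℝ) ≤ 33 * K / dist a b := by
  have hr : 0 < dist a b := dist_pos.mpr hab
  have hm0 : (0 : ℝ) < m := by exact_mod_cast hm
  have hK0 : (1 : ℝ) ≤ K := by exact_mod_cast hK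
  have hdist : dist a b = max |a.1 - b.1| |a.2 - b.2| := by
    rw [Prod.dist_eq, Real.dist_eq, Real.dist_eq]
  obtain ⟨r, hrdef⟩ : ∃ r, r = dist a b := ⟨_, rfl⟩
  rw [← hrdef] at hr hd ⊢
  have hmax : max |a.1 - b.1| |a.2 - b.2| = r := by rw [hrdef, hdist]
  have hfl : ∀ t : ℝ, fl t a - fl t b = (a.2 - b.2) - t * (a.1 - b.1) := by
    intro t
    unfold fl
    ring
  set S := (Finset.range m).filter
    (fun j : ℕ => |fl (τ + j / m) a - fl (τ + j / m) b| ≤ 8 * K / m) with hSdef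
  have hS : ∀ j ∈ S, j < m ∧ |(a.2 - b.2) - (τ + j / m) * (a.1 - b.1)| ≤ 8 * K / m := by
    intro j hj
    rw [hSdef, Finset.mem_filter, Finset.mem_range, hfl] at hj
    exact hj
  rcases le_or_gt (r / 2) |a.1 - b.1| with h1 | h1
  · -- case 1
    have hΔ : a.1 - b.1 ≠ 0 := by
      intro h0
      rw [h0, abs_zero] at h1
      linarith
    have hΔ' : 0 < |a.1 - b.1| := abs_pos.mpr hΔ
    have key : ∀ j ∈ S, |m * ((a.2 - b.2) / (a.1 - b.1) - τ) - (j : ℝ)| ≤ 16 * K / r := by
      intro j hj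
      obtain ⟨-, h2⟩ := hS j hj
      have e1 : m * ((a.2 - b.2) / (a.1 - b.1) - τ) - (j : ℝ) =
          ((a.2 - b.2) - (τ + j / m) * (a.1 - b.1)) * (m / (a.1 - b.1)) := by
        field_simp
        ring
      rw [e1, abs_mul, abs_div, abs_of_pos hm0]
      calc |(a.2 - b.2) - (τ + j / m) * (a.1 - b.1)| * (m / |a.1 - b.1|)
          ≤ 8 * K / m * (m / |a.1 - b.1|) :=
            mul_le_mul_of_nonneg_right h2 (div_pos hm0 hΔ').le
        _ = 8 * K / |a.1 - b.1| := by field_simp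
        _ ≤ 8 * K / (r / 2) := by
            apply div_le_div_of_nonneg_left (by positivity) (by linarith) h1
        _ = 16 * K / r := by
            field_simp
            ring
    have h3 := card_window_JCount S _ (16 * K / r) (by positivity) key
    have h4 : (1 : ℝ) ≤ K / r := by
      rw [le_div_iff₀ hr]
      linarith
    have h5 : 33 * (K : ℝ) / r = 2 * (16 * K / r) + K / r := by ring
    rw [h5]
    linarith
  · -- case 2
    have h2 : |a.2 - b.2| = r := by
      rcases max_choice |a.1 - b.1| |a.2 - b.2| with h | h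
      · rw [hmax] at h
        linarith
      · rw [← h, hmax]
    rcases S.eq_empty_or_nonempty with h3 | ⟨j, hj⟩
    · rw [h3, Finset.card_empty, Nat.cast_zero]
      positivity
    · obtain ⟨hjm, h4⟩ := hS j hj
      have ht0 : 0 < τ + (j : ℝ) / m := by positivity
      have hjm' : (j : ℝ) + 1 ≤ m := by exact_mod_cast hjm
      have ht1 : τ + (j : ℝ) / m ≤ 1 := by
        have h5 : (j : ℝ) / m ≤ (m - 1) / m := by
          apply div_le_div_of_nonneg_right _ hm0.le
          linarith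
        have h6 : ((m : ℝ) - 1) / m = 1 - 1 / m := by
          field_simp
        linarith
      have h7 : |(τ + (j : ℝ) / m) * (a.1 - b.1)| ≤ r / 2 := by
        rw [abs_mul, abs_of_pos ht0]
        calc (τ + (j : ℝ) / m) * |a.1 - b.1| ≤ 1 * |a.1 - b.1| :=
              mul_le_mul_of_nonneg_right ht1 (abs_nonneg _)
          _ ≤ r / 2 := by linarith
      have h8 : r / 2 ≤ 8 * K / m := by
        have h9 := abs_sub_abs_le_abs_sub (a.2 - b.2) ((τ + (j : ℝ) / m) * (a.1 - b.1))
        rw [h2] at h9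
        linarith
      have h10 : (m : ℝ) ≤ 16 * K / r := by
        rw [le_div_iff₀ hr]
        rw [le_div_iff₀ hm0] at h8
        linarith
      have h11 : S.card ≤ m := by
        calc S.card ≤ (Finset.range m).card := Finset.card_filter_le _ _
          _ = m := Finset.card_range m
      have h12 : (S.card : ℝ) ≤ m := by exact_mod_cast h11
      have h13 : 16 * (K : ℝ) / r ≤ 33 * K / r := by
        apply div_le_div_of_nonneg_right _ hr.le
        linarith
      linarith

end Pool.Agent.Lib.MP_4beb96_co.ET
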