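import Pool.Agent.Lib.MP_4beb96_co.ET.Defs

/-!
# board ET, module Tau

`fl t a = fl t b` means `a.2 - b.2 = t (a.1 - b.1)`. If `a ≠ b`, `a.1 = b.1` there is no such `t`; if `a.1 ≠ b.1` exactly one. So the set
of the bad `τ` (for some `j < m`, `a ≠ b` in `Q`: `τ = (a.2-b.2)/(a.1-b.1) - j/m`) is finite and `(0, 1/m)` is infinite.
-/

set_option autoImplicit false

namespace Pool.Agent.Lib.MP_4beb96_co.ET

open Finset

theorem exists_tau (Q : Finset Pt) (m : ℕ) (hm : 1 ≤ m) :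
    ∃ τ : ℝ, 0 < τ ∧ τ < 1 / m ∧ ∀ j < m, ∀ a ∈ Q, ∀ b ∈ Q,
      fl (τ + j / m) a = fl (τ + j / m) b → a = b := by
  classical
  let bad : Finset ℝ := ((Finset.range m) ×ˢ (Q ×ˢ Q)).image
    (fun x => (x.2.1.2 - x.2.2.2) / (x.2.1.1 - x.2.2.1) - (x.1 : ℝ) / m)
  have hm0 : (0 : ℝ) < 1 / m := by
    have : (0 : ℝ) < m := by exact_mod_cast hm
    positivity
  obtain ⟨τ, hτ, hτb⟩ := (Set.Ioo_infinite hm0).exists_notMem_finset bad
  refine ⟨τ, hτ.1, hτ.2, ?_⟩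
  intro j hj a ha b hb hab
  by_contra hne
  apply hτb
  simp only [bad, Finset.mem_image, Finset.mem_product, Finset.mem_range]
  refine ⟨(j, (a, b)), ⟨hj, ha, hb⟩, ?_⟩
  simp only [fl] at hab
  have h1 : a.1 ≠ b.1 := by
    intro h1
    apply hne
    ext
    · exact h1
    · rw [h1] at hab
      linarith
  have h2 : a.1 - b.1 ≠ 0 := sub_ne_zero.mpr h1
  have h3 : (a.2 - b.2) / (a.1 - b.1) = τ + j / m := by
    rw [div_eq_iff h2]
    linarith
  simp only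
  rw [h3]
  ring

end Pool.Agent.Lib.MP_4beb96_co.ET
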