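import Pool.Agent.Lib.MP_4beb96_co.ET.Window
import Pool.Agent.Lib.MP_4beb96_co.ET.JCount
import Pool.Agent.Lib.MP_4beb96_co.ET.Tau

/-!
# board ET, module Count

Let `m = |Q| ≥ 4K`, `w = 8K/m`, `τ` from `exists_tau`, `f_j = fl (τ + j/m)` (values in `[-1,1]` on the box since `0 < τ + j/m < 1`), and `Z_j, W_j`
from `exists_windows`, `j < m`. `|Z_j| ≥ m - K(m/(4K) + 1) ≥ m/2`. So the set `X` of the pairs `(j,z)`, `j < m`, `z ∈ Z_j` has at least `m²/2` elements.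
For `e = (a,b)`, `a ≠ b` in `Q`, let `N(e)` be the number of the `(j,z) ∈ X` with `a, b ∈ W_j z`. For such a pair
`|f_j a - f_j b| ≤ w` (both values are in `[f_j z, f_j z + w]`), so `j ∈ J(e)` (the set of `card_J`), and for each `j` there are at most
`K` possible `z`. So `N(e) ≤ K |J(e)|`, where `|J(e)| ≤ m` and `|J(e)| ≤ 33K/dist a b` (`dist a b ≤ 1` in the box).
Bad pairs: `(j,z) ∈ X` such that `W_j z` contains some `a ≠ b` with `dist a b < δ`. Their number is at most the sum of `N(e)` over the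
`e ∈ Q.offDiag` with `dist < δ`, i.e. at most `K Σ min(m, 33K/dist) ≤ 33K² energy δ Q ≤ m²/4` (`min(m, 33K x) ≤ 33K min(m,x)`).
So at least `m²/4` pairs are good. For a good pair `hD` (with `W_j z = strip Q (τ+j/m) (f_j z) c`, `|W_j z| = K`) gives
`p ≠ x` in `W_j z` with `(p,x) ∈ D` and `dist p x ≥ δ`. A given `(p,x) ∈ D` (with `p ≠ x` in `Q`, `dist ≥ δ`) is obtained at most
`N(p,x) ≤ K * 33K/δ` times. So `m²/4 ≤ |D| * 33K²/δ`.
-/

set_option autoImplicit false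

namespace Pool.Agent.Lib.MP_4beb96_co.ET

open Finset

theorem cm_dist_le (a b : Pt) (ha : 0 ≤ a.1 ∧ a.1 ≤ 1 ∧ 0 ≤ a.2 ∧ a.2 ≤ 1)
    (hb : 0 ≤ b.1 ∧ b.1 ≤ 1 ∧ 0 ≤ b.2 ∧ b.2 ≤ 1) : dist a b ≤ 1 := by
  obtain ⟨h1, h2, h3, h4⟩ := ha
  obtain ⟨g1, g2, g3, g4⟩ := hb
  rw [Prod.dist_eq]
  apply max_le
  · rw [Real.dist_eq, abs_le]
    constructor <;> linarith
  · rw [Real.dist_eq, abs_le]
    constructor <;> linarith

theorem cm_fl_bound (t : ℝ) (ht : 0 < t) (ht1 : t < 1) (z : Pt)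
    (hz : 0 ≤ z.1 ∧ z.1 ≤ 1 ∧ 0 ≤ z.2 ∧ z.2 ≤ 1) : -1 ≤ fl t z ∧ fl t z ≤ 1 := by
  obtain ⟨h1, h2, h3, h4⟩ := hz
  unfold fl
  have e1 : 0 ≤ t * z.1 := by positivity
  have e2 : t * z.1 ≤ 1 := by nlinarith
  constructor <;> linarith

theorem cm_t_range (m : ℕ) (hm : 1 ≤ m) (τ : ℝ) (hτ : 0 < τ) (hτ' : τ < 1 / m) (j : ℕ)
    (hj : j < m) : 0 < τ + j / m ∧ τ + (j : ℝ) / m < 1 := by
  have hm0 : (0 : ℝ) < m := by exact_mod_cast hm
  constructor
  · positivity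
  · have h1 : ((j : ℝ) + 1) ≤ m := by exact_mod_cast hj
    have h2 : (j : ℝ) / m + 1 / m ≤ 1 := by
      rw [← add_div]
      rw [div_le_one hm0]
      exact h1
    linarith

theorem cm_mem_strip {Q : Finset Pt} {t c₁ c₂ : ℝ} {z : Pt} : z ∈ strip Q t c₁ c₂ ↔
    z ∈ Q ∧ c₁ ≤ fl t z ∧ fl t z ≤ c₂ := by
  simp [strip]

theorem count_main (K : ℕ) (hK : 1 ≤ K) (Q : Finset Pt) (hm : 4 * K ≤ Q.card)
    (hbox : ∀ q ∈ Q, 0 ≤ q.1 ∧ q.1 ≤ 1 ∧ 0 ≤ q.2 ∧ q.2 ≤ 1) (δ : ℝ) (hδ : 0 < δ) (hδ1 : δ ≤ 1)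
    (hE : energy δ Q ≤ (Q.card : ℝ) ^ 2 / (132 * K ^ 2)) (D : Finset (Pt × Pt))
    (hD : ∀ t c₁ c₂ : ℝ, K ≤ (strip Q t c₁ c₂).card →
      ∃ p ∈ strip Q t c₁ c₂, ∃ x ∈ strip Q t c₁ c₂, p ≠ x ∧ (p, x) ∈ D) :
    δ * (Q.card : ℝ) ^ 2 / (132 * K ^ 2) ≤ D.card := by
  classical
  obtain ⟨m, hmdef⟩ : ∃ m, m = Q.card := ⟨_, rfl⟩
  rw [← hmdef] at hm hE ⊢
  have hm1 : 1 ≤ m := by omega
  have hK0 : (0 : ℝ) < K := by exact_mod_cast hK
  have hK1 : (1 : ℝ) ≤ K := by exact_mod_cast hK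
  have hm0 : (0 : ℝ) < m := by exact_mod_cast hm1
  have hmK : 4 * (K : ℝ) ≤ m := by exact_mod_cast hm
  obtain ⟨τ, hτ, hτ', hinj⟩ := exists_tau Q m hm1
  have hw : (0 : ℝ) < 8 * K / m := by positivity
  have hwin : ∀ j : ℕ, ∃ (Z : Finset Pt) (W : Pt → Finset Pt), j < m → (Z ⊆ Q ∧
      (Q.card : ℝ) - K * (2 / (8 * K / m) + 1) ≤ Z.card ∧
      (∀ z ∈ Z, (W z).card = K ∧ ∃ c, c ≤ fl (τ + j / m) z + 8 * K / m ∧
        W z = Q.filter (fun y => fl (τ + j / m) z ≤ fl (τ + j / m) y ∧ fl (τ + j / m) y ≤ c)) ∧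
      ∀ p, (Z.filter (fun z => p ∈ W z)).card ≤ K) := by
    intro j
    by_cases hj : j < m
    · have ht := cm_t_range m hm1 τ hτ hτ' j hj
      obtain ⟨Z, W, h⟩ := exists_windows Q (fl (τ + j / m))
        (fun z hz => cm_fl_bound _ ht.1 ht.2 z (hbox z hz))
        (fun a ha b hb hab => hinj j hj a ha b hb hab) (8 * K / m) hw K hK
      exact ⟨Z, W, fun _ => by convert h⟩
    · exact ⟨∅, fun _ => ∅, fun h => absurd h hj⟩
  choose Z W hZW using hwin
  -- the set of the pairs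
  obtain ⟨X, hX⟩ : ∃ X : Finset (ℕ × Pt), X = (Finset.range m ×ˢ Q).filter (fun e => e.2 ∈ Z e.1) :=
    ⟨_, rfl⟩
  have memX : ∀ e, e ∈ X ↔ e.1 < m ∧ e.2 ∈ Z e.1 := by
    intro e
    rw [hX]
    simp only [Finset.mem_filter, Finset.mem_product, Finset.mem_range]
    constructor
    · rintro ⟨⟨h1, h2⟩, h3⟩; exact ⟨h1, h3⟩
    · rintro ⟨h1, h3⟩; exact ⟨⟨h1, (hZW e.1 h1).1 h3⟩, h3⟩
  have cardX : ((m : ℝ) ^ 2 / 2) ≤ X.card := by
    have h1 : X.card = ∑ j ∈ Finset.range m, (Z j).card := by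
      rw [Finset.card_eq_sum_card_fiberwise (f := fun e : ℕ × Pt => e.1) (t := Finset.range m)]
      · apply Finset.sum_congr rfl
        intro j hj
        rw [Finset.mem_range] at hj
        apply Finset.card_bij (fun (e : ℕ × Pt) _ => e.2)
        · intro e he
          rw [Finset.mem_filter, memX] at he
          rw [← he.2]; exact he.1.2
        · intro e he e' he' h
          rw [Finset.mem_filter] at he he'
          exact Prod.ext (he.2.trans he'.2.symm) h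
        · intro z hz
          refine ⟨(j, z), ?_, rfl⟩
          rw [Finset.mem_filter, memX]
          exact ⟨⟨hj, hz⟩, rfl⟩
      · intro e he
        have := (memX e).1 he
        simpa using this.1
    rw [h1]
    push_cast
    have h2 : ∀ j ∈ Finset.range m, (m : ℝ) / 2 ≤ ((Z j).card : ℝ) := by
      intro j hj
      rw [Finset.mem_range] at hj
      have h3 := (hZW j hj).2.1
      rw [← hmdef] at h3
      have h4 : (K : ℝ) * (2 / (8 * K / m) + 1) = m / 4 + K := by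
        field_simp
        ring
      rw [h4] at h3
      linarith
    have h3 := Finset.sum_le_sum h2
    rw [Finset.sum_const, Finset.card_range, nsmul_eq_mul] at h3
    calc (m : ℝ) ^ 2 / 2 = m * (m / 2) := by ring
      _ ≤ _ := h3
  -- multiplicity of a pair
  obtain ⟨N, hN⟩ : ∃ N : Pt × Pt → Finset (ℕ × Pt),
      ∀ e, N e = X.filter (fun x => e.1 ∈ W x.1 x.2 ∧ e.2 ∈ W x.1 x.2) := ⟨_, fun _ => rfl⟩
  have Wsub : ∀ x ∈ X, ∀ a ∈ W x.1 x.2, a ∈ Q := by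
    intro x hx a ha
    have hx' := (memX x).1 hx
    obtain ⟨c, _, hc⟩ := ((hZW x.1 hx'.1).2.2.1 x.2 hx'.2).2
    rw [hc] at ha
    exact (Finset.mem_filter.1 ha).1
  have Wdiff : ∀ x ∈ X, ∀ a ∈ W x.1 x.2, ∀ b ∈ W x.1 x.2,
      |fl (τ + x.1 / m) a - fl (τ + x.1 / m) b| ≤ 8 * K / m := by
    intro x hx a ha b hb
    have hx' := (memX x).1 hx
    obtain ⟨c, hc1, hc⟩ := ((hZW x.1 hx'.1).2.2.1 x.2 hx'.2).2
    rw [hc] at ha hb
    have ha2 := (Finset.mem_filter.1 ha).2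
    have hb2 := (Finset.mem_filter.1 hb).2
    rw [abs_le]
    constructor <;> linarith [ha2.1, ha2.2, hb2.1, hb2.2]
  have cardN1 : ∀ e : Pt × Pt, (N e).card ≤ K *
      ((Finset.range m).filter (fun j : ℕ => |fl (τ + j / m) e.1 - fl (τ + j / m) e.2|
        ≤ 8 * K / m)).card := by
    intro e
    apply Finset.card_le_mul_card_image_of_maps_to (f := fun x : ℕ × Pt => x.1)
    · intro x hx
      rw [hN, Finset.mem_filter] at hx
      rw [Finset.mem_filter, Finset.mem_range]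
      exact ⟨((memX x).1 hx.1).1, Wdiff x hx.1 _ hx.2.1 _ hx.2.2⟩
    · intro j hj
      rw [Finset.mem_filter, Finset.mem_range] at hj
      refine le_trans ?_ ((hZW j hj.1).2.2.2 e.1)
      apply Finset.card_le_card_of_injOn (fun x : ℕ × Pt => x.2)
      · intro x hx
        simp only [Finset.coe_filter, Set.mem_setOf_eq] at hx ⊢
        obtain ⟨hx1, hx2⟩ := hx
        rw [hN, Finset.mem_filter] at hx1
        have h3 := (memX x).1 hx1.1
        rw [hx2] at h3 hx1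
        exact ⟨h3.2, hx1.2.1⟩
      · intro x hx y hy hxy
        simp only [Finset.coe_filter, Set.mem_setOf_eq] at hx hy
        exact Prod.ext (hx.2.trans hy.2.symm) hxy
  have cardN2 : ∀ e : Pt × Pt, e.1 ∈ Q → e.2 ∈ Q → e.1 ≠ e.2 →
      ((N e).card : ℝ) ≤ 33 * K ^ 2 * min (m : ℝ) (1 / dist e.1 e.2) := by
    intro e h1 h2 h3
    have hJ := card_J m hm1 τ hτ hτ' e.1 e.2 h3 (cm_dist_le _ _ (hbox _ h1) (hbox _ h2)) K hK
    have hN1 : ((N e).card : ℝ) ≤ K *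
      (((Finset.range m).filter (fun j : ℕ => |fl (τ + j / m) e.1 - fl (τ + j / m) e.2|
        ≤ 8 * K / m)).card : ℝ) := by exact_mod_cast cardN1 e
    have hJ2 : (((Finset.range m).filter (fun j : ℕ => |fl (τ + j / m) e.1 - fl (τ + j / m) e.2|
        ≤ 8 * K / m)).card : ℝ) ≤ m := by
      have := Finset.card_filter_le (Finset.range m) (fun j : ℕ =>
        |fl (τ + j / m) e.1 - fl (τ + j / m) e.2| ≤ 8 * K / m)
      rw [Finset.card_range] at this
      exact_mod_cast this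
    rw [mul_min_of_nonneg _ _ (by positivity)]
    apply le_min
    · calc ((N e).card : ℝ) ≤ K * m := hN1.trans (by gcongr)
        _ ≤ 33 * K ^ 2 * m := by
          apply mul_le_mul_of_nonneg_right _ hm0.le
          nlinarith
    · calc ((N e).card : ℝ) ≤ K * (33 * K / dist e.1 e.2) := hN1.trans (by gcongr)
        _ = 33 * K ^ 2 * (1 / dist e.1 e.2) := by ring
  -- the bad pairs
  obtain ⟨B, hB⟩ : ∃ B : Finset (ℕ × Pt), B = (Q.offDiag.filter (fun e => dist e.1 e.2 < δ)).biUnion N :=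
    ⟨_, rfl⟩
  have cardB : (B.card : ℝ) ≤ (m : ℝ) ^ 2 / 4 := by
    have h1 : (B.card : ℝ) ≤ ∑ e ∈ Q.offDiag.filter (fun e => dist e.1 e.2 < δ), ((N e).card : ℝ) := by
      rw [hB]
      exact_mod_cast Finset.card_biUnion_le
    have h2 : ∑ e ∈ Q.offDiag.filter (fun e => dist e.1 e.2 < δ), ((N e).card : ℝ) ≤
        ∑ e ∈ Q.offDiag.filter (fun e => dist e.1 e.2 < δ),
          33 * K ^ 2 * min (m : ℝ) (1 / dist e.1 e.2) := by
      apply Finset.sum_le_sum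
      intro e he
      rw [Finset.mem_filter, Finset.mem_offDiag] at he
      exact cardN2 e he.1.1 he.1.2.1 he.1.2.2
    rw [← Finset.mul_sum] at h2
    have h3 : ∑ e ∈ Q.offDiag.filter (fun e => dist e.1 e.2 < δ),
        min (m : ℝ) (1 / dist e.1 e.2) = energy δ Q := by
      unfold energy
      rw [← hmdef]
    rw [h3] at h2
    calc (B.card : ℝ) ≤ 33 * K ^ 2 * energy δ Q := h1.trans h2
      _ ≤ 33 * K ^ 2 * ((m : ℝ) ^ 2 / (132 * K ^ 2)) := by gcongr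
      _ = (m : ℝ) ^ 2 / 4 := by field_simp; norm_num
  have cardG : (m : ℝ) ^ 2 / 4 ≤ ((X \ B).card : ℝ) := by
    have h1 : X.card ≤ (X \ B).card + B.card := by
      have := Finset.card_sdiff_add_card X B
      have h2 : X.card ≤ (X ∪ B).card := Finset.card_le_card Finset.subset_union_left
      omega
    have h2 : (X.card : ℝ) ≤ (X \ B).card + B.card := by exact_mod_cast h1
    linarith
  -- good pairs
  obtain ⟨D', hD'⟩ : ∃ D' : Finset (Pt × Pt), D' = D.filter (fun e => e.1 ∈ Q ∧ e.2 ∈ Q ∧ e.1 ≠ e.2 ∧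
      δ ≤ dist e.1 e.2) := ⟨_, rfl⟩
  have hsub : X \ B ⊆ D'.biUnion N := by
    intro x hx
    rw [Finset.mem_sdiff] at hx
    obtain ⟨hxX, hxB⟩ := hx
    have hx' := (memX x).1 hxX
    obtain ⟨hcard, c, hc1, hc⟩ := (hZW x.1 hx'.1).2.2.1 x.2 hx'.2
    have hstrip : strip Q (τ + x.1 / m) (fl (τ + x.1 / m) x.2) c = W x.1 x.2 := by
      rw [hc]
      ext y
      rw [cm_mem_strip, Finset.mem_filter]
    obtain ⟨p, hp, y, hy, hne, hmem⟩ := hD (τ + x.1 / m) (fl (τ + x.1 / m) x.2) c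
      (by rw [hstrip, hcard])
    rw [hstrip] at hp hy
    have hpQ := Wsub x hxX p hp
    have hyQ := Wsub x hxX y hy
    rw [Finset.mem_biUnion]
    refine ⟨(p, y), ?_, ?_⟩
    · rw [hD', Finset.mem_filter]
      refine ⟨hmem, hpQ, hyQ, hne, ?_⟩
      by_contra hlt
      push Not at hlt
      apply hxB
      rw [hB, Finset.mem_biUnion]
      refine ⟨(p, y), ?_, ?_⟩
      · rw [Finset.mem_filter, Finset.mem_offDiag]
        exact ⟨⟨hpQ, hyQ, hne⟩, hlt⟩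
      · rw [hN, Finset.mem_filter]
        exact ⟨hxX, hp, hy⟩
    · rw [hN, Finset.mem_filter]
      exact ⟨hxX, hp, hy⟩
  have hG2 : ((X \ B).card : ℝ) ≤ D.card * (33 * K ^ 2 / δ) := by
    have h1 : ((X \ B).card : ℝ) ≤ ∑ e ∈ D', ((N e).card : ℝ) := by
      have := (Finset.card_le_card hsub).trans Finset.card_biUnion_le
      exact_mod_cast this
    have h2 : ∑ e ∈ D', ((N e).card : ℝ) ≤ ∑ e ∈ D', (33 * K ^ 2 / δ : ℝ) := by
      apply Finset.sum_le_sum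
      intro e he
      rw [hD', Finset.mem_filter] at he
      obtain ⟨_, h3, h4, h5, h6⟩ := he
      refine (cardN2 e h3 h4 h5).trans ?_
      calc 33 * (K : ℝ) ^ 2 * min (m : ℝ) (1 / dist e.1 e.2)
          ≤ 33 * (K : ℝ) ^ 2 * (1 / dist e.1 e.2) := by
            gcongr
            exact min_le_right _ _
        _ ≤ 33 * (K : ℝ) ^ 2 * (1 / δ) := by
            gcongr
        _ = 33 * (K : ℝ) ^ 2 / δ := by ring
    rw [Finset.sum_const, nsmul_eq_mul] at h2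
    have h3 : (D'.card : ℝ) ≤ D.card := by
      rw [hD']
      exact_mod_cast Finset.card_filter_le _ _
    calc ((X \ B).card : ℝ) ≤ D'.card * (33 * K ^ 2 / δ) := h1.trans h2
      _ ≤ D.card * (33 * K ^ 2 / δ) := by gcongr
  have hfin : (m : ℝ) ^ 2 / 4 ≤ D.card * (33 * K ^ 2 / δ) := cardG.trans hG2
  rw [div_le_iff₀ (by positivity)]
  have h1 : (D.card : ℝ) * (33 * K ^ 2 / δ) = (D.card * (33 * K ^ 2)) / δ := by ring
  rw [h1, le_div_iff₀ hδ] at hfin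
  nlinarith

end Pool.Agent.Lib.MP_4beb96_co.ET
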