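import Pool.Agent.Lib.MP_4beb96_co.ET.Defs

/-!
# board ET, module CupCap

Pure combinatorics (Erdos-Szekeres for an arbitrary ternary relation `R` on `0..2^16`, restricted form).
Define inductively `Cup : ℕ → ℕ → ℕ → Prop` (length `k`, last edge `(i,j)`): `Cup 2 i j ↔ i < j`,
`Cup (k+1) i j ↔ i < j ∧ ∃ h < i, Cup k h i ∧ R h i j`, and `Cap` in the same way with `¬ R`. (Monotone: `Cup (k+1) i j`
implies `Cup k i j`? not needed if one takes the maximal length.) A proof of `Cup 6 i j` gives a strictly increasing sequence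
`g 0 < ... < g 5 = j` with `R` on all consecutive triples; the same for `Cap`.
Suppose there is neither `Cup 6` nor `Cap 6` with last index `≤ 2^16`. For `i < j ≤ 2^16` let `u(i,j) ∈ {2,3,4,5}` be the largest
`k` with `Cup k i j` (note that `Cup k` for `k ≥ 7` is impossible as well: by removing the first elements of the sequence a
`Cup 7` contains a `Cup 6` with the same last edge; simplest: prove `Cup (k+1) i j → Cup k i j` for `k ≥ 2` by induction),
`v(i,j)` the same for `Cap`. For `h < i < j`: if `R h i j` then `u(i,j) ≥ u(h,i)+1`, otherwise `v(i,j) ≥ v(h,i)+1`.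
Let `A j = {(u(i,j), v(i,j)) : i < j} ⊆ {2,3,4,5}^2`. For `i < j ≤ 2^16` we have `A i ≠ A j`: `(u(i,j), v(i,j)) ∈ A j`, and if it
were in `A i` there would be `h < i` with `u(h,i) = u(i,j)`, `v(h,i) = v(i,j)`, impossible. So `j ↦ A j` is an injection of the
`2^16 + 1` numbers `0..2^16` into the `2^16` subsets of `{2,3,4,5}^2`: contradiction.
(Variant: use `A j` as a subset of `Fin 4 × Fin 4`, `Fintype.card (Finset (Fin 4 × Fin 4)) = 2^16`.)
-/

set_option autoImplicit false

namespace Pool.Agent.Lib.MP_4beb96_co.ET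

open Finset

/-- `Cup R k i j`: there is an increasing sequence with `k + 2` members, the last two of which are `i`, `j`,
such that `R` holds for all consecutive triples -/
def Cup (R : ℕ → ℕ → ℕ → Prop) : ℕ → ℕ → ℕ → Prop
  | 0, i, j => i < j
  | k + 1, i, j => i < j ∧ ∃ h, h < i ∧ Cup R k h i ∧ R h i j

theorem Cup.mono {R : ℕ → ℕ → ℕ → Prop} : ∀ (k i j : ℕ), Cup R (k + 1) i j → Cup R k i j
  | 0, _, _, h => h.1
  | k + 1, _, _, ⟨hij, h, hh, hc, hR⟩ => ⟨hij, h, hh, Cup.mono k _ _ hc, hR⟩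

theorem Cup.seq {R : ℕ → ℕ → ℕ → Prop} : ∀ (k i j : ℕ), Cup R k i j →
    ∃ g : ℕ → ℕ, g k = i ∧ g (k + 1) = j ∧ (∀ m < k + 1, g m < g (m + 1)) ∧
      ∀ m < k, R (g m) (g (m + 1)) (g (m + 2))
  | 0, i, j, h => ⟨fun m => if m = 0 then i else j, by simp, by simp, by
      intro m hm
      have hm0 : m = 0 := by omega
      subst hm0
      have h' : i < j := h
      simpa using h', fun m hm => absurd hm (Nat.not_lt_zero m)⟩
  | k + 1, i, j, ⟨hij, h, hh, hc, hR⟩ => by
      obtain ⟨g, g1, g2, g3, g4⟩ := Cup.seq k h i hc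
      refine ⟨fun m => if m ≤ k + 1 then g m else j, by simp [g2], by simp, ?_, ?_⟩
      · intro m hm
        rcases Nat.lt_or_ge m (k + 1) with h1 | h1
        · have e1 : m ≤ k + 1 := h1.le
          have e2 : m + 1 ≤ k + 1 := h1
          simp only [e1, e2, if_true]
          exact g3 m h1
        · have hmk : m = k + 1 := by omega
          subst hmk
          have e3 : ¬ (k + 1 + 1 ≤ k + 1) := by omega
          simp only [le_refl, if_true, e3, if_false, g2]
          exact hij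
      · intro m hm
        rcases Nat.lt_or_ge m k with h1 | h1
        · have e1 : m ≤ k + 1 := by omega
          have e2 : m + 1 ≤ k + 1 := by omega
          have e3 : m + 2 ≤ k + 1 := by omega
          simp only [e1, e2, e3, if_true]
          exact g4 m h1
        · have hmk : m = k := by omega
          subst hmk
          have e1 : m ≤ m + 1 := by omega
          have e3 : ¬ (m + 2 ≤ m + 1) := by omega
          simp only [e1, le_refl, if_true, e3, if_false, g1, g2]
          exact hR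

open Classical in
/-- the largest `k ≤ 3` with `Cup R k i j` -/
noncomputable def uu (R : ℕ → ℕ → ℕ → Prop) (i j : ℕ) : ℕ := Nat.findGreatest (fun k => Cup R k i j) 3

theorem uu_le (R : ℕ → ℕ → ℕ → Prop) (i j : ℕ) : uu R i j ≤ 3 := by
  classical
  exact Nat.findGreatest_le 3

theorem uu_spec (R : ℕ → ℕ → ℕ → Prop) {i j : ℕ} (h : i < j) : Cup R (uu R i j) i j := by
  classical
  exact Nat.findGreatest_spec (P := fun k => Cup R k i j) (Nat.zero_le 3) h

theorem uu_lt {R : ℕ → ℕ → ℕ → Prop} {h i j : ℕ} (hn : ¬ Cup R 4 i j) (hhi : h < i) (hij : i < j)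
    (hR : R h i j) : uu R h i < uu R i j := by
  classical
  have h1 : Cup R (uu R h i + 1) i j := ⟨hij, h, hhi, uu_spec R hhi, hR⟩
  have h2 : uu R h i + 1 ≤ 3 := by
    by_contra hc
    have h3 : uu R h i = 3 := le_antisymm (uu_le R h i) (by omega)
    rw [h3] at h1
    exact hn h1
  exact Nat.le_findGreatest (P := fun k => Cup R k i j) h2 h1

/-- the pair of the two lengths -/
noncomputable def uv (R : ℕ → ℕ → ℕ → Prop) (i j : ℕ) : Fin 4 × Fin 4 :=
  (⟨uu R i j, Nat.lt_succ_of_le (uu_le R i j)⟩,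
    ⟨uu (fun a b c => ¬ R a b c) i j, Nat.lt_succ_of_le (uu_le _ i j)⟩)

theorem exists_cup (R : ℕ → ℕ → ℕ → Prop) : ∃ i j, j ≤ 2 ^ 16 ∧
    (Cup R 4 i j ∨ Cup (fun a b c => ¬ R a b c) 4 i j) := by
  classical
  by_contra hcon
  push Not at hcon
  have key : ∀ i j, i < j → j ≤ 2 ^ 16 →
      (Finset.range i).image (fun h => uv R h i) ≠ (Finset.range j).image (fun h => uv R h j) := by
    intro i j hij hj he
    have h1 : uv R i j ∈ (Finset.range j).image (fun h => uv R h j) :=
      Finset.mem_image.2 ⟨i, Finset.mem_range.2 hij, rfl⟩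
    rw [← he] at h1
    obtain ⟨h, hh, e⟩ := Finset.mem_image.1 h1
    rw [Finset.mem_range] at hh
    have e1 : uu R h i = uu R i j := congrArg (fun x => (x.1 : ℕ)) e
    have e2 : uu (fun a b c => ¬ R a b c) h i = uu (fun a b c => ¬ R a b c) i j :=
      congrArg (fun x => (x.2 : ℕ)) e
    by_cases hR : R h i j
    · exact absurd e1 (uu_lt (hcon i j hj).1 hh hij hR).ne
    · exact absurd e2 (uu_lt (R := fun a b c => ¬ R a b c) (hcon i j hj).2 hh hij hR).ne
  have hcard : Fintype.card (Finset (Fin 4 × Fin 4)) < Fintype.card (Fin (2 ^ 16 + 1)) := by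
    rw [Fintype.card_finset, Fintype.card_prod, Fintype.card_fin, Fintype.card_fin]
    norm_num
  obtain ⟨a, b, hab, he⟩ := Fintype.exists_ne_map_eq_of_card_lt
    (fun j : Fin (2 ^ 16 + 1) => (Finset.range (j : ℕ)).image (fun h => uv R h (j : ℕ))) hcard
  rcases lt_or_gt_of_ne (fun h => hab (Fin.ext h) : (a : ℕ) ≠ (b : ℕ)) with h | h
  · exact key a b h (Nat.le_of_lt_succ b.2) he
  · exact key b a h (Nat.le_of_lt_succ a.2) he.symm

theorem cup_cap (R : ℕ → ℕ → ℕ → Prop) : ∃ g : ℕ → ℕ, (∀ i < 5, g i < g (i + 1)) ∧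
    (∀ i < 6, g i ≤ 2 ^ 16) ∧ ((∀ i < 4, R (g i) (g (i + 1)) (g (i + 2))) ∨
      (∀ i < 4, ¬ R (g i) (g (i + 1)) (g (i + 2)))) := by
  obtain ⟨i, j, hj, h⟩ := exists_cup R
  have fin : ∀ (g : ℕ → ℕ), g 5 = j → (∀ m < 5, g m < g (m + 1)) → ∀ m < 6, g m ≤ 2 ^ 16 := by
    intro g g5 gm m hm
    have h0 := gm 0 (by norm_num)
    have h1 := gm 1 (by norm_num)
    have h2 := gm 2 (by norm_num)
    have h3 := gm 3 (by norm_num)
    have h4 := gm 4 (by norm_num)
    have hg5 : g 5 ≤ 2 ^ 16 := by rw [g5]; exact hj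
    simp only [Nat.reduceAdd] at h0 h1 h2 h3 h4
    generalize (2 : ℕ) ^ 16 = N at *
    interval_cases m <;> omega
  rcases h with h | h
  · obtain ⟨g, _, g5, gm, gR⟩ := Cup.seq 4 i j h
    exact ⟨g, gm, fin g g5 gm, Or.inl gR⟩
  · obtain ⟨g, _, g5, gm, gR⟩ := Cup.seq 4 i j h
    exact ⟨g, gm, fin g g5 gm, Or.inr gR⟩

end Pool.Agent.Lib.MP_4beb96_co.ET
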