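import Pool.Agent.Lib.MP_4beb96_co.ET.Defs

/-!
# board ET, module Cut

`f` is injective on `S`. Induction on `K`, or: `(S.image f)` has `|S|` elements, take its `K`-th smallest element
`(S.image f).orderEmbOfFin rfl ⟨K-1, _⟩`; or induction on `|S|` by removing the largest element of `S` as long as `|S| > K`.
-/

set_option autoImplicit false

namespace Pool.Agent.Lib.MP_4beb96_co.ET

open Finset

theorem exists_cut (S : Finset Pt) (f : Pt → ℝ) (hf : ∀ a ∈ S, ∀ b ∈ S, f a = f b → a = b)
    (K : ℕ) (h1 : 1 ≤ K) (hK : K ≤ S.card) :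
    ∃ z ∈ S, (S.filter (fun y => f y ≤ f z)).card = K := by
  classical
  have hcard : (S.image f).card = S.card :=
    card_image_of_injOn fun a ha b hb h => hf a ha b hb h
  have hk : K - 1 < (S.image f).card := by omega
  obtain ⟨z, hz, hze⟩ := mem_image.1 ((S.image f).orderEmbOfFin_mem rfl ⟨K - 1, hk⟩)
  refine ⟨z, hz, ?_⟩
  have h2 : (S.filter (fun y => f y ≤ f z)).image f =
      (Finset.Iic (⟨K - 1, hk⟩ : Fin (S.image f).card)).map
        ((S.image f).orderEmbOfFin rfl).toEmbedding := by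
    ext t
    rw [mem_image, mem_map]
    constructor
    · rintro ⟨y, hy, rfl⟩
      rw [mem_filter] at hy
      have h3 : f y ∈ Set.range ((S.image f).orderEmbOfFin rfl) := by
        rw [range_orderEmbOfFin]
        exact Finset.mem_coe.2 (mem_image_of_mem f hy.1)
      obtain ⟨i, hi⟩ := h3
      refine ⟨i, ?_, hi⟩
      rw [Finset.mem_Iic, ← ((S.image f).orderEmbOfFin rfl).le_iff_le, hi, ← hze]
      exact hy.2
    · rintro ⟨i, hi, rfl⟩
      obtain ⟨y, hy, hye⟩ := mem_image.1 ((S.image f).orderEmbOfFin_mem rfl i)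
      refine ⟨y, mem_filter.2 ⟨hy, ?_⟩, hye⟩
      rw [hye, hze]
      exact ((S.image f).orderEmbOfFin rfl).le_iff_le.2 (Finset.mem_Iic.1 hi)
  have h3 : ((S.filter (fun y => f y ≤ f z)).image f).card =
      (S.filter (fun y => f y ≤ f z)).card :=
    card_image_of_injOn fun a ha b hb h => hf a (mem_filter.1 ha).1 b (mem_filter.1 hb).1 h
  rw [← h3, h2, card_map, Fin.card_Iic]
  change K - 1 + 1 = K
  omega

end Pool.Agent.Lib.MP_4beb96_co.ET
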