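import Mathlib

/-!
# MP_4beb96_co (empty triangles), board ET: definitions

Points of the plane are pairs `z = (z.1, z.2)`; the distance of `ℝ × ℝ` is the maximum norm distance.
All statements of the board use only the definitions of this file.
-/

set_option autoImplicit false

namespace Pool.Agent.Lib.MP_4beb96_co.ET

open Finset

/-- a point of the plane -/
abbrev Pt : Type := ℝ × ℝ

/-- twice the signed area of the triangle `a b c` -/
def det3 (a b c : Pt) : ℝ := (b.1 - a.1) * (c.2 - a.2) - (b.2 - a.2) * (c.1 - a.1)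

/-- no three points of `P` are collinear (verbatim the hypothesis of the frozen statement) -/
def GenPos (P : Finset (ℝ × ℝ)) : Prop :=
  ∀ a ∈ P, ∀ b ∈ P, ∀ c ∈ P, a ≠ b → a ≠ c → b ≠ c →
    ¬ Collinear ℝ ({a, b, c} : Set (ℝ × ℝ))

/-- no three points of `P` are collinear, in terms of `det3` (equivalent to `GenPos`, module Collin) -/
def GP (P : Finset Pt) : Prop :=
  ∀ a ∈ P, ∀ b ∈ P, ∀ c ∈ P, a ≠ b → a ≠ c → b ≠ c → det3 a b c ≠ 0

/-- the first coordinates of the points of `P` are distinct -/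
def Xd (P : Finset Pt) : Prop := ∀ a ∈ P, ∀ b ∈ P, a ≠ b → a.1 ≠ b.1

/-- the empty triangles of `P` (verbatim the set of the frozen statement) -/
def emptyTri (P : Finset (ℝ × ℝ)) : Set (Finset (ℝ × ℝ)) :=
  {T : Finset (ℝ × ℝ) | T ⊆ P ∧ T.card = 3 ∧
    ∀ p ∈ P, p ∉ T → p ∉ convexHull ℝ (T : Set (ℝ × ℝ))}

/-- `T` is in (strictly) convex position: no point of `T` is in the convex hull of the other ones -/
def ConvPos (T : Finset (ℝ × ℝ)) : Prop :=
  ∀ t ∈ T, t ∉ convexHull ℝ ((T : Set (ℝ × ℝ)) \ {t})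

/-- the empty convex pentagons (5-holes) of `P` -/
def emptyPent (P : Finset (ℝ × ℝ)) : Set (Finset (ℝ × ℝ)) :=
  {T : Finset (ℝ × ℝ) | T ⊆ P ∧ T.card = 5 ∧ ConvPos T ∧
    ∀ p ∈ P, p ∉ T → p ∉ convexHull ℝ (T : Set (ℝ × ℝ))}

/-- the point `z` is in the open triangle `a b c`, which is positively oriented -/
def InTri (a b c z : Pt) : Prop := 0 < det3 a b z ∧ 0 < det3 b c z ∧ 0 < det3 c a z

open Classical in
/-- the empty triangles `p x y` of `P`, positively oriented, with leftmost point `p` -/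
noncomputable def VS (P : Finset Pt) : Finset (Pt × Pt × Pt) :=
  (P ×ˢ P ×ˢ P).filter (fun t => t.1.1 < t.2.1.1 ∧ t.1.1 < t.2.2.1 ∧ 0 < det3 t.1 t.2.1 t.2.2 ∧
    ∀ z ∈ P, ¬ InTri t.1 t.2.1 t.2.2 z)

open Classical in
/-- the triangles `(p,x,y)` of `VS P` without a point `b` right of `p`, above the line `p y` and
above (left of) the line `x y` -/
noncomputable def RC (P : Finset Pt) : Finset (Pt × Pt × Pt) :=
  (VS P).filter (fun t => ∀ b ∈ P, t.1.1 < b.1 → 0 < det3 t.1 t.2.2 b → det3 t.2.1 t.2.2 b ≤ 0)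

open Classical in
/-- the triangles `(p,x,y)` of `VS P` without a point `a` right of `p`, below the line `p x` and
left of the line `x y` -/
noncomputable def LC (P : Finset Pt) : Finset (Pt × Pt × Pt) :=
  (VS P).filter (fun t => ∀ a ∈ P, t.1.1 < a.1 → 0 < det3 t.1 a t.2.1 → det3 t.2.1 t.2.2 a ≤ 0)

open Classical in
/-- the triangles of `VS P` which are blocked on both sides -/
noncomputable def RS (P : Finset Pt) : Finset (Pt × Pt × Pt) :=
  (VS P).filter (fun t =>
    (∃ b ∈ P, t.1.1 < b.1 ∧ 0 < det3 t.1 t.2.2 b ∧ 0 < det3 t.2.1 t.2.2 b) ∧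
    (∃ a ∈ P, t.1.1 < a.1 ∧ 0 < det3 t.1 a t.2.1 ∧ 0 < det3 t.2.1 t.2.2 a))

open Classical in
/-- the energy of `Q` below the scale `δ`: the sum over all ordered pairs `a ≠ b` of points of `Q`
at distance less than `δ` of `min |Q| (1 / dist a b)` -/
noncomputable def energy (δ : ℝ) (Q : Finset (ℝ × ℝ)) : ℝ :=
  ∑ e ∈ Q.offDiag.filter (fun e => dist e.1 e.2 < δ), min (Q.card : ℝ) (1 / dist e.1 e.2)

/-- the linear form `z ↦ z.2 - t z.1` -/
def fl (t : ℝ) (z : Pt) : ℝ := z.2 - t * z.1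

open Classical in
/-- the points of `Q` in the strip `c₁ ≤ z.2 - t z.1 ≤ c₂` -/
noncomputable def strip (Q : Finset Pt) (t c₁ c₂ : ℝ) : Finset Pt :=
  Q.filter (fun z => c₁ ≤ fl t z ∧ fl t z ≤ c₂)

open Classical in
/-- the points of `B` in the convex hull of `S` which are not in `S` -/
noncomputable def inner (B S : Finset Pt) : Finset Pt :=
  B.filter (fun z => z ∉ S ∧ z ∈ convexHull ℝ (S : Set Pt))

end Pool.Agent.Lib.MP_4beb96_co.ET
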