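import Pool.Agent.Lib.MP_4beb96_co.ET.Defs

/-! board ET: algebra of `det3` (complete) -/

set_option autoImplicit false

namespace Pool.Agent.Lib.MP_4beb96_co.ET

theorem det3_cyc (a b c : Pt) : det3 b c a = det3 a b c := by unfold det3; ring

theorem det3_cyc' (a b c : Pt) : det3 c a b = det3 a b c := by unfold det3; ring

theorem det3_swap (a b c : Pt) : det3 a c b = - det3 a b c := by unfold det3; ring

theorem det3_swap' (a b c : Pt) : det3 b a c = - det3 a b c := by unfold det3; ring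

theorem det3_aab (a b : Pt) : det3 a a b = 0 := by unfold det3; ring

theorem det3_aba (a b : Pt) : det3 a b a = 0 := by unfold det3; ring

theorem det3_abb (a b : Pt) : det3 a b b = 0 := by unfold det3; ring

theorem det3_sum (a b c z : Pt) : det3 a b z + det3 b c z + det3 c a z = det3 a b c := by
  unfold det3; ring

/-- barycentric coordinates -/
theorem det3_bary (a b c z : Pt) :
    det3 a b c • z = det3 b c z • a + det3 c a z • b + det3 a b z • c := by
  ext
  · simp only [det3, Prod.smul_fst, Prod.fst_add, smul_eq_mul]; ring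
  · simp only [det3, Prod.smul_snd, Prod.snd_add, smul_eq_mul]; ring

theorem det3_trans_id (p x y z : Pt) :
    (y.1 - p.1) * det3 p x z = (z.1 - p.1) * det3 p x y + (x.1 - p.1) * det3 p y z := by
  unfold det3; ring

/-- the slope order of the points right of `p` is transitive -/
theorem det3_trans (p x y z : Pt) (hx : p.1 < x.1) (hy : p.1 < y.1) (hz : p.1 < z.1)
    (h1 : 0 < det3 p x y) (h2 : 0 < det3 p y z) : 0 < det3 p x z := by
  have h := det3_trans_id p x y z
  have h3 : 0 < (y.1 - p.1) * det3 p x z := by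
    rw [h]
    have e1 : 0 < (z.1 - p.1) * det3 p x y := mul_pos (by linarith) h1
    have e2 : 0 < (x.1 - p.1) * det3 p y z := mul_pos (by linarith) h2
    linarith
  exact (pos_iff_pos_of_mul_pos h3).mp (by linarith)

/-- `det3 a b` is an affine function of its last argument -/
theorem det3_comb (a b u v : Pt) (s t : ℝ) (h : s + t = 1) :
    det3 a b (s • u + t • v) = s * det3 a b u + t * det3 a b v := by
  have hs : s = 1 - t := by linarith
  subst hs
  simp only [det3, Prod.smul_fst, Prod.fst_add, Prod.smul_snd, Prod.snd_add, smul_eq_mul]; ring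

theorem convex_det3_nonneg (a b : Pt) : Convex ℝ {z : Pt | 0 ≤ det3 a b z} := by
  intro u hu v hv s t hs ht hst
  simp only [Set.mem_setOf_eq] at *
  rw [det3_comb a b u v s t hst]
  positivity

theorem convex_det3_nonpos (a b : Pt) : Convex ℝ {z : Pt | det3 a b z ≤ 0} := by
  intro u hu v hv s t hs ht hst
  simp only [Set.mem_setOf_eq] at *
  rw [det3_comb a b u v s t hst]
  have := mul_nonneg hs (neg_nonneg.mpr hu)
  have := mul_nonneg ht (neg_nonneg.mpr hv)
  nlinarith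

theorem convex_det3_pos (a b : Pt) : Convex ℝ {z : Pt | 0 < det3 a b z} := by
  intro u hu v hv s t hs ht hst
  simp only [Set.mem_setOf_eq] at *
  rw [det3_comb a b u v s t hst]
  rcases hs.eq_or_lt with h | h
  · subst h
    have : t = 1 := by linarith
    subst this; simpa using hv
  · have h1 := mul_pos h hu
    have h2 := mul_nonneg ht hv.le
    linarith

theorem hull_det3_nonneg (a b : Pt) (S : Set Pt) (h : ∀ s ∈ S, 0 ≤ det3 a b s) (z : Pt)
    (hz : z ∈ convexHull ℝ S) : 0 ≤ det3 a b z :=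
  convexHull_min (fun s hs => h s hs) (convex_det3_nonneg a b) hz

theorem hull_det3_nonpos (a b : Pt) (S : Set Pt) (h : ∀ s ∈ S, det3 a b s ≤ 0) (z : Pt)
    (hz : z ∈ convexHull ℝ S) : det3 a b z ≤ 0 :=
  convexHull_min (fun s hs => h s hs) (convex_det3_nonpos a b) hz

theorem hull_det3_pos (a b : Pt) (S : Set Pt) (h : ∀ s ∈ S, 0 < det3 a b s) (z : Pt)
    (hz : z ∈ convexHull ℝ S) : 0 < det3 a b z :=
  convexHull_min (fun s hs => h s hs) (convex_det3_pos a b) hz

theorem GP.subset {P Q : Finset Pt} (h : GP P) (hQ : Q ⊆ P) : GP Q :=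
  fun a ha b hb c hc => h a (hQ ha) b (hQ hb) c (hQ hc)

theorem GenPos.subset {P Q : Finset Pt} (h : GenPos P) (hQ : Q ⊆ P) : GenPos Q :=
  fun a ha b hb c hc => h a (hQ ha) b (hQ hb) c (hQ hc)

theorem Xd.subset {P Q : Finset Pt} (h : Xd P) (hQ : Q ⊆ P) : Xd Q :=
  fun a ha b hb => h a (hQ ha) b (hQ hb)

theorem mem_VS {P : Finset Pt} {p x y : Pt} : (p, x, y) ∈ VS P ↔
    p ∈ P ∧ x ∈ P ∧ y ∈ P ∧ p.1 < x.1 ∧ p.1 < y.1 ∧ 0 < det3 p x y ∧ ∀ z ∈ P, ¬ InTri p x y z := by
  simp [VS, and_assoc]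

theorem mem_RC {P : Finset Pt} {p x y : Pt} : (p, x, y) ∈ RC P ↔
    (p, x, y) ∈ VS P ∧ ∀ b ∈ P, p.1 < b.1 → 0 < det3 p y b → det3 x y b ≤ 0 := by
  simp [RC]

theorem mem_LC {P : Finset Pt} {p x y : Pt} : (p, x, y) ∈ LC P ↔
    (p, x, y) ∈ VS P ∧ ∀ a ∈ P, p.1 < a.1 → 0 < det3 p a x → det3 x y a ≤ 0 := by
  simp [LC]

theorem mem_RS {P : Finset Pt} {p x y : Pt} : (p, x, y) ∈ RS P ↔
    (p, x, y) ∈ VS P ∧ (∃ b ∈ P, p.1 < b.1 ∧ 0 < det3 p y b ∧ 0 < det3 x y b) ∧
      (∃ a ∈ P, p.1 < a.1 ∧ 0 < det3 p a x ∧ 0 < det3 x y a) := by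
  simp [RS]

theorem mem_strip {Q : Finset Pt} {t c₁ c₂ : ℝ} {z : Pt} : z ∈ strip Q t c₁ c₂ ↔
    z ∈ Q ∧ c₁ ≤ fl t z ∧ fl t z ≤ c₂ := by
  simp [strip]

theorem mem_inner {B S : Finset Pt} {z : Pt} : z ∈ inner B S ↔
    z ∈ B ∧ z ∉ S ∧ z ∈ convexHull ℝ (S : Set Pt) := by
  simp [inner]

end Pool.Agent.Lib.MP_4beb96_co.ET
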