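import Pool.Agent.Lib.MP_4beb96_co.ET.DetAlg

/-!
# board ET, module Extreme

The points of a set in convex position are extreme points of its hull. Let `S' = S \ {s}`. If `S'` is empty then
`convexHull S = {s}`, `U = ∅`. Otherwise `convexHull S = convexJoin {s} (convexHull S')` (`convexHull_insert`), so every `u ∈ U` is
`α s + (1-α) u'` with `u' ∈ convexHull S'` and `α < 1` (as `u ≠ s`).
The set `W = {α s + (1-α) u' : u' ∈ convexHull S', 0 ≤ α < 1}` is convex: for `w_i = α_i s + (1-α_i) u_i`, `λ + μ = 1`, put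
`α = λ α_1 + μ α_2 < 1`; then `λ w_1 + μ w_2 = α s + (1-α) u'` with `u' = (λ(1-α_1) u_1 + μ(1-α_2) u_2)/(1-α) ∈ convexHull S'`.
`s ∉ W`: `s = α s + (1-α) u'` gives `s = u' ∈ convexHull S'`, contradiction to `ConvPos S`. So `convexHull U ⊆ W` does not contain `s`.
(Alternative: `Convex.mem_extremePoints_iff_convex_diff` or a separating functional for `s` and `convexHull S'`.)
-/

set_option autoImplicit false

namespace Pool.Agent.Lib.MP_4beb96_co.ET

open Finset

theorem extreme (S : Finset Pt) (hS : ConvPos S) (s : Pt) (hs : s ∈ S) (U : Set Pt)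
    (hU : U ⊆ convexHull ℝ (S : Set Pt)) (hsU : s ∉ U) : s ∉ convexHull ℝ U := by
  classical
  set K : Set Pt := convexHull ℝ ((S : Set Pt) \ {s}) with hK
  have hsK : s ∉ K := hS s hs
  have hKc : Convex ℝ K := convex_convexHull ℝ _
  -- the convex set W
  set W : Set Pt := {w | ∃ α : ℝ, 0 < α ∧ α ≤ 1 ∧ ∃ u ∈ K, w = (1 - α) • s + α • u} with hW
  have hWc : Convex ℝ W := by
    rintro w₁ ⟨α₁, h1, h1', u₁, hu₁, rfl⟩ w₂ ⟨α₂, h2, h2', u₂, hu₂, rfl⟩ l m hl hm hlm
    have hpos : 0 < l * α₁ + m * α₂ := by
      rcases hl.eq_or_lt with h | h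
      · have : m = 1 := by linarith
        rw [← h, this]; simpa using h2
      · have e1 := mul_pos h h1
        have e2 := mul_nonneg hm h2.le
        linarith
    refine ⟨l * α₁ + m * α₂, hpos, ?_, (l * α₁ / (l * α₁ + m * α₂)) • u₁ +
      (m * α₂ / (l * α₁ + m * α₂)) • u₂, ?_, ?_⟩
    · nlinarith
    · apply hKc hu₁ hu₂
      · positivity
      · positivity
      · rw [← add_div, div_self hpos.ne']
    · have e1 : (l * α₁ + m * α₂) * (l * α₁ / (l * α₁ + m * α₂)) = l * α₁ :=
        mul_div_cancel₀ _ hpos.ne'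
      have e2 : (l * α₁ + m * α₂) * (m * α₂ / (l * α₁ + m * α₂)) = m * α₂ :=
        mul_div_cancel₀ _ hpos.ne'
      have e3 : (l * α₁ + m * α₂) • ((l * α₁ / (l * α₁ + m * α₂)) • u₁ +
          (m * α₂ / (l * α₁ + m * α₂)) • u₂) = (l * α₁) • u₁ + (m * α₂) • u₂ := by
        rw [smul_add, smul_smul, smul_smul, e1, e2]
      rw [e3]
      have hl' : l = 1 - m := by linarith
      rw [hl']
      module
  have hsW : s ∉ W := by
    rintro ⟨α, h1, _, u, hu, he⟩
    apply hsK
    have h3 : α • (u - s) = 0 := by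
      have : s - s = (1 - α) • s + α • u - s := by rw [← he]
      rw [sub_self] at this
      rw [this]
      module
    have h4 : u - s = 0 := (smul_eq_zero.mp h3).resolve_left h1.ne'
    rw [sub_eq_zero] at h4
    rwa [← h4]
  have hUW : U ⊆ W := by
    intro u hu
    have h1 := hU hu
    have h2 : u ≠ s := fun h => hsU (h ▸ hu)
    by_cases hne : ((S : Set Pt) \ {s}).Nonempty
    · have h3 : (S : Set Pt) = insert s ((S : Set Pt) \ {s}) := by
        rw [Set.insert_sdiff_singleton, Set.insert_eq_of_mem (by exact_mod_cast hs)]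
      rw [h3, convexHull_insert hne, mem_convexJoin] at h1
      obtain ⟨x, hx, y, hy, hxy⟩ := h1
      rw [Set.mem_singleton_iff] at hx
      subst hx
      obtain ⟨a, b, ha, hb, hab, rfl⟩ := hxy
      refine ⟨b, ?_, by linarith, y, hy, ?_⟩
      · rcases hb.eq_or_lt with h | h
        · exfalso
          apply h2
          have : a = 1 := by linarith
          rw [← h, this]
          simp
        · exact h
      · have : a = 1 - b := by linarith
        rw [this]
    · exfalso
      rw [Set.not_nonempty_iff_eq_empty] at hne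
      have h3 : (S : Set Pt) = {s} := by
        apply Set.eq_singleton_iff_unique_mem.mpr
        refine ⟨by exact_mod_cast hs, fun x hx => ?_⟩
        by_contra hxs
        have : x ∈ (S : Set Pt) \ {s} := ⟨hx, hxs⟩
        rw [hne] at this
        exact this
      rw [h3, convexHull_singleton] at h1
      exact h2 h1
  exact fun h => hsW (convexHull_min hUW hWc h)

theorem ConvPos.subset {S T : Finset Pt} (hS : ConvPos S) (hT : T ⊆ S) : ConvPos T := by
  intro t ht h
  refine hS t (hT ht) (convexHull_mono ?_ h)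
  intro x hx
  exact ⟨by exact_mod_cast hT (by exact_mod_cast hx.1), hx.2⟩

end Pool.Agent.Lib.MP_4beb96_co.ET
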