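import Pool.Agent.Lib.MP_4beb96_co.ET.TriHull
import Pool.Agent.Lib.MP_4beb96_co.ET.Sort4

/-!
# board ET, module FiveR

Let `p` be the leftmost point of the 5-hole `F` (exists and is unique by `Xd`), `T = F \ {p}`, sorted by slope
around `p`: `a, x, y, b` (`slope_sort4`; `hne` by GP). Then `(p,x,y) ∈ RS P`:
* `0 < det3 p x y`, `p.1 < x.1`, `p.1 < y.1`.
* no `z ∈ P` has `InTri p x y z`: then `z ∈ convexHull {p,x,y} ⊆ convexHull F` (`mem_tri_of_inTri`); if `z ∉ F`
  this contradicts emptiness, if `z ∈ F` then `z ≠ p, x, y` (the corresponding `det3` would be 0), so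
  `{p,x,y} ⊆ F \ {z}` contradicts `ConvPos F`.
* blocker `b`: `0 < det3 p y b`; and `0 < det3 x y b`: it is nonzero by GP; if `det3 x y b < 0` then
  `InTri p x b y`: `0 < det3 p x y`, `det3 x b y = - det3 x y b > 0`, `det3 b p y = det3 p y b > 0`. So
  `y ∈ convexHull {p,x,b} ⊆ convexHull (F \ {y})`, contradiction to `ConvPos`.
* blocker `a`: `0 < det3 p a x`; and `0 < det3 x y a`: if `det3 x y a < 0` then `InTri p a y x`:
  `0 < det3 p a x`, `det3 a y x = - det3 x y a > 0` (`det3 a y x = - det3 a x y = - det3 x y a`),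
  `det3 y p x = det3 p x y > 0`. So `x ∈ convexHull {p,a,y}`, contradiction.
-/

set_option autoImplicit false

namespace Pool.Agent.Lib.MP_4beb96_co.ET

open Finset

theorem pent_RS (P : Finset Pt) (hg : GP P) (hx : Xd P) (F : Finset Pt) (hF : F ∈ emptyPent P) :
    ∃ p ∈ F, ∃ x ∈ F, ∃ y ∈ F, p ≠ x ∧ (p, x, y) ∈ RS P := by
  obtain ⟨hFP, hcard, hconv, hemp⟩ := hF
  have hne : F.Nonempty := by
    rw [← Finset.card_pos]; omega
  obtain ⟨p, hpF, hpmin⟩ := Finset.exists_min_image F (fun z => z.1) hne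
  have hlt : ∀ t ∈ F.erase p, p.1 < t.1 := by
    intro t ht
    have htF := Finset.mem_of_mem_erase ht
    have hne := Finset.ne_of_mem_erase ht
    exact lt_of_le_of_ne (hpmin t htF) (hx p (hFP hpF) t (hFP htF) hne.symm)
  have hT : (F.erase p).card = 4 := by rw [Finset.card_erase_of_mem hpF, hcard]
  have hgp : ∀ u ∈ F.erase p, ∀ v ∈ F.erase p, u ≠ v → det3 p u v ≠ 0 := by
    intro u hu v hv huv
    exact hg p (hFP hpF) u (hFP (Finset.mem_of_mem_erase hu)) v
      (hFP (Finset.mem_of_mem_erase hv)) (Finset.ne_of_mem_erase hu).symm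
      (Finset.ne_of_mem_erase hv).symm huv
  obtain ⟨a, ha, x, hxm, y, hy, b, hb, hax, hay, hab, hxy, hxb, hyb, h1, h2, h3⟩ :=
    slope_sort4 p (F.erase p) hT hlt hgp
  have haF := Finset.mem_of_mem_erase ha
  have hxF := Finset.mem_of_mem_erase hxm
  have hyF := Finset.mem_of_mem_erase hy
  have hbF := Finset.mem_of_mem_erase hb
  have hpa := (Finset.ne_of_mem_erase ha).symm
  have hpx := (Finset.ne_of_mem_erase hxm).symm
  have hpy := (Finset.ne_of_mem_erase hy).symm
  have hpb := (Finset.ne_of_mem_erase hb).symm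
  have key : ∀ u ∈ F, ∀ v ∈ F, ∀ w ∈ F, ∀ z ∈ F, z ≠ u → z ≠ v → z ≠ w →
      ¬ InTri u v w z := by
    intro u hu v hv w hw z hz g1 g2 g3 h
    refine hconv z hz (convexHull_mono ?_ (mem_tri_of_inTri u v w z h))
    intro q hq
    simp only [Set.mem_insert_iff, Set.mem_singleton_iff] at hq
    rcases hq with rfl | rfl | rfl
    · exact ⟨hu, fun hh => g1 (Set.mem_singleton_iff.mp hh).symm⟩
    · exact ⟨hv, fun hh => g2 (Set.mem_singleton_iff.mp hh).symm⟩
    · exact ⟨hw, fun hh => g3 (Set.mem_singleton_iff.mp hh).symm⟩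
  refine ⟨p, hpF, x, hxF, y, hyF, hpx, ?_⟩
  rw [mem_RS, mem_VS]
  refine ⟨⟨hFP hpF, hFP hxF, hFP hyF, hlt x hxm, hlt y hy, h2, ?_⟩, ?_, ?_⟩
  · intro z hz hin
    by_cases hzF : z ∈ F
    · refine key p hpF x hxF y hyF z hzF ?_ ?_ ?_ hin
      · rintro rfl
        have := hin.1
        rw [det3_aba] at this
        exact lt_irrefl _ this
      · rintro rfl
        have := hin.1
        rw [det3_abb] at this
        exact lt_irrefl _ this
      · rintro rfl
        have := hin.2.1
        rw [det3_abb] at this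
        exact lt_irrefl _ this
    · refine hemp z hz hzF (convexHull_mono ?_ (mem_tri_of_inTri p x y z hin))
      intro q hq
      simp only [Set.mem_insert_iff, Set.mem_singleton_iff] at hq
      rcases hq with rfl | rfl | rfl
      · exact hpF
      · exact hxF
      · exact hyF
  · refine ⟨b, hFP hbF, hlt b hb, h3, ?_⟩
    have hn := hg x (hFP hxF) y (hFP hyF) b (hFP hbF) hxy hxb hyb
    rcases lt_or_gt_of_ne hn with h | h
    · exfalso
      refine key p hpF x hxF b hbF y hyF hpy.symm hxy.symm hyb ⟨h2, ?_, ?_⟩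
      · rw [det3_swap]; linarith
      · rw [det3_cyc']; exact h3
    · exact h
  · refine ⟨a, hFP haF, hlt a ha, h1, ?_⟩
    have hn := hg x (hFP hxF) y (hFP hyF) a (hFP haF) hxy hax.symm hay.symm
    rcases lt_or_gt_of_ne hn with h | h
    · exfalso
      refine key p hpF a haF y hyF x hxF hpx.symm hax.symm hxy ⟨h1, ?_, ?_⟩
      · rw [det3_swap]
        have : det3 a x y = det3 x y a := by rw [det3_cyc' x y a]
        linarith
      · rw [det3_cyc']; exact h2
    · exact h

end Pool.Agent.Lib.MP_4beb96_co.ET
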