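import Pool.Agent.Lib.MP_4beb96_co.ET.Defs

/-!
# board ET, module FrostE

For a fixed `a ∈ Q`: let `B = {b ∈ Q : b ≠ a, dist a b < δ}`. For `b ∈ B` there is a `k : ℕ` with `2^{-k-1} δ ≤ dist a b < 2^{-k} δ` (exists since
`0 < dist a b < δ`), so `1/dist a b ≤ 2^{k+1}/δ`. Let `k₀` be larger than all these `k`. Then
`Σ_{b ∈ B} 1/dist a b ≤ Σ_{k < k₀} (2^{k+1}/δ) #{b : dist a b ≤ 2^{-k} δ} ≤ Σ_k (2^{k+1}/δ) M (2^{-k} δ)^s = 2 M δ^{s-1} Σ_k (2^{-(s-1)})^k
≤ 2 M δ^{s-1}/(1 - 2^{-(s-1)})`. Put `c = 2/(1 - 2^{-(s-1)})`. Sum over `a ∈ Q` (the ordered pairs `e ∈ Q.offDiag` with `e.1 = a`), and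
`min |Q| x ≤ x`.
-/

set_option autoImplicit false

namespace Pool.Agent.Lib.MP_4beb96_co.ET

open Finset

theorem frost_energy (s : ℝ) (hs : 1 < s) : ∃ c : ℝ, 0 < c ∧ ∀ (M : ℝ) (Q : Finset (ℝ × ℝ)),
    (∀ a ∈ Q, ∀ r : ℝ, 0 < r → ((Q.filter (fun b => b ≠ a ∧ dist a b ≤ r)).card : ℝ) ≤ M * r ^ s) →
    ∀ δ : ℝ, 0 < δ → δ ≤ 1 → energy δ Q ≤ c * M * Q.card * δ ^ (s - 1) := by
  classical
  set q : ℝ := (1 / 2 : ℝ) ^ (s - 1) with hqdef
  have hq1 : q < 1 := Real.rpow_lt_one (by norm_num) (by norm_num) (by linarith)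
  have hq0 : 0 < q := Real.rpow_pos_of_pos (by norm_num) _
  have hc : 0 < 2 / (1 - q) := div_pos two_pos (by linarith)
  refine ⟨2 / (1 - q), hc, ?_⟩
  intro M Q hM δ hδ hδ1
  have key : ∀ a ∈ Q, ∑ b ∈ Q.filter (fun b => b ≠ a ∧ dist a b < δ), min (Q.card : ℝ) (1 / dist a b)
      ≤ 2 / (1 - q) * M * δ ^ (s - 1) := by
    intro a ha
    have hM0 : 0 ≤ M := by
      have h1 := hM a ha 1 one_pos
      rw [Real.one_rpow, mul_one] at h1
      exact le_trans (Nat.cast_nonneg _) h1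
    have hk : ∀ b ∈ Q.filter (fun b => b ≠ a ∧ dist a b < δ),
        ∃ k : ℕ, dist a b ≤ (1 / 2 : ℝ) ^ k * δ ∧ 1 / dist a b ≤ 2 ^ (k + 1) / δ := by
      intro b hb
      rw [Finset.mem_filter] at hb
      have hd : 0 < dist a b := dist_pos.2 (Ne.symm hb.2.1)
      have hx0 : 0 < dist a b / δ := div_pos hd hδ
      have hx1 : dist a b / δ ≤ 1 := (div_le_one hδ).2 hb.2.2.le
      obtain ⟨k, h1, h2⟩ := exists_nat_pow_near_of_lt_one hx0 hx1 (by norm_num : (0 : ℝ) < 1 / 2)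
        (by norm_num : (1 / 2 : ℝ) < 1)
      refine ⟨k, (div_le_iff₀ hδ).1 h2, ?_⟩
      have h3 : (1 / 2 : ℝ) ^ (k + 1) * δ < dist a b := (lt_div_iff₀ hδ).1 h1
      have h4 : (0 : ℝ) < (1 / 2) ^ (k + 1) * δ := by positivity
      calc 1 / dist a b ≤ 1 / ((1 / 2 : ℝ) ^ (k + 1) * δ) := one_div_le_one_div_of_le h4 h3.le
        _ = 2 ^ (k + 1) / δ := by
          rw [one_div_pow]
          field_simp
    choose! k hk1 hk2 using hk
    set B := Q.filter (fun b => b ≠ a ∧ dist a b < δ) with hB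
    set K := B.sup k + 1 with hK
    have h1 : ∀ b ∈ B, min (Q.card : ℝ) (1 / dist a b) ≤
        ∑ m ∈ Finset.range K, if dist a b ≤ (1 / 2 : ℝ) ^ m * δ then (2 : ℝ) ^ (m + 1) / δ else 0 := by
      intro b hb
      refine le_trans (min_le_right _ _) (le_trans (hk2 b hb) ?_)
      have hmem : k b ∈ Finset.range K := Finset.mem_range.2 (Nat.lt_succ_of_le (Finset.le_sup hb))
      have h2 := Finset.single_le_sum (s := Finset.range K)
        (f := fun m => if dist a b ≤ (1 / 2 : ℝ) ^ m * δ then (2 : ℝ) ^ (m + 1) / δ else 0)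
        (fun m _ => by
          split_ifs
          · positivity
          · exact le_rfl) hmem
      refine le_trans (le_of_eq ?_) h2
      simp only [hk1 b hb, if_true]
    have h2 : ∀ m : ℕ, ∑ b ∈ B, (if dist a b ≤ (1 / 2 : ℝ) ^ m * δ then (2 : ℝ) ^ (m + 1) / δ else 0) ≤
        2 * M * δ ^ (s - 1) * q ^ m := by
      intro m
      have hr : (0 : ℝ) < (1 / 2) ^ m * δ := by positivity
      rw [← Finset.sum_filter, Finset.sum_const, nsmul_eq_mul]
      have h3 : ((B.filter (fun b => dist a b ≤ (1 / 2 : ℝ) ^ m * δ)).card : ℝ) ≤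
          M * ((1 / 2 : ℝ) ^ m * δ) ^ s := by
        refine le_trans ?_ (hM a ha _ hr)
        refine Nat.cast_le.2 (Finset.card_le_card ?_)
        intro b hb
        rw [hB, Finset.mem_filter, Finset.mem_filter] at hb
        exact Finset.mem_filter.2 ⟨hb.1.1, hb.1.2.1, hb.2⟩
      have h4 : ((1 / 2 : ℝ) ^ m * δ) ^ s = (q * (1 / 2)) ^ m * (δ ^ (s - 1) * δ) := by
        rw [Real.mul_rpow (by positivity) hδ.le]
        have e1 : ((1 / 2 : ℝ) ^ m) ^ s = (q * (1 / 2)) ^ m := by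
          have e2 : q * (1 / 2) = (1 / 2 : ℝ) ^ s := by
            rw [hqdef, Real.rpow_sub_one (by norm_num)]
            norm_num
          rw [e2, ← Real.rpow_natCast, ← Real.rpow_natCast, ← Real.rpow_mul (by norm_num),
            ← Real.rpow_mul (by norm_num), mul_comm]
        have e3 : δ ^ s = δ ^ (s - 1) * δ := by
          rw [Real.rpow_sub_one hδ.ne']
          field_simp
        rw [e1, e3]
      calc ((B.filter (fun b => dist a b ≤ (1 / 2 : ℝ) ^ m * δ)).card : ℝ) * ((2 : ℝ) ^ (m + 1) / δ)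
          ≤ (M * ((1 / 2 : ℝ) ^ m * δ) ^ s) * ((2 : ℝ) ^ (m + 1) / δ) :=
            mul_le_mul_of_nonneg_right h3 (by positivity)
        _ = 2 * M * δ ^ (s - 1) * q ^ m := by
            rw [h4, mul_pow, one_div_pow, pow_succ]
            field_simp
    calc ∑ b ∈ B, min (Q.card : ℝ) (1 / dist a b)
        ≤ ∑ b ∈ B, ∑ m ∈ Finset.range K,
          (if dist a b ≤ (1 / 2 : ℝ) ^ m * δ then (2 : ℝ) ^ (m + 1) / δ else 0) :=
          Finset.sum_le_sum h1
      _ = ∑ m ∈ Finset.range K, ∑ b ∈ B,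
          (if dist a b ≤ (1 / 2 : ℝ) ^ m * δ then (2 : ℝ) ^ (m + 1) / δ else 0) := Finset.sum_comm
      _ ≤ ∑ m ∈ Finset.range K, 2 * M * δ ^ (s - 1) * q ^ m := Finset.sum_le_sum (fun m _ => h2 m)
      _ = 2 * M * δ ^ (s - 1) * ∑ m ∈ Finset.range K, q ^ m := by rw [Finset.mul_sum]
      _ ≤ 2 * M * δ ^ (s - 1) * (1 - q)⁻¹ := by
          refine mul_le_mul_of_nonneg_left ?_ (by positivity)
          rw [← tsum_geometric_of_lt_one hq0.le hq1]
          exact (summable_geometric_of_lt_one hq0.le hq1).sum_le_tsum _ (fun m _ => by positivity)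
      _ = 2 / (1 - q) * M * δ ^ (s - 1) := by
          rw [div_eq_mul_inv]
          ring
  have h1 : Q.offDiag.filter (fun e => dist e.1 e.2 < δ) =
      (Q ×ˢ Q).filter (fun e => e.2 ≠ e.1 ∧ dist e.1 e.2 < δ) := by
    ext e
    simp only [Finset.mem_filter, Finset.mem_offDiag, Finset.mem_product]
    constructor
    · rintro ⟨⟨h1, h2, h3⟩, h4⟩
      exact ⟨⟨h1, h2⟩, Ne.symm h3, h4⟩
    · rintro ⟨⟨h1, h2⟩, h3, h4⟩
      exact ⟨⟨h1, h2, Ne.symm h3⟩, h4⟩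
  have h2 : energy δ Q = ∑ a ∈ Q, ∑ b ∈ Q.filter (fun b => b ≠ a ∧ dist a b < δ),
      min (Q.card : ℝ) (1 / dist a b) := by
    unfold energy
    have h3 : (Q.offDiag.filter (fun e => dist e.1 e.2 < δ)) =
      (Q ×ˢ Q).filter (fun e => e.2 ≠ e.1 ∧ dist e.1 e.2 < δ) := h1
    calc _ = ∑ e ∈ (Q ×ˢ Q).filter (fun e => e.2 ≠ e.1 ∧ dist e.1 e.2 < δ),
          min (Q.card : ℝ) (1 / dist e.1 e.2) := by
          refine Finset.sum_congr ?_ (fun _ _ => rfl)
          rw [← h3]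
      _ = _ := by
        rw [Finset.sum_filter, Finset.sum_product]
        refine Finset.sum_congr rfl (fun a _ => ?_)
        rw [Finset.sum_filter]
  rw [h2]
  calc _ ≤ ∑ a ∈ Q, 2 / (1 - q) * M * δ ^ (s - 1) := Finset.sum_le_sum key
    _ = 2 / (1 - q) * M * Q.card * δ ^ (s - 1) := by
      rw [Finset.sum_const, nsmul_eq_mul]
      ring

end Pool.Agent.Lib.MP_4beb96_co.ET
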