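import Pool.Agent.Lib.MP_4beb96_co.ET.DetAlg

/-!
# board ET, module Hcnt

Let `(p,x,y) ∈ H = RC P ∩ LC P`. Claim 1: for all `z ∈ P` with `p.1 < z.1`, `z ≠ x`, `z ≠ y`:
`det3 x y z < 0`. Indeed `det3 p y z ≠ 0`, `det3 p x z ≠ 0`, `det3 x y z ≠ 0` by GP. If
`det3 p y z > 0`: RC. If `det3 p x z < 0`, i.e. `0 < det3 p z x`: LC. Otherwise `0 < det3 p x z` and
`0 < det3 y p z` (`det3 y p z = - det3 p y z`); if `0 < det3 x y z` then `InTri p x y z`, impossible.
Claim 2: for given `(x,y)` there is at most one `p` with `(p,x,y) ∈ H`: if `p.1 < p'.1` are two such points then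
`p'` is right of `p`, `p' ≠ x,y`, so `det3 x y p' < 0` by claim 1, but `det3 x y p' = det3 p' x y > 0`.
(`p.1 = p'.1` with `p ≠ p'` is excluded by `Xd`.)
Claim 3: let `q` be the one of `x, y` with smaller first coordinate (`x.1 ≠ y.1` by `Xd`), `r` the other one.
All `z ∈ P` right of `q` are right of `p`. If `q = x` then `det3 q r z < 0` for all `z ∈ P`,
`q.1 < z.1`, `z ≠ r`; such an `r` is unique for given `q` (for `r ≠ r'` we would have `det3 q r r' < 0` and
`det3 q r' r < 0`). If `q = y` then `det3 q r z = - det3 x y z > 0` for all these `z`; such an `r` is unique too.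
So the map `H → P × Bool`, `(p,x,y) ↦ (q, decide (x.1 < y.1))` is injective and `|H| ≤ 2 |P|`.
-/

set_option autoImplicit false

namespace Pool.Agent.Lib.MP_4beb96_co.ET

open Finset

/-- Claim 1 -/
theorem H_neg {P : Finset Pt} (hg : GP P) {p x y z : Pt} (h1 : (p, x, y) ∈ RC P)
    (h2 : (p, x, y) ∈ LC P) (hz : z ∈ P) (hpz : p.1 < z.1) (hzx : z ≠ x) (hzy : z ≠ y) :
    det3 x y z < 0 := by
  obtain ⟨hV, hR⟩ := mem_RC.mp h1
  obtain ⟨-, hL⟩ := mem_LC.mp h2
  obtain ⟨hp, hx, hy, hpx, hpy, hd, he⟩ := mem_VS.mp hV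
  have nxy : x ≠ y := by
    rintro rfl
    rw [det3_abb] at hd
    exact lt_irrefl _ hd
  have npx : p ≠ x := fun h => by rw [h] at hpx; exact lt_irrefl _ hpx
  have npy : p ≠ y := fun h => by rw [h] at hpy; exact lt_irrefl _ hpy
  have npz : p ≠ z := fun h => by rw [h] at hpz; exact lt_irrefl _ hpz
  by_contra hcon
  push Not at hcon
  have g1 : 0 < det3 x y z := lt_of_le_of_ne hcon (Ne.symm (hg x hx y hy z hz nxy hzx.symm hzy.symm))
  have g2 : det3 p y z < 0 := by
    refine lt_of_le_of_ne ?_ (hg p hp y hy z hz npy npz hzy.symm)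
    by_contra h
    push Not at h
    exact absurd (hR z hz hpz h) (not_le.mpr g1)
  have g3 : 0 < det3 p x z := by
    refine lt_of_le_of_ne ?_ (Ne.symm (hg p hp x hx z hz npx npz hzx.symm))
    by_contra h
    push Not at h
    refine absurd (hL z hz hpz ?_) (not_le.mpr g1)
    rw [det3_swap]
    linarith
  refine he z hz ⟨g3, g1, ?_⟩
  rw [det3_swap']
  linarith

/-- Claim 2 -/
theorem H_uniq {P : Finset Pt} (hg : GP P) (hX : Xd P) {p p' x y : Pt} (h1 : (p, x, y) ∈ RC P)
    (h2 : (p, x, y) ∈ LC P) (h1' : (p', x, y) ∈ RC P) (h2' : (p', x, y) ∈ LC P) : p = p' := by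
  have key : ∀ p p' : Pt, (p, x, y) ∈ RC P → (p, x, y) ∈ LC P → (p', x, y) ∈ RC P →
      (p', x, y) ∈ LC P → ¬ p.1 < p'.1 := by
    intro p p' h1 h2 h1' h2' hlt
    obtain ⟨hp', hx, hy, hpx, hpy, hd, -⟩ := mem_VS.mp (mem_RC.mp h1').1
    have := H_neg hg h1 h2 hp' hlt (fun h => by rw [h] at hpx; exact lt_irrefl _ hpx)
      (fun h => by rw [h] at hpy; exact lt_irrefl _ hpy)
    rw [det3_cyc] at this
    linarith
  by_contra hne
  have hp := (mem_VS.mp (mem_RC.mp h1).1).1
  have hp' := (mem_VS.mp (mem_RC.mp h1').1).1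
  rcases lt_or_gt_of_ne (hX p hp p' hp' hne) with h | h
  · exact key p p' h1 h2 h1' h2' h
  · exact key p' p h1' h2' h1 h2 h

open Classical in
theorem H_count (P : Finset Pt) (hg : GP P) (hx : Xd P) : (RC P ∩ LC P).card ≤ 2 * P.card := by
  have hcard : (P ×ˢ (univ : Finset Bool)).card = 2 * P.card := by
    rw [Finset.card_product, Finset.card_univ, Fintype.card_bool, mul_comm]
  rw [← hcard]
  refine Finset.card_le_card_of_injOn
    (fun t : Pt × Pt × Pt => (if t.2.1.1 < t.2.2.1 then t.2.1 else t.2.2,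
      decide (t.2.1.1 < t.2.2.1))) ?_ ?_
  · rintro ⟨p, x, y⟩ ht
    obtain ⟨h1, -⟩ := Finset.mem_inter.mp (Finset.mem_coe.mp ht)
    obtain ⟨-, hx', hy', -⟩ := mem_VS.mp (mem_RC.mp h1).1
    refine Finset.mem_coe.mpr (Finset.mem_product.mpr ⟨?_, Finset.mem_univ _⟩)
    change (if x.1 < y.1 then x else y) ∈ P
    split_ifs
    · exact hx'
    · exact hy'
  · rintro ⟨p, x, y⟩ ht ⟨p', x', y'⟩ ht' heq
    obtain ⟨h1, h2⟩ := Finset.mem_inter.mp (Finset.mem_coe.mp ht)
    obtain ⟨h1', h2'⟩ := Finset.mem_inter.mp (Finset.mem_coe.mp ht')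
    obtain ⟨hp, hxP, hyP, hpx, hpy, hd, -⟩ := mem_VS.mp (mem_RC.mp h1).1
    obtain ⟨hp', hxP', hyP', hpx', hpy', hd', -⟩ := mem_VS.mp (mem_RC.mp h1').1
    have nxy : x ≠ y := by
      rintro rfl
      rw [det3_abb] at hd
      exact lt_irrefl _ hd
    have nxy' : x' ≠ y' := by
      rintro rfl
      rw [det3_abb] at hd'
      exact lt_irrefl _ hd'
    have e1 : (if x.1 < y.1 then x else y) = (if x'.1 < y'.1 then x' else y') :=
      congrArg Prod.fst heq
    have e2 : decide (x.1 < y.1) = decide (x'.1 < y'.1) := congrArg Prod.snd heq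
    by_cases hc : x.1 < y.1
    · have hc' : x'.1 < y'.1 := by
        rw [decide_eq_true hc] at e2
        exact of_decide_eq_true e2.symm
      rw [if_pos hc, if_pos hc'] at e1
      subst e1
      have hyy : y = y' := by
        by_contra hne
        have a1 := H_neg hg h1 h2 hyP' (by linarith) nxy'.symm (Ne.symm hne)
        have a2 := H_neg hg h1' h2' hyP (by linarith) nxy.symm hne
        rw [det3_swap] at a2
        linarith
      subst hyy
      rw [H_uniq hg hx h1 h2 h1' h2']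
    · have hc' : ¬ x'.1 < y'.1 := by
        rw [decide_eq_false hc] at e2
        exact of_decide_eq_false e2.symm
      rw [if_neg hc, if_neg hc'] at e1
      subst e1
      have hlt : y.1 < x.1 := lt_of_le_of_ne (not_lt.mp hc) (hx y hyP x hxP nxy.symm)
      have hlt' : y.1 < x'.1 := lt_of_le_of_ne (not_lt.mp hc') (hx y hyP x' hxP' nxy'.symm)
      have hxx : x = x' := by
        by_contra hne
        have a1 := H_neg hg h1 h2 hxP' (by linarith) (Ne.symm hne) nxy'
        have a2 := H_neg hg h1' h2' hxP (by linarith) hne nxy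
        have a3 : det3 x' y x = - det3 x y x' := by unfold det3; ring
        rw [a3] at a2
        linarith
      subst hxx
      rw [H_uniq hg hx h1 h2 h1' h2']

end Pool.Agent.Lib.MP_4beb96_co.ET
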