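import Pool.Agent.Lib.MP_4beb96_co.ET.RCcnt

/-!
# board ET, module LCcnt

Reflection: let `σ z = (z.1, - z.2)` and `P' = P.image σ`. Then `det3 (σ a) (σ b) (σ c) = - det3 a b c`,
`GP P'`, `Xd P'`, `|P'| = |P|`, and `(p,x,y) ↦ (σ p, σ y, σ x)` maps `RC P'` injectively into `LC P`
(`σ σ = id`): for `(p,x,y) ∈ RC P'` we have `det3 (σ p) (σ y) (σ x) = - det3 p y x = det3 p x y > 0`;
`InTri (σ p) (σ y) (σ x) (σ z) ↔ InTri p x y z` (up to a cyclic permutation of the three conditions);
a point `a = σ b ∈ P` with `0 < det3 (σ p) a (σ y)` satisfies `0 < det3 p y b`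
(`det3 (σ p) (σ b) (σ y) = - det3 p b y = det3 p y b`), so `det3 x y b ≤ 0` and
`det3 (σ y) (σ x) (σ b) = - det3 y x b = det3 x y b ≤ 0`.
So `|RC P'| ≤ |LC P|` and `RC_count P'` gives the claim.
-/

set_option autoImplicit false

namespace Pool.Agent.Lib.MP_4beb96_co.ET

open Finset

/-- the reflection -/
private def sg (z : Pt) : Pt := (z.1, -z.2)

private theorem sg_sg (z : Pt) : sg (sg z) = z := by
  simp [sg]

private theorem sg_inj : Function.Injective sg := fun a b h => by
  rw [← sg_sg a, ← sg_sg b, h]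

private theorem sg_fst (z : Pt) : (sg z).1 = z.1 := rfl

private theorem det3_sg (a b c : Pt) : det3 (sg a) (sg b) (sg c) = - det3 a b c := by
  simp only [det3, sg]
  ring

private theorem lc_swap (a b c : Pt) : det3 a c b = - det3 a b c := by
  simp only [det3]
  ring

private theorem lc_swap' (a b c : Pt) : det3 b a c = - det3 a b c := by
  simp only [det3]
  ring

theorem LC_count (P : Finset Pt) (hg : GP P) (hx : Xd P) :
    P.card ^ 2 ≤ 2 * (LC P).card + 3 * P.card := by
  classical
  set P' : Finset Pt := P.image sg with hP'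
  have hcard : P'.card = P.card := card_image_of_injective P sg_inj
  have hmem : ∀ z, z ∈ P' → sg z ∈ P := by
    intro z hz
    obtain ⟨w, hw, rfl⟩ := mem_image.mp hz
    rwa [sg_sg]
  have hmem' : ∀ z, z ∈ P → sg z ∈ P' := fun z hz => mem_image_of_mem sg hz
  have hg' : GP P' := by
    intro a ha b hb c hc hab hac hbc h0
    have h1 := hg (sg a) (hmem a ha) (sg b) (hmem b hb) (sg c) (hmem c hc)
      (fun h => hab (sg_inj h)) (fun h => hac (sg_inj h)) (fun h => hbc (sg_inj h))
    exact h1 (by rw [det3_sg, h0, neg_zero])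
  have hx' : Xd P' := by
    intro a ha b hb hab h0
    exact hx (sg a) (hmem a ha) (sg b) (hmem b hb) (fun h => hab (sg_inj h)) h0
  have h := RC_count P' hg' hx'
  rw [hcard] at h
  have hle : (RC P').card ≤ (LC P).card := by
    refine card_le_card_of_injOn (fun t => (sg t.1, sg t.2.2, sg t.2.1)) ?_ ?_
    · rintro ⟨p, x, y⟩ ht
      simp only [RC, VS, mem_coe, mem_filter, mem_product] at ht
      obtain ⟨⟨⟨hp, hxx, hyy⟩, hpx, hpy, hdet, hemp⟩, hblk⟩ := ht
      simp only [LC, VS, mem_coe, mem_filter, mem_product]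
      refine ⟨⟨⟨hmem p hp, hmem y hyy, hmem x hxx⟩, hpy, hpx, ?_, ?_⟩, ?_⟩
      · rw [det3_sg, lc_swap, neg_neg]
        exact hdet
      · intro z hz hin
        obtain ⟨h1, h2, h3⟩ := hin
        rw [← sg_sg z, det3_sg] at h1 h2 h3
        refine hemp (sg z) (hmem' z hz) ⟨?_, ?_, ?_⟩
        · rw [lc_swap' x p]
          exact h3
        · rw [lc_swap' y x]
          exact h2
        · rw [lc_swap' p y]
          exact h1
      · intro a ha h1 h2
        have h3 : 0 < det3 p y (sg a) := by
          rw [← sg_sg a, det3_sg, lc_swap, neg_neg] at h2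
          exact h2
        have h4 := hblk (sg a) (hmem' a ha) h1 h3
        rw [← sg_sg a, det3_sg, lc_swap', neg_neg]
        exact h4
    · rintro ⟨p, x, y⟩ _ ⟨p', x', y'⟩ _ heq
      simp only [Prod.mk.injEq] at heq
      obtain ⟨h1, h2, h3⟩ := heq
      rw [sg_inj h1, sg_inj h2, sg_inj h3]
  omega

end Pool.Agent.Lib.MP_4beb96_co.ET
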