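import Pool.Agent.Lib.MP_4beb96_co.ET.DetAlg

/-!
# board ET, module PairCnt

Let `n = |P|`. The pairs `(p,x)` with `p.1 < x.1` are `n(n-1)/2` in number (by `Xd` exactly one of
`(p,x)`, `(x,p)` is counted, for `p ≠ x`; so `|P.offDiag| = n^2 - n = 2 *` this number, by the
swap bijection). Those for which no `y` exists: for each `p` at most one `x`: if `x ≠ x'` both are
right of `p` then `det3 p x x' ≠ 0` by GP; if it is positive then `y = x'` works for `x`; if it is
negative then `det3 p x' x > 0` and `y = x` works for `x'`. So at most `n` pairs are lost: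
`2 * count ≥ n^2 - n - 2 n`.
-/

set_option autoImplicit false

namespace Pool.Agent.Lib.MP_4beb96_co.ET

open Finset

open Classical in
theorem pair_count (P : Finset Pt) (hg : GP P) (hx : Xd P) :
    P.card ^ 2 ≤ 2 * ((P ×ˢ P).filter (fun t => t.1.1 < t.2.1 ∧
      ∃ y ∈ P, t.1.1 < y.1 ∧ 0 < det3 t.1 t.2 y)).card + 3 * P.card := by
  set G := (P ×ˢ P).filter (fun t => t.1.1 < t.2.1 ∧ ∃ y ∈ P, t.1.1 < y.1 ∧ 0 < det3 t.1 t.2 y) with hG
  set L := (P ×ˢ P).filter (fun t => t.1.1 < t.2.1 ∧ ¬ ∃ y ∈ P, t.1.1 < y.1 ∧ 0 < det3 t.1 t.2 y) with hL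
  set A := (P ×ˢ P).filter (fun t => t.1.1 < t.2.1) with hA
  set B := (P ×ˢ P).filter (fun t => t.2.1 < t.1.1) with hB
  have h1 : A.card = G.card + L.card := by
    have e1 : G = A.filter (fun t => ∃ y ∈ P, t.1.1 < y.1 ∧ 0 < det3 t.1 t.2 y) := by
      rw [hG, hA, filter_filter]
    have e2 : L = A.filter (fun t => ¬ ∃ y ∈ P, t.1.1 < y.1 ∧ 0 < det3 t.1 t.2 y) := by
      rw [hL, hA, filter_filter]
    rw [e1, e2, card_filter_add_card_filter_not]
  have h2 : L.card ≤ P.card := by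
    refine card_le_card_of_injOn (fun t => t.1) (fun t ht => ?_) ?_
    · have ht' : t ∈ L := ht
      rw [hL, mem_filter, mem_product] at ht'
      exact ht'.1.1
    · rintro ⟨p, x⟩ ht ⟨p', x'⟩ ht' hpp
      have hpp' : p = p' := hpp
      subst hpp'
      have h3 : (p, x) ∈ L := ht
      have h4 : (p, x') ∈ L := ht'
      rw [hL, mem_filter, mem_product] at h3 h4
      obtain ⟨⟨hp, hxP⟩, hpx, hn⟩ := h3
      obtain ⟨⟨_, hxP'⟩, hpx', hn'⟩ := h4
      simp only at hp hxP hpx hn hxP' hpx' hn'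
      by_contra hne
      have hxx : x ≠ x' := fun h => hne (by rw [h])
      have hpx1 : p ≠ x := fun h => absurd hpx (by rw [h]; exact lt_irrefl _)
      have hpx2 : p ≠ x' := fun h => absurd hpx' (by rw [h]; exact lt_irrefl _)
      have hd : det3 p x x' ≠ 0 := hg p hp x hxP x' hxP' hpx1 hpx2 hxx
      rcases lt_or_gt_of_ne hd with h5 | h5
      · apply hn'
        refine ⟨x, hxP, hpx, ?_⟩
        rw [det3_swap]
        linarith
      · exact hn ⟨x', hxP', hpx', h5⟩
  have h3 : B.card = A.card := by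
    refine card_bij (fun t _ => (t.2, t.1)) ?_ ?_ ?_
    · rintro ⟨p, x⟩ ht
      rw [hB, mem_filter, mem_product] at ht
      rw [hA, mem_filter, mem_product]
      exact ⟨⟨ht.1.2, ht.1.1⟩, ht.2⟩
    · rintro ⟨p, x⟩ _ ⟨p', x'⟩ _ h
      simp only [Prod.mk.injEq] at h
      exact Prod.ext h.2 h.1
    · rintro ⟨p, x⟩ ht
      rw [hA, mem_filter, mem_product] at ht
      refine ⟨(x, p), ?_, rfl⟩
      rw [hB, mem_filter, mem_product]
      exact ⟨⟨ht.1.2, ht.1.1⟩, ht.2⟩
  have h4 : P ×ˢ P ⊆ P.diag ∪ (A ∪ B) := by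
    rintro ⟨p, x⟩ ht
    rw [mem_product] at ht
    rw [mem_union, mem_union, hA, hB, mem_filter, mem_filter, mem_product]
    by_cases hpx : p = x
    · left
      exact mem_diag.2 ⟨ht.1, hpx⟩
    · right
      rcases lt_or_gt_of_ne (hx p ht.1 x ht.2 hpx) with h | h
      · exact Or.inl ⟨ht, h⟩
      · exact Or.inr ⟨ht, h⟩
  have h5 : P.card ^ 2 ≤ P.card + (A.card + B.card) := by
    calc P.card ^ 2 = (P ×ˢ P).card := by rw [card_product, sq]
      _ ≤ (P.diag ∪ (A ∪ B)).card := card_le_card h4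
      _ ≤ P.diag.card + (A ∪ B).card := card_union_le _ _
      _ ≤ P.card + (A.card + B.card) := by
        rw [diag_card]
        exact Nat.add_le_add_left (card_union_le _ _) _
  omega

end Pool.Agent.Lib.MP_4beb96_co.ET
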