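import Pool.Agent.Lib.MP_4beb96_co.ET.RCpair
import Pool.Agent.Lib.MP_4beb96_co.ET.PairCnt

/-!
# board ET, module RCcnt

Immediate from `RC_ge` and `pair_count`.
-/

set_option autoImplicit false

namespace Pool.Agent.Lib.MP_4beb96_co.ET

open Finset

theorem RC_count (P : Finset Pt) (hg : GP P) (hx : Xd P) :
    P.card ^ 2 ≤ 2 * (RC P).card + 3 * P.card := by
  classical
  have h1 := RC_ge P hg
  have h2 := pair_count P hg hx
  have h3 : ((P ×ˢ P).filter (fun t => t.1.1 < t.2.1 ∧ ∃ y ∈ P, t.1.1 < y.1 ∧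
      0 < det3 t.1 t.2 y)).card ≤ (RC P).card := by
    convert h1
  have h4 : P.card ^ 2 ≤ 2 * ((P ×ˢ P).filter (fun t => t.1.1 < t.2.1 ∧ ∃ y ∈ P, t.1.1 < y.1 ∧
      0 < det3 t.1 t.2 y)).card + 3 * P.card := by
    convert h2
  omega

end Pool.Agent.Lib.MP_4beb96_co.ET
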