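import Pool.Agent.Lib.MP_4beb96_co.ET.VX
import Pool.Agent.Lib.MP_4beb96_co.ET.RCcnt
import Pool.Agent.Lib.MP_4beb96_co.ET.LCcnt
import Pool.Agent.Lib.MP_4beb96_co.ET.Hcnt

/-!
# board ET, module Garcia

`VS P ⊆ (RC P ∪ LC P) ∪ RS P`-decomposition: `RS P = VS P \ (RC P ∪ LC P)` (by definition, `not_le`),
so `|VS P| = |RC P| + |LC P| - |RC P ∩ LC P| + |RS P|`. With `RC_count`, `LC_count`, `H_count`:
`|VS P| + 2 n ≥ n^2 - 3 n + |RS P|`, and `VS_card_le`.
-/

set_option autoImplicit false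

namespace Pool.Agent.Lib.MP_4beb96_co.ET

open Finset

theorem garcia (P : Finset Pt) (hg : GP P) (hx : Xd P) :
    P.card ^ 2 + (RS P).card ≤ (emptyTri P).ncard + 5 * P.card := by
  classical
  have h1 := RC_count P hg hx
  have h2 := LC_count P hg hx
  have h3 := H_count P hg hx
  have h4 := VS_card_le P hg
  have h5 : (RC P ∪ LC P).card + (RC P ∩ LC P).card = (RC P).card + (LC P).card :=
    Finset.card_union_add_card_inter _ _
  have h6 : Disjoint (RC P ∪ LC P) (RS P) := by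
    rw [Finset.disjoint_left]
    rintro ⟨p, x, y⟩ hu hr
    rw [mem_RS] at hr
    obtain ⟨_, ⟨b, hb, hb1, hb2, hb3⟩, ⟨a, ha, ha1, ha2, ha3⟩⟩ := hr
    rw [Finset.mem_union, mem_RC, mem_LC] at hu
    rcases hu with hu | hu
    · exact absurd (hu.2 b hb hb1 hb2) (not_le.mpr hb3)
    · exact absurd (hu.2 a ha ha1 ha2) (not_le.mpr ha3)
  have h7 : (RC P ∪ LC P) ∪ RS P ⊆ VS P := by
    rintro ⟨p, x, y⟩ h
    rw [Finset.mem_union, Finset.mem_union, mem_RC, mem_LC, mem_RS] at h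
    rcases h with (h | h) | h
    · exact h.1
    · exact h.1
    · exact h.1
  have h8 := Finset.card_le_card h7
  rw [Finset.card_union_of_disjoint h6] at h8
  have h9 : (RC P ∩ LC P).card ≤ 2 * P.card := by
    convert h3
  omega

end Pool.Agent.Lib.MP_4beb96_co.ET
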