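import Pool.Agent.Lib.MP_4beb96_co.ET.Collin
import Pool.Agent.Lib.MP_4beb96_co.ET.Garcia
import Pool.Agent.Lib.MP_4beb96_co.ET.FiveR
import Pool.Agent.Lib.MP_4beb96_co.ET.Shear
import Pool.Agent.Lib.MP_4beb96_co.ET.AffInv

/-!
# board ET, module GarPent

Choose `L` with `Xd (P.image L)` (`exists_shear`), `P' = P.image L`, `GP P'` (`genPos_image`, `genPos_iff_gp`). Let `D`
be the image of `RS P'` under `(p,x,y) ↦ (L.symm p, L.symm x)`. Then `|D| ≤ |RS P'|`, `|P'| = |P|`,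
`garcia P'`, `emptyTri_image`. For `F ∈ emptyPent P`: `F.image L ∈ emptyPent P'` (`pent_image`), `pent_RS` gives
`p, x ∈ F.image L`, `p ≠ x`, `(p,x,y) ∈ RS P'`; take `L.symm p, L.symm x ∈ F`.
-/

set_option autoImplicit false

namespace Pool.Agent.Lib.MP_4beb96_co.ET

open Finset

theorem garcia_pent (P : Finset Pt) (hP : GenPos P) :
    ∃ D : Finset (Pt × Pt), P.card ^ 2 + D.card ≤ (emptyTri P).ncard + 5 * P.card ∧
      ∀ F ∈ emptyPent P, ∃ p ∈ F, ∃ x ∈ F, p ≠ x ∧ (p, x) ∈ D := by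
  classical
  obtain ⟨L, hL⟩ := exists_shear P
  have hg : GP (P.image L) := (genPos_iff_gp _).mp (genPos_image P L hP)
  refine ⟨(RS (P.image L)).image (fun t => (L.symm t.1, L.symm t.2.1)), ?_, ?_⟩
  · have h1 := garcia (P.image L) hg hL
    have h2 : (P.image L).card = P.card := Finset.card_image_of_injective _ L.injective
    have h3 := emptyTri_image P L
    have h4 : ((RS (P.image L)).image (fun t => (L.symm t.1, L.symm t.2.1))).card ≤
        (RS (P.image L)).card := Finset.card_image_le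
    rw [h2, h3] at h1
    omega
  · intro F hF
    obtain ⟨p, hp, x, hxx, y, hy, hpx, hR⟩ := pent_RS (P.image L) hg hL (F.image L)
      (pent_image P L F hF)
    obtain ⟨p₀, hp₀, rfl⟩ := Finset.mem_image.mp hp
    obtain ⟨x₀, hx₀, rfl⟩ := Finset.mem_image.mp hxx
    refine ⟨p₀, hp₀, x₀, hx₀, fun h => hpx (by rw [h]), ?_⟩
    refine Finset.mem_image.mpr ⟨(L p₀, L x₀, y), hR, ?_⟩
    simp

end Pool.Agent.Lib.MP_4beb96_co.ET
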