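import Pool.Agent.Lib.MP_4beb96_co.ET.Extreme

/-!
# board ET, module NewConv

`(1)` Let `0 < det3 a b t` for all `t ∈ T`, `a ≠ b`. Then `a ∉ convexHull ({b} ∪ T)`: if `T = ∅` clear; otherwise by
`convexHull_insert` `a = α b + (1-α) t'` with `t' ∈ convexHull T`, and `0 = det3 a b a = α det3 a b b + (1-α) det3 a b t'
= (1-α) det3 a b t'` with `det3 a b t' > 0` (`hull_det3_pos`), so `α = 1` and `a = b`. In the same way `b ∉ convexHull ({a} ∪ T)`.
`(2)` `insert a (insert b T)` is in convex position: for `a` and `b` by (1) (note `a, b ∉ T` since `det3 a b a = det3 a b b = 0`);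
for `t ∈ T ⊆ S` by `extreme` with `U = {a,b} ∪ T \ {t} ⊆ convexHull S` (`t ≠ a, b`).
-/

set_option autoImplicit false

namespace Pool.Agent.Lib.MP_4beb96_co.ET

open Finset

private theorem nmhl_aux (a b u w : Pt) (huw : u ≠ w) (hu : det3 a b u = 0) (hw : det3 a b w = 0)
    (T : Set Pt) (hT : ∀ t ∈ T, 0 < det3 a b t) : u ∉ convexHull ℝ (insert w T) := by
  intro h
  by_cases hne : T.Nonempty
  · rw [convexHull_insert hne, mem_convexJoin] at h
    obtain ⟨x, hx, y, hy, hxy⟩ := h
    rw [Set.mem_singleton_iff] at hx
    subst hx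
    obtain ⟨p, q, hp, hq, hpq, he⟩ := hxy
    have h1 := det3_comb a b x y p q hpq
    rw [he, hu, hw, mul_zero, zero_add] at h1
    have h2 : 0 < det3 a b y := hull_det3_pos a b T hT y hy
    have h3 : q = 0 := by
      rcases mul_eq_zero.mp h1.symm with h | h
      · exact h
      · exact absurd h h2.ne'
    have h4 : p = 1 := by linarith
    rw [h3, h4] at he
    simp at he
    exact huw he.symm
  · rw [Set.not_nonempty_iff_eq_empty] at hne
    rw [hne] at h
    simp at h
    exact huw h

theorem not_mem_hull_line (a b : Pt) (hab : a ≠ b) (T : Set Pt) (hT : ∀ t ∈ T, 0 < det3 a b t) :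
    a ∉ convexHull ℝ (insert b T) ∧ b ∉ convexHull ℝ (insert a T) :=
  ⟨nmhl_aux a b a b hab (det3_aba a b) (det3_abb a b) T hT,
    nmhl_aux a b b a hab.symm (det3_abb a b) (det3_aba a b) T hT⟩

theorem new_convPos (S : Finset Pt) (hS : ConvPos S) (a b : Pt)
    (ha : a ∈ convexHull ℝ (S : Set Pt)) (hb : b ∈ convexHull ℝ (S : Set Pt)) (hab : a ≠ b)
    (T : Finset Pt) (hT : T ⊆ S) (hpos : ∀ t ∈ T, 0 < det3 a b t) :
    ConvPos (insert a (insert b T)) ∧ (insert a (insert b T)).card = T.card + 2 := by
  classical
  have haT : a ∉ T := fun h => by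
    have := hpos a h
    rw [det3_aba] at this
    exact lt_irrefl _ this
  have hbT : b ∉ T := fun h => by
    have := hpos b h
    rw [det3_abb] at this
    exact lt_irrefl _ this
  have hline := not_mem_hull_line a b hab (T : Set Pt) (fun t ht => hpos t (by exact_mod_cast ht))
  constructor
  · intro t ht
    rw [Finset.mem_insert, Finset.mem_insert] at ht
    rcases ht with rfl | rfl | ht
    · intro h
      apply hline.1
      refine convexHull_mono ?_ h
      intro x hx
      have hx1 := hx.1
      have hx2 : x ≠ t := hx.2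
      rw [Finset.coe_insert, Finset.coe_insert] at hx1
      rcases hx1 with h1 | h1
      · exact absurd h1 hx2
      · exact h1
    · intro h
      apply hline.2
      refine convexHull_mono ?_ h
      intro x hx
      have hx1 := hx.1
      have hx2 : x ≠ t := hx.2
      rw [Finset.coe_insert, Finset.coe_insert] at hx1
      rcases hx1 with h1 | h1 | h1
      · exact Or.inl h1
      · exact absurd h1 hx2
      · exact Or.inr h1
    · refine extreme S hS t (hT ht) _ ?_ (fun h => h.2 rfl)
      intro x hx
      have hx1 := hx.1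
      rw [Finset.coe_insert, Finset.coe_insert] at hx1
      rcases hx1 with h1 | h1 | h1
      · rw [h1]; exact ha
      · rw [h1]; exact hb
      · exact subset_convexHull ℝ _ (by exact_mod_cast hT (by exact_mod_cast h1))
  · rw [Finset.card_insert_of_notMem, Finset.card_insert_of_notMem hbT]
    rw [Finset.mem_insert]
    rintro (h | h)
    · exact hab h
    · exact haT h

end Pool.Agent.Lib.MP_4beb96_co.ET
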