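import Pool.Agent.Lib.MP_4beb96_co.ET.NewConv

/-!
# board ET, module NewPent

`F = insert a (insert b T)`. `F ⊆ B`, `|F| = 5` and `ConvPos F` by `new_convPos`. Empty: let `z ∈ B`, `z ∉ F`, `z ∈ convexHull F`.
As `F ⊆ convexHull S`, `z ∈ convexHull S`. If `z ∈ S`: `extreme` with `U = F` gives `z ∉ convexHull F`. If `z ∉ S` then `z ∈ inner B S`,
`z ≠ a, b`, so `det3 a b z < 0` by `hneg`, but `0 ≤ det3 a b` on `F`, hence on `convexHull F` (`hull_det3_nonneg`).
-/

set_option autoImplicit false

namespace Pool.Agent.Lib.MP_4beb96_co.ET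

open Finset

theorem new_pent (B S T : Finset Pt) (a b : Pt) (hSB : S ⊆ B) (hS : ConvPos S) (hT : T ⊆ S)
    (hT3 : T.card = 3) (haB : a ∈ B) (hbB : b ∈ B) (ha : a ∈ convexHull ℝ (S : Set Pt))
    (hb : b ∈ convexHull ℝ (S : Set Pt)) (hab : a ≠ b) (hpos : ∀ t ∈ T, 0 < det3 a b t)
    (hneg : ∀ z ∈ inner B S, z ≠ a → z ≠ b → det3 a b z < 0) :
    insert a (insert b T) ∈ emptyPent B := by
  classical
  obtain ⟨h1, h2⟩ := new_convPos S hS a b ha hb hab T hT hpos
  have hFS : ((insert a (insert b T) : Finset Pt) : Set Pt) ⊆ convexHull ℝ (S : Set Pt) := by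
    intro x hx
    rw [Finset.coe_insert, Finset.coe_insert] at hx
    rcases hx with h | h | h
    · rw [h]; exact ha
    · rw [h]; exact hb
    · exact subset_convexHull ℝ _ (by exact_mod_cast hT (by exact_mod_cast h))
  refine ⟨?_, by rw [h2, hT3], h1, ?_⟩
  · intro x hx
    rw [Finset.mem_insert, Finset.mem_insert] at hx
    rcases hx with rfl | rfl | h
    · exact haB
    · exact hbB
    · exact hSB (hT h)
  · intro z hz hzF hzc
    have hzS : z ∈ convexHull ℝ (S : Set Pt) := by
      have := convexHull_mono hFS hzc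
      rwa [(convex_convexHull ℝ (S : Set Pt)).convexHull_eq] at this
    by_cases hzs : z ∈ S
    · exact extreme S hS z hzs _ hFS (by exact_mod_cast hzF) hzc
    · have hzi : z ∈ inner B S := mem_inner.mpr ⟨hz, hzs, hzS⟩
      have hza : z ≠ a := fun h => hzF (by rw [h]; exact Finset.mem_insert_self _ _)
      have hzb : z ≠ b := fun h => hzF (by
        rw [h]; exact Finset.mem_insert_of_mem (Finset.mem_insert_self _ _))
      have h3 := hneg z hzi hza hzb
      have h4 : 0 ≤ det3 a b z := by
        refine hull_det3_nonneg a b _ ?_ z hzc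
        intro x hx
        rw [Finset.coe_insert, Finset.coe_insert] at hx
        rcases hx with h | h | h
        · rw [h, det3_aba]
        · rw [h, det3_abb]
        · exact (hpos x (by exact_mod_cast h)).le
      linarith

end Pool.Agent.Lib.MP_4beb96_co.ET
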