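import Pool.Agent.Lib.MP_4beb96_co.ET.Defs

/-!
# board ET, module PackBall

If `r < d` there is no `b ≠ a` with `dist a b ≤ r`, the left side is 0. If `r ≥ d`: map `b` to the pair of integers
`(⌊(b.1 - (a.1 - r))/d⌋, ⌊(b.2 - (a.2 - r))/d⌋)`. The values are in `{0,...,⌊2r/d⌋}²`, and the map is injective on the points of `Q` in the
square (two points with the same value have distance `< d`). So the number is at most `(2r/d + 1)² ≤ (3r/d)² ≤ 16 (r/d)²`.
-/

set_option autoImplicit false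

namespace Pool.Agent.Lib.MP_4beb96_co.ET

open Finset

private theorem floor_close_PackBall {d x y c : ℝ} (hd : 0 < d) (hx : c ≤ x) (hy : c ≤ y)
    (h : ⌊(x - c) / d⌋₊ = ⌊(y - c) / d⌋₊) : |x - y| < d := by
  have hx1 := Nat.floor_le (div_nonneg (sub_nonneg.mpr hx) hd.le)
  have hx2 := Nat.lt_floor_add_one ((x - c) / d)
  have hy1 := Nat.floor_le (div_nonneg (sub_nonneg.mpr hy) hd.le)
  have hy2 := Nat.lt_floor_add_one ((y - c) / d)
  rw [h] at hx1 hx2
  rw [le_div_iff₀ hd] at hx1 hy1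
  rw [div_lt_iff₀ hd] at hx2 hy2
  rw [abs_lt]
  constructor
  · nlinarith
  · nlinarith

theorem pack_ball (Q : Finset Pt) (d : ℝ) (hd : 0 < d)
    (hQ : ∀ a ∈ Q, ∀ b ∈ Q, a ≠ b → d ≤ dist a b) (a : Pt) (ha : a ∈ Q) (r : ℝ) (hr : 0 ≤ r) :
    ((Q.filter (fun b => b ≠ a ∧ dist a b ≤ r)).card : ℝ) ≤ 16 * (r / d) ^ 2 := by
  rcases lt_or_ge r d with hrd | hrd
  · have h0 : Q.filter (fun b => b ≠ a ∧ dist a b ≤ r) = ∅ := by
      apply Finset.filter_false_of_mem
      rintro b hb ⟨h1, h2⟩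
      have := hQ a ha b hb h1.symm
      linarith
    rw [h0, Finset.card_empty, Nat.cast_zero]
    positivity
  · set S := Q.filter (fun b => b ≠ a ∧ dist a b ≤ r) with hS
    set N := ⌊2 * r / d⌋₊ with hN
    have hmem : ∀ b ∈ S, b ∈ Q ∧ |a.1 - b.1| ≤ r ∧ |a.2 - b.2| ≤ r := by
      intro b hb
      rw [hS, Finset.mem_filter] at hb
      have h1 := hb.2.2
      rw [Prod.dist_eq, Real.dist_eq, Real.dist_eq] at h1
      exact ⟨hb.1, (le_max_left _ _).trans h1, (le_max_right _ _).trans h1⟩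
    have hcoord : ∀ x y : ℝ, |x - y| ≤ r → x - r ≤ y ∧ ⌊(y - (x - r)) / d⌋₊ < N + 1 := by
      intro x y h
      have h1 := abs_le.mp h
      refine ⟨by linarith [h1.2], ?_⟩
      rw [Nat.lt_succ_iff]
      apply Nat.floor_le_floor
      apply div_le_div_of_nonneg_right _ hd.le
      linarith [h1.1]
    let f : Pt → ℕ × ℕ := fun b => (⌊(b.1 - (a.1 - r)) / d⌋₊, ⌊(b.2 - (a.2 - r)) / d⌋₊)
    have hmaps : ∀ b ∈ S, f b ∈ Finset.range (N + 1) ×ˢ Finset.range (N + 1) := by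
      intro b hb
      obtain ⟨-, h1, h2⟩ := hmem b hb
      rw [Finset.mem_product, Finset.mem_range, Finset.mem_range]
      exact ⟨(hcoord _ _ h1).2, (hcoord _ _ h2).2⟩
    have hinj : Set.InjOn f (S : Set Pt) := by
      intro b hb c hc hbc
      obtain ⟨hbQ, b1, b2⟩ := hmem b hb
      obtain ⟨hcQ, c1, c2⟩ := hmem c hc
      by_contra hne
      have h1 := hQ b hbQ c hcQ hne
      have h2 : ⌊(b.1 - (a.1 - r)) / d⌋₊ = ⌊(c.1 - (a.1 - r)) / d⌋₊ := congrArg Prod.fst hbc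
      have h3 : ⌊(b.2 - (a.2 - r)) / d⌋₊ = ⌊(c.2 - (a.2 - r)) / d⌋₊ := congrArg Prod.snd hbc
      have h4 := floor_close_PackBall hd (hcoord _ _ b1).1 (hcoord _ _ c1).1 h2
      have h5 := floor_close_PackBall hd (hcoord _ _ b2).1 (hcoord _ _ c2).1 h3
      rw [Prod.dist_eq, Real.dist_eq, Real.dist_eq] at h1
      have h6 := max_lt h4 h5
      linarith
    have hcard := Finset.card_le_card_of_injOn f hmaps hinj
    rw [Finset.card_product, Finset.card_range] at hcard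
    have hN1 : (N : ℝ) ≤ 2 * r / d := Nat.floor_le (by positivity)
    have hrd1 : 1 ≤ r / d := by
      rw [le_div_iff₀ hd]
      linarith
    have h7 : (S.card : ℝ) ≤ ((N : ℝ) + 1) * ((N : ℝ) + 1) := by exact_mod_cast hcard
    have h8 : (N : ℝ) + 1 ≤ 3 * (r / d) := by
      have : 2 * r / d = 2 * (r / d) := by ring
      rw [this] at hN1
      linarith
    have h9 : (0 : ℝ) ≤ N := Nat.cast_nonneg N
    nlinarith

end Pool.Agent.Lib.MP_4beb96_co.ET
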