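import Pool.Agent.Lib.MP_4beb96_co.ET.DetAlg

/-!
# board ET, module RCpair

For `p, x ∈ P`, `p.1 < x.1`, let `S = {y ∈ P : p.1 < y.1, 0 < det3 p x y}`, assume `S ≠ ∅`.
Choose `y ∈ S` which is last in the order `z <' z' ↔ 0 < det3 x z z'` (this is a strict total order
on `S`: all points of `S` are on the positive side of the line `p x`; transitivity: the identity
`det3 x p z' * det3 x u w = det3 x p u * det3 x z' w + det3 x p w * det3 x u z'`
(check with ring) and `det3 x p z = - det3 p x z < 0` for `z ∈ S`; total by GP). So for all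
`z ∈ S`, `z ≠ y`: `det3 x y z < 0`. (Alternatively choose `y` by maximizing over the finite set `S` the
quotient `(det3-part along the line)/(distance to the line)`: e.g. with `L z = ((z.1-x.1)(x.1-p.1) + (z.2-x.2)(x.2-p.2))`
minimize `L z / det3 p x z`.)
Then `(p,x,y) ∈ RC P`: if `z ∈ P` and `InTri p x y z` then `p.1 < z.1` (z is in the triangle; e.g. from
the identity of `det3_bary`, first coordinate), `0 < det3 p x z`, so `z ∈ S`, `z ≠ y`
(`det3 x y y = 0`), but `0 < det3 x y z`: contradiction. If `b ∈ P`, `p.1 < b.1`, `0 < det3 p y b` then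
`0 < det3 p x b` (`det3_trans`), so `b ∈ S` and `det3 x y b < 0` or `b = y`.
Conclusion: the number of pairs `(p,x)` with `S ≠ ∅` is at most `|RC P|` (the map
`(p,x,y) ↦ (p,x)` from `RC P` hits them all).
-/

set_option autoImplicit false

namespace Pool.Agent.Lib.MP_4beb96_co.ET

open Finset

theorem rc_ident (p x y z : Pt) :
    ((x.1 - p.1) ^ 2 + (x.2 - p.2) ^ 2) * det3 x y z =
      ((y.1 - x.1) * (x.1 - p.1) + (y.2 - x.2) * (x.2 - p.2)) * det3 p x z -
      ((z.1 - x.1) * (x.1 - p.1) + (z.2 - x.2) * (x.2 - p.2)) * det3 p x y := by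
  unfold det3; ring

theorem rc_left (p x y z : Pt) (hx : p.1 < x.1) (hy : p.1 < y.1) (h : InTri p x y z) :
    p.1 < z.1 := by
  obtain ⟨h1, h2, h3⟩ := h
  have hsum := det3_sum p x y z
  have hb : det3 p x y * z.1 = det3 x y z * p.1 + det3 y p z * x.1 + det3 p x z * y.1 := by
    unfold det3; ring
  have hpos : 0 < det3 p x y := by linarith
  have h4 : det3 p x y * (z.1 - p.1) = det3 y p z * (x.1 - p.1) + det3 p x z * (y.1 - p.1) := by
    have : det3 p x y * (z.1 - p.1) = det3 p x y * z.1 - det3 p x y * p.1 := by ring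
    rw [this, hb, ← hsum]; ring
  have h5 : 0 < det3 y p z * (x.1 - p.1) := mul_pos h3 (by linarith)
  have h6 : 0 < det3 p x z * (y.1 - p.1) := mul_pos h1 (by linarith)
  have h7 : 0 < det3 p x y * (z.1 - p.1) := by linarith
  have h8 : 0 < z.1 - p.1 := (pos_iff_pos_of_mul_pos h7).mp hpos
  linarith

theorem exists_RC (P : Finset Pt) (hg : GP P) (p x y₀ : Pt) (hp : p ∈ P) (hx : x ∈ P)
    (hpx : p.1 < x.1) (hy₀ : y₀ ∈ P) (hpy : p.1 < y₀.1) (hd : 0 < det3 p x y₀) :
    ∃ y, (p, x, y) ∈ RC P := by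
  classical
  obtain ⟨y, hyS, hymin⟩ := Finset.exists_min_image
    (P.filter (fun z => p.1 < z.1 ∧ 0 < det3 p x z))
    (fun z => ((z.1 - x.1) * (x.1 - p.1) + (z.2 - x.2) * (x.2 - p.2)) / det3 p x z)
    ⟨y₀, by simp [hy₀, hpy, hd]⟩
  simp only [Finset.mem_filter] at hyS hymin
  obtain ⟨hyP, hy1, hy2⟩ := hyS
  have hN : 0 < (x.1 - p.1) ^ 2 + (x.2 - p.2) ^ 2 := by
    have : 0 < (x.1 - p.1) ^ 2 := by
      have : 0 < x.1 - p.1 := by linarith
      positivity
    have := sq_nonneg (x.2 - p.2)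
    linarith
  have key : ∀ z ∈ P, p.1 < z.1 → 0 < det3 p x z → det3 x y z ≤ 0 := by
    intro z hz hz1 hz2
    have h := hymin z ⟨hz, hz1, hz2⟩
    rw [div_le_div_iff₀ hy2 hz2] at h
    have hid := rc_ident p x y z
    by_contra hcon
    push Not at hcon
    have := mul_pos hN hcon
    linarith
  refine ⟨y, ?_⟩
  rw [mem_RC, mem_VS]
  refine ⟨⟨hp, hx, hyP, hpx, hy1, hy2, ?_⟩, ?_⟩
  · intro z hz hin
    have h1 := rc_left p x y z hpx hy1 hin
    obtain ⟨h2, h3, h4⟩ := hin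
    have := key z hz h1 h2
    linarith
  · intro b hb hpb hyb
    exact key b hb hpb (det3_trans p x y b hpx hy1 hpb hy2 hyb)

open Classical in
theorem RC_ge (P : Finset Pt) (hg : GP P) :
    ((P ×ˢ P).filter (fun t => t.1.1 < t.2.1 ∧ ∃ y ∈ P, t.1.1 < y.1 ∧ 0 < det3 t.1 t.2 y)).card
      ≤ (RC P).card := by
  apply Finset.card_le_card_of_surjOn (fun t : Pt × Pt × Pt => (t.1, t.2.1))
  rintro ⟨p, x⟩ ht
  simp only [Finset.coe_filter, Finset.mem_product, Set.mem_setOf_eq] at ht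
  obtain ⟨⟨hp, hx⟩, hpx, y₀, hy₀, hpy, hd⟩ := ht
  obtain ⟨y, hy⟩ := exists_RC P hg p x y₀ hp hx hpx hy₀ hpy hd
  exact ⟨(p, x, y), hy, rfl⟩

end Pool.Agent.Lib.MP_4beb96_co.ET
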