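import Pool.Agent.Lib.MP_4beb96_co.ET.Defs

/-!
# board ET, module Rich

Let `Z` be the set of the `z ∈ Q` with fewer than `K` points `y ∈ Q` with `f z ≤ f y ≤ f z + w`. Map `z ∈ Z` to
`k(z) = ⌊(f z + 1)/w⌋₊`, which is at most `⌊2/w⌋₊`. All `z` in a nonempty fibre of `k` are in the set of the `y` with
`f z₀ ≤ f y ≤ f z₀ + w`, where `z₀` is the element of the fibre with the smallest value of `f` (same `k` implies difference `< w`), so a
fibre has less than `K` elements. Hence `|Z| ≤ K (⌊2/w⌋₊ + 1) ≤ K (2/w + 1)` (`Finset.card_le_mul_card_image`).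
-/

set_option autoImplicit false

namespace Pool.Agent.Lib.MP_4beb96_co.ET

open Finset

theorem poor_card (Q : Finset Pt) (f : Pt → ℝ) (hf : ∀ z ∈ Q, -1 ≤ f z ∧ f z ≤ 1) (w : ℝ)
    (hw : 0 < w) (K : ℕ) (hK : 1 ≤ K) :
    ((Q.filter (fun z => (Q.filter (fun y => f z ≤ f y ∧ f y ≤ f z + w)).card < K)).card : ℝ)
      ≤ K * (2 / w + 1) := by
  set Z := Q.filter (fun z => (Q.filter (fun y => f z ≤ f y ∧ f y ≤ f z + w)).card < K) with hZ
  let k : Pt → ℕ := fun z => ⌊(f z + 1) / w⌋₊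
  have h1 : Z.card ≤ K * (Z.image k).card := by
    apply Finset.card_le_mul_card_image
    intro a _
    rcases (Z.filter (fun x => k x = a)).eq_empty_or_nonempty with h | h
    · rw [h, Finset.card_empty]
      exact Nat.zero_le _
    obtain ⟨z0, hz0, hmin⟩ := Finset.exists_min_image _ f h
    have hz0' := Finset.mem_filter.1 hz0
    have hz0Q := Finset.mem_filter.1 hz0'.1
    refine le_trans (Finset.card_le_card ?_) hz0Q.2.le
    intro z hz
    have hz' := Finset.mem_filter.1 hz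
    have hzQ := Finset.mem_filter.1 hz'.1
    refine Finset.mem_filter.2 ⟨hzQ.1, hmin z hz, ?_⟩
    have e1 : (f z + 1) / w < (k z : ℝ) + 1 := Nat.lt_floor_add_one _
    have e2 : (k z0 : ℝ) ≤ (f z0 + 1) / w :=
      Nat.floor_le (div_nonneg (by have := (hf z0 hz0Q.1).1; linarith) hw.le)
    have e3 : (k z : ℝ) = (k z0 : ℝ) := by rw [hz'.2, hz0'.2]
    rw [e3] at e1
    have e4 : (f z + 1) / w < (f z0 + 1) / w + 1 := by linarith
    rw [div_add_one hw.ne', div_lt_div_iff_of_pos_right hw] at e4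
    linarith
  have h2 : (Z.image k).card ≤ ⌊2 / w⌋₊ + 1 := by
    rw [← Finset.card_range (⌊2 / w⌋₊ + 1)]
    apply Finset.card_le_card
    intro a ha
    obtain ⟨z, hz, rfl⟩ := Finset.mem_image.1 ha
    have hzQ := Finset.mem_filter.1 hz
    rw [Finset.mem_range]
    apply Nat.lt_succ_of_le
    apply Nat.floor_le_floor
    apply div_le_div_of_nonneg_right _ hw.le
    have := (hf z hzQ.1).2
    linarith
  have h3 : ((⌊2 / w⌋₊ : ℕ) : ℝ) ≤ 2 / w := Nat.floor_le (by positivity)
  calc (Z.card : ℝ) ≤ ((K * (Z.image k).card : ℕ) : ℝ) := by exact_mod_cast h1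
    _ = (K : ℝ) * ((Z.image k).card : ℝ) := by push_cast; ring
    _ ≤ K * (2 / w + 1) := by
        apply mul_le_mul_of_nonneg_left _ (Nat.cast_nonneg K)
        have : ((Z.image k).card : ℝ) ≤ ((⌊2 / w⌋₊ + 1 : ℕ) : ℝ) := by exact_mod_cast h2
        push_cast at this
        linarith

end Pool.Agent.Lib.MP_4beb96_co.ET
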