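import Pool.Agent.Lib.MP_4beb96_co.ET.AffInv

/-!
# board ET, module Scale

For a finite nonempty set `Q` with `dist a b ≤ D` there is a scaling-translation `L z = (z - z₀)/D`, `z₀ = (min first coordinate, min second
coordinate of Q)`, which maps `Q` into `[0,1]²`. `L` as an affine equivalence, e.g.
`(AffineEquiv.constVAdd ..).trans (LinearEquiv.smulOfUnit ..).toAffineEquiv`, or `AffineEquiv.mk` by hand. In the max norm
`dist (L a) (L b) = dist a b / D`.
-/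

set_option autoImplicit false

namespace Pool.Agent.Lib.MP_4beb96_co.ET

open Finset

theorem exists_scale (Q : Finset Pt) (hne : Q.Nonempty) (D : ℝ) (hD : 0 < D)
    (hQ : ∀ a ∈ Q, ∀ b ∈ Q, dist a b ≤ D) :
    ∃ L : Pt ≃ᵃ[ℝ] Pt, (∀ a b, dist (L a) (L b) = dist a b / D) ∧
      ∀ q ∈ Q, L q ∈ Set.Icc (0 : ℝ × ℝ) 1 := by
  obtain ⟨u, hu, hu'⟩ := Q.exists_min_image (fun q : Pt => q.1) hne
  obtain ⟨v, hv, hv'⟩ := Q.exists_min_image (fun q : Pt => q.2) hne
  set z₀ : Pt := (u.1, v.2) with hz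
  have hDn : D⁻¹ ≠ 0 := inv_ne_zero hD.ne'
  let e : Pt ≃ₗ[ℝ] Pt := LinearEquiv.smulOfNeZero ℝ Pt D⁻¹ hDn
  let L : Pt ≃ᵃ[ℝ] Pt := (AffineEquiv.constVAdd ℝ Pt (-z₀)).trans e.toAffineEquiv
  have hL : ∀ z, L z = D⁻¹ • (-z₀ + z) := by
    intro z
    rfl
  refine ⟨L, ?_, ?_⟩
  · intro a b
    rw [hL, hL, dist_smul₀, dist_add_left, Real.norm_eq_abs, abs_of_pos (inv_pos.2 hD)]
    field_simp
  · intro q hq
    have h1 : u.1 ≤ q.1 := hu' q hq
    have h2 : v.2 ≤ q.2 := hv' q hq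
    have h3 : q.1 - u.1 ≤ D := by
      have h := hQ q hq u hu
      rw [Prod.dist_eq] at h
      have h' := (le_max_left _ _).trans h
      rw [Real.dist_eq] at h'
      exact (le_abs_self _).trans h'
    have h4 : q.2 - v.2 ≤ D := by
      have h := hQ q hq v hv
      rw [Prod.dist_eq] at h
      have h' := (le_max_right _ _).trans h
      rw [Real.dist_eq] at h'
      exact (le_abs_self _).trans h'
    have e1 : (L q).1 = D⁻¹ * (q.1 - u.1) := by
      rw [hL]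
      simp only [Prod.smul_fst, Prod.fst_add, Prod.fst_neg, smul_eq_mul, hz]
      ring
    have e2 : (L q).2 = D⁻¹ * (q.2 - v.2) := by
      rw [hL]
      simp only [Prod.smul_snd, Prod.snd_add, Prod.snd_neg, smul_eq_mul, hz]
      ring
    have key : ∀ t : ℝ, 0 ≤ t → t ≤ D → 0 ≤ D⁻¹ * t ∧ D⁻¹ * t ≤ 1 := by
      intro t h0 ht
      refine ⟨mul_nonneg (inv_nonneg.2 hD.le) h0, ?_⟩
      rw [inv_mul_le_iff₀ hD]
      linarith
    have k1 := key _ (sub_nonneg.2 h1) h3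
    have k2 := key _ (sub_nonneg.2 h2) h4
    rw [Set.mem_Icc, Prod.le_def, Prod.le_def]
    refine ⟨⟨?_, ?_⟩, ⟨?_, ?_⟩⟩
    · rw [e1]; exact k1.1
    · rw [e2]; exact k2.1
    · rw [e1]; exact k1.2
    · rw [e2]; exact k2.2

end Pool.Agent.Lib.MP_4beb96_co.ET
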