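import Pool.Agent.Lib.MP_4beb96_co.ET.NewPent

/-!
# board ET, module Step01

`step0`: remove any point `s` from `S`: `F = S.erase s` has 5 points, is in convex position (`ConvPos.subset`); if `z ∈ B`, `z ∉ F`,
`z ∈ convexHull F ⊆ convexHull S` then `z ∈ S` (as `inner B S = ∅`), so `z = s`, but `s ∉ convexHull (S \ {s})`.
`step1`: let `inner B S = {a}`; choose `b ∈ S`. For the 5 points `t ∈ S \ {b}` we have `det3 a b t ≠ 0` (GP; `a ∉ S`). So at least 3
of them have `det3 a b t > 0`, or at least 3 have `det3 a b t < 0`, i.e. `0 < det3 b a t`. Choose a 3-subset `T` of these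
(`Finset.exists_subset_card_eq`) and apply `new_pent` with `(a,b)` or `(b,a)`; `hneg` is vacuous as `inner B S = {a}`.
-/

set_option autoImplicit false

namespace Pool.Agent.Lib.MP_4beb96_co.ET

open Finset

theorem step0 (B S : Finset Pt) (hSB : S ⊆ B) (hS : ConvPos S) (h6 : S.card = 6)
    (h0 : inner B S = ∅) : (emptyPent B).Nonempty := by
  obtain ⟨s, hs⟩ : S.Nonempty := by
    rw [← Finset.card_pos]
    omega
  refine ⟨S.erase s, (Finset.erase_subset s S).trans hSB, ?_, ?_, ?_⟩
  · rw [Finset.card_erase_of_mem hs, h6]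
  · exact ConvPos.subset hS (Finset.erase_subset s S)
  · intro p hp hpF hpH
    have hcoe : ((S.erase s : Finset Pt) : Set Pt) = (S : Set Pt) \ {s} := Finset.coe_erase s S
    by_cases hpS : p ∈ S
    · have hps : p = s := by
        by_contra hne
        exact hpF (Finset.mem_erase.2 ⟨hne, hpS⟩)
      rw [hps, hcoe] at hpH
      exact hS s hs hpH
    · have h1 : p ∈ inner B S := by
        rw [mem_inner]
        refine ⟨hp, hpS, ?_⟩
        refine convexHull_mono ?_ hpH
        rw [hcoe]
        exact Set.diff_subset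
      rw [h0] at h1
      exact absurd h1 (Finset.notMem_empty p)

theorem step1 (B S : Finset Pt) (hg : GP B) (hSB : S ⊆ B) (hS : ConvPos S) (h6 : S.card = 6)
    (h1 : (inner B S).card = 1) : (emptyPent B).Nonempty := by
  classical
  obtain ⟨a, ha⟩ := Finset.card_eq_one.1 h1
  have haI : a ∈ inner B S := by
    rw [ha]
    exact Finset.mem_singleton_self a
  obtain ⟨haB, haS, haH⟩ := mem_inner.1 haI
  obtain ⟨b, hb⟩ : S.Nonempty := by
    rw [← Finset.card_pos]
    omega
  have hbB : b ∈ B := hSB hb
  have hbH : b ∈ convexHull ℝ (S : Set Pt) := subset_convexHull ℝ _ hb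
  have hab : a ≠ b := by
    intro h
    rw [h] at haS
    exact haS hb
  have hdet : ∀ t ∈ S.erase b, det3 a b t ≠ 0 := by
    intro t ht
    obtain ⟨htb, htS⟩ := Finset.mem_erase.1 ht
    refine hg a haB b hbB t (hSB htS) hab ?_ (Ne.symm htb)
    intro h
    rw [h] at haS
    exact haS htS
  have hc5 : (S.erase b).card = 5 := by
    rw [Finset.card_erase_of_mem hb, h6]
  have hsum := Finset.card_filter_add_card_filter_not (s := S.erase b) (fun t => 0 < det3 a b t)
  rw [hc5] at hsum
  rcases Nat.lt_or_ge ((S.erase b).filter (fun t => 0 < det3 a b t)).card 3 with h3 | h3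
  · have h4 : 3 ≤ ((S.erase b).filter (fun t => ¬ 0 < det3 a b t)).card := by omega
    obtain ⟨T, hT, hT3⟩ := Finset.exists_subset_card_eq h4
    refine ⟨_, new_pent B S T b a hSB hS ?_ hT3 hbB haB hbH haH (Ne.symm hab) ?_ ?_⟩
    · intro t ht
      exact Finset.mem_of_mem_erase (Finset.mem_filter.1 (hT ht)).1
    · intro t ht
      obtain ⟨h5, h6'⟩ := Finset.mem_filter.1 (hT ht)
      have h7 := hdet t h5
      rw [det3_swap']
      have h8 : det3 a b t < 0 := lt_of_le_of_ne (not_lt.1 h6') h7
      linarith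
    · intro z hz _ hza
      rw [ha, Finset.mem_singleton] at hz
      exact absurd hz hza
  · obtain ⟨T, hT, hT3⟩ := Finset.exists_subset_card_eq h3
    refine ⟨_, new_pent B S T a b hSB hS ?_ hT3 haB hbB haH hbH hab ?_ ?_⟩
    · intro t ht
      exact Finset.mem_of_mem_erase (Finset.mem_filter.1 (hT ht)).1
    · intro t ht
      exact (Finset.mem_filter.1 (hT ht)).2
    · intro z hz hza _
      rw [ha, Finset.mem_singleton] at hz
      exact absurd hz hza

end Pool.Agent.Lib.MP_4beb96_co.ET
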