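import Pool.Agent.Lib.MP_4beb96_co.ET.GarPent
import Pool.Agent.Lib.MP_4beb96_co.ET.BlockPent
import Pool.Agent.Lib.MP_4beb96_co.ET.Count

/-!
# board ET, module ThmA

`K = 2^16 + 1`, `η = 1/(132 K²)`, `N = 4K`. Put `P₁ = P.image L` (`GenPos` by `genPos_image`), `Q = P₁ ∩ C`. For `D : Finset (Pt × Pt)` with the property
that every `F ∈ emptyPent P₁` contains `p ≠ x` with `(p,x) ∈ D`, `count_main` gives `η δ |Q|² ≤ |D|` (`hD` by `strip_pent`; the box by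
`C ⊆ Icc 0 1`). First use `D` of `garcia_pent P₁` (and `emptyTri_image`, `|P₁| = |P|`). Second, for the pentagons: choose for every
`F ∈ emptyPent P₁` (a finite set) a pair `(p_F, x_F)` of distinct points of `F` (`|F| = 5`), `D` = the set of these pairs, `|D| ≤ |emptyPent P₁|`
(`= |emptyPent P|` by `emptyPent_image`).
-/

set_option autoImplicit false

namespace Pool.Agent.Lib.MP_4beb96_co.ET

open Finset

private theorem pent_finite (P : Finset Pt) : (emptyPent P).Finite := by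
  refine Set.Finite.subset (P.powerset.finite_toSet) fun F hF => ?_
  exact Finset.mem_coe.2 (Finset.mem_powerset.2 hF.1)

theorem thmA : ∃ η : ℝ, 0 < η ∧ ∃ N : ℕ, ∀ P : Finset (ℝ × ℝ), GenPos P →
    ∀ (L : (ℝ × ℝ) ≃ᵃ[ℝ] (ℝ × ℝ)) (C : Set (ℝ × ℝ)), Convex ℝ C → C ⊆ Set.Icc 0 1 →
    ∀ Q : Finset (ℝ × ℝ), (∀ z, z ∈ Q ↔ z ∈ P.image L ∧ z ∈ C) → N ≤ Q.card →
    ∀ δ : ℝ, 0 < δ → δ ≤ 1 → energy δ Q ≤ η * (Q.card : ℝ) ^ 2 →
      (P.card : ℝ) ^ 2 - 5 * P.card + η * δ * (Q.card : ℝ) ^ 2 ≤ ((emptyTri P).ncard : ℝ) ∧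
      η * δ * (Q.card : ℝ) ^ 2 ≤ ((emptyPent P).ncard : ℝ) := by
  obtain ⟨K, hK⟩ : ∃ K : ℕ, K = 2 ^ 16 + 1 := ⟨_, rfl⟩
  have hK1 : 1 ≤ K := by omega
  have hK2 : (0 : ℝ) < 132 * (K : ℝ) ^ 2 := by
    have : (0 : ℝ) < K := by exact_mod_cast hK1
    positivity
  refine ⟨1 / (132 * (K : ℝ) ^ 2), by positivity, 4 * K, ?_⟩
  intro P hP L C hC hCbox Q hQ hN δ hδ hδ1 hE
  have hP1 : GenPos (P.image L) := genPos_image P L hP
  have hcard : (P.image L).card = P.card := Finset.card_image_of_injective _ L.injective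
  have hbox : ∀ q ∈ Q, 0 ≤ q.1 ∧ q.1 ≤ 1 ∧ 0 ≤ q.2 ∧ q.2 ≤ 1 := by
    intro q hq
    have h1 := hCbox ((hQ q).1 hq).2
    exact ⟨h1.1.1, h1.2.1, h1.1.2, h1.2.2⟩
  have hE' : energy δ Q ≤ (Q.card : ℝ) ^ 2 / (132 * K ^ 2) := by
    rw [one_div, inv_mul_eq_div] at hE
    exact hE
  have key : ∀ D : Finset (Pt × Pt),
      (∀ F ∈ emptyPent (P.image L), ∃ p ∈ F, ∃ x ∈ F, p ≠ x ∧ (p, x) ∈ D) →
      1 / (132 * (K : ℝ) ^ 2) * δ * (Q.card : ℝ) ^ 2 ≤ D.card := by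
    intro D hD
    have h1 := count_main K hK1 Q hN hbox δ hδ hδ1 hE' D ?_
    · have h2 : 1 / (132 * (K : ℝ) ^ 2) * δ * (Q.card : ℝ) ^ 2 =
          δ * (Q.card : ℝ) ^ 2 / (132 * K ^ 2) := by
        rw [one_div, mul_assoc, inv_mul_eq_div]
      rw [h2]
      exact h1
    · intro t c₁ c₂ hcd
      obtain ⟨F, hF, hsub⟩ := strip_pent (P.image L) hP1 C hC Q hQ t c₁ c₂ (by omega)
      obtain ⟨p, hp, x, hx, hne, hmem⟩ := hD F hF
      exact ⟨p, hsub hp, x, hsub hx, hne, hmem⟩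
  constructor
  · obtain ⟨D, hD1, hD2⟩ := garcia_pent (P.image L) hP1
    have h1 := key D hD2
    rw [hcard, emptyTri_image] at hD1
    have h2 : (P.card : ℝ) ^ 2 + D.card ≤ ((emptyTri P).ncard : ℝ) + 5 * P.card := by
      exact_mod_cast hD1
    linarith
  · have h5 : ∀ F : Finset Pt, ∃ e : Pt × Pt, F ∈ emptyPent (P.image L) →
        e.1 ∈ F ∧ e.2 ∈ F ∧ e.1 ≠ e.2 := by
      intro F
      by_cases hF : F ∈ emptyPent (P.image L)
      · have h6 : 1 < F.card := by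
          rw [hF.2.1]
          norm_num
        obtain ⟨a, ha, b, hb, hab⟩ := Finset.one_lt_card.1 h6
        exact ⟨(a, b), fun _ => ⟨ha, hb, hab⟩⟩
      · exact ⟨(0, 0), fun h => absurd h hF⟩
    choose e he using h5
    have h7 := key ((pent_finite (P.image L)).toFinset.image e) (fun F hF =>
      ⟨(e F).1, (he F hF).1, (e F).2, (he F hF).2.1, (he F hF).2.2,
        Finset.mem_image.2 ⟨F, (Set.Finite.mem_toFinset _).2 hF, rfl⟩⟩)
    refine h7.trans ?_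
    rw [← emptyPent_image P L, Set.ncard_eq_toFinset_card _ (pent_finite (P.image L))]
    exact_mod_cast Finset.card_image_le

end Pool.Agent.Lib.MP_4beb96_co.ET
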