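import Pool.Agent.Lib.MP_4beb96_co.ET.ThmA
import Pool.Agent.Lib.MP_4beb96_co.ET.FrostE
import Pool.Agent.Lib.MP_4beb96_co.ET.Scale

/-!
# board ET, module ThmF

Let `η, N₀` be from `thmA`, `c` from `frost_energy s`. For `Q = P ∩ C` let `L` be from `exists_scale`, `Q' = Q.image L = (P.image L) ∩ C'` with
`C' = (L '' C) ∩ Icc 0 1` (convex). For `a' = L a`: `#{b' ∈ Q' : b' ≠ a', dist a' b' ≤ r} = #{b ∈ Q : b ≠ a, dist a b ≤ D r} ≤ M |Q| r^s`.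
`frost_energy` with `M |Q|`: `energy δ Q' ≤ c M |Q|² δ^{s-1} ≤ η |Q|²` for `δ = min 1 ((η/(c M))^{1/(s-1)})`.
Then `thmA`: `|P|² - 5|P| + η δ |Q|² ≤ X₃`, `η δ |Q|² ≤ X₅`, and `|Q| ≥ θ |P|`: put `ε = η δ θ²/2`, `N ≥ 5/ε`, `N θ ≥ N₀`
(`5 |P| ≤ ε |P|²`).
-/

set_option autoImplicit false

namespace Pool.Agent.Lib.MP_4beb96_co.ET

open Finset

theorem thmF (s : ℝ) (hs : 1 < s) (M : ℝ) (hM : 0 < M) (θ : ℝ) (hθ : 0 < θ) :
    ∃ ε : ℝ, 0 < ε ∧ ∃ N : ℕ, ∀ P : Finset (ℝ × ℝ), N ≤ P.card → GenPos P →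
    ∀ (C : Set (ℝ × ℝ)), Convex ℝ C → ∀ Q : Finset (ℝ × ℝ), (∀ z, z ∈ Q ↔ z ∈ P ∧ z ∈ C) →
    θ * P.card ≤ Q.card →
    ∀ D : ℝ, 0 < D → (∀ a ∈ Q, ∀ b ∈ Q, dist a b ≤ D) →
    (∀ a ∈ Q, ∀ r : ℝ, 0 < r →
      ((Q.filter (fun b => b ≠ a ∧ dist a b ≤ r)).card : ℝ) ≤ M * Q.card * (r / D) ^ s) →
      (1 + ε) * (P.card : ℝ) ^ 2 ≤ ((emptyTri P).ncard : ℝ) ∧
      ε * (P.card : ℝ) ^ 2 ≤ ((emptyPent P).ncard : ℝ) := by
  classical
  obtain ⟨η, hη, N₀, hA⟩ := thmA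
  obtain ⟨c, hc, hE⟩ := frost_energy s hs
  have hs1 : 0 < s - 1 := by linarith
  have hcM : 0 < c * M := mul_pos hc hM
  have hx : 0 < η / (c * M) := div_pos hη hcM
  obtain ⟨δ, hδ, hδ1, hδs⟩ : ∃ δ : ℝ, 0 < δ ∧ δ ≤ 1 ∧ δ ^ (s - 1) ≤ η / (c * M) := by
    refine ⟨min 1 ((η / (c * M)) ^ (1 / (s - 1))), lt_min one_pos (Real.rpow_pos_of_pos hx _),
      min_le_left _ _, ?_⟩
    calc (min 1 ((η / (c * M)) ^ (1 / (s - 1)))) ^ (s - 1)
        ≤ ((η / (c * M)) ^ (1 / (s - 1))) ^ (s - 1) :=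
          Real.rpow_le_rpow (lt_min one_pos (Real.rpow_pos_of_pos hx _)).le (min_le_right _ _)
            hs1.le
      _ = η / (c * M) := by
          rw [← Real.rpow_mul hx.le, one_div, inv_mul_cancel₀ hs1.ne', Real.rpow_one]
  have hε : 0 < η * δ * θ ^ 2 / 2 := by positivity
  refine ⟨η * δ * θ ^ 2 / 2, hε, max (max ⌈(N₀ : ℝ) / θ⌉₊ ⌈5 / (η * δ * θ ^ 2 / 2)⌉₊) 1, ?_⟩
  intro P hN hP C hC Q hQ hθQ D hD hdist hfrost
  have hP1 : 1 ≤ P.card := (le_max_right _ _).trans hN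
  have hPpos : (0 : ℝ) < P.card := by exact_mod_cast hP1
  have hN₀ : (N₀ : ℝ) / θ ≤ P.card :=
    (Nat.le_ceil _).trans (by exact_mod_cast (le_max_left _ _).trans ((le_max_left _ _).trans hN))
  have hN5 : 5 / (η * δ * θ ^ 2 / 2) ≤ P.card :=
    (Nat.le_ceil _).trans (by exact_mod_cast (le_max_right _ _).trans ((le_max_left _ _).trans hN))
  have hQpos : (0 : ℝ) < Q.card := lt_of_lt_of_le (mul_pos hθ hPpos) hθQ
  have hQne : Q.Nonempty := by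
    rw [← Finset.card_pos]; exact_mod_cast hQpos
  obtain ⟨L, hLd, hLb⟩ := exists_scale Q hQne D hD hdist
  have hcardQ : (Q.image L).card = Q.card := Finset.card_image_of_injective _ L.injective
  have hC' : Convex ℝ ((L '' C) ∩ Set.Icc (0 : ℝ × ℝ) 1) :=
    (hC.affine_image L.toAffineMap).inter (convex_Icc 0 1)
  have hQ' : ∀ z, z ∈ Q.image L ↔ z ∈ P.image L ∧ z ∈ (L '' C) ∩ Set.Icc (0 : ℝ × ℝ) 1 := by
    intro z
    constructor
    · intro hz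
      obtain ⟨q, hq, rfl⟩ := Finset.mem_image.mp hz
      have hq' := (hQ q).mp hq
      exact ⟨Finset.mem_image_of_mem _ hq'.1, ⟨q, hq'.2, rfl⟩, hLb q hq⟩
    · rintro ⟨hz, ⟨u, hu, huz⟩, -⟩
      obtain ⟨p, hp, rfl⟩ := Finset.mem_image.mp hz
      have : u = p := L.injective huz
      subst this
      exact Finset.mem_image_of_mem _ ((hQ u).mpr ⟨hp, hu⟩)
  have hfr : ∀ a ∈ Q.image L, ∀ r : ℝ, 0 < r →
      (((Q.image L).filter (fun b => b ≠ a ∧ dist a b ≤ r)).card : ℝ) ≤ (M * Q.card) * r ^ s := by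
    intro a' ha' r hr
    obtain ⟨a, ha, rfl⟩ := Finset.mem_image.mp ha'
    have h1 := hfrost a ha (D * r) (mul_pos hD hr)
    have h2 : D * r / D = r := by field_simp
    rw [h2] at h1
    refine le_trans ?_ h1
    have h3 : (Q.image L).filter (fun b => b ≠ L a ∧ dist (L a) b ≤ r) ⊆
        (Q.filter (fun b => b ≠ a ∧ dist a b ≤ D * r)).image L := by
      intro b' hb'
      obtain ⟨hb1, hb2, hb3⟩ := Finset.mem_filter.mp hb'
      obtain ⟨b, hb, rfl⟩ := Finset.mem_image.mp hb1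
      refine Finset.mem_image_of_mem _ (Finset.mem_filter.mpr ⟨hb, ?_, ?_⟩)
      · rintro rfl; exact hb2 rfl
      · rw [hLd] at hb3
        rw [div_le_iff₀ hD] at hb3
        linarith
    exact_mod_cast (Finset.card_le_card h3).trans Finset.card_image_le
  have hen := hE (M * Q.card) (Q.image L) hfr δ hδ hδ1
  rw [hcardQ] at hen
  have hen' : energy δ (Q.image L) ≤ η * ((Q.image L).card : ℝ) ^ 2 := by
    rw [hcardQ]
    refine hen.trans ?_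
    calc c * (M * (Q.card : ℝ)) * Q.card * δ ^ (s - 1)
        ≤ c * (M * (Q.card : ℝ)) * Q.card * (η / (c * M)) :=
          mul_le_mul_of_nonneg_left hδs (by positivity)
      _ = η * (Q.card : ℝ) ^ 2 := by field_simp
  have hN₀' : N₀ ≤ (Q.image L).card := by
    rw [hcardQ]
    have : (N₀ : ℝ) ≤ θ * P.card := by
      rw [div_le_iff₀ hθ] at hN₀; linarith
    exact_mod_cast this.trans hθQ
  obtain ⟨h1, h2⟩ := hA P hP L _ hC' Set.inter_subset_right (Q.image L) hQ' hN₀' δ hδ hδ1 hen'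
  rw [hcardQ] at h1 h2
  have h3 : η * δ * (θ * (P.card : ℝ)) ^ 2 ≤ η * δ * (Q.card : ℝ) ^ 2 := by
    apply mul_le_mul_of_nonneg_left _ (by positivity)
    exact pow_le_pow_left₀ (by positivity) hθQ 2
  have h4 : 5 * (P.card : ℝ) ≤ η * δ * θ ^ 2 / 2 * (P.card : ℝ) ^ 2 := by
    rw [div_le_iff₀ hε] at hN5
    nlinarith
  constructor
  · nlinarith
  · have h5 : 0 ≤ η * δ * (θ * (P.card : ℝ)) ^ 2 := by positivity
    nlinarith

end Pool.Agent.Lib.MP_4beb96_co.ET
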