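import Pool.Agent.Lib.MP_4beb96_co.ET.ThmA
import Pool.Agent.Lib.MP_4beb96_co.ET.FrostE
import Pool.Agent.Lib.MP_4beb96_co.ET.PackBall
import Pool.Agent.Lib.MP_4beb96_co.ET.Scale

/-!
# board ET, module ThmS

Let `η, N₀` be from `thmA`, `c` from `frost_energy 2`. `L` from `exists_scale P`, `Q = P.image L`, `C = Icc 0 1`, `d' = d/D`, pairwise distances of `Q` are
`≥ d'`. `pack_ball`: `#{...} ≤ 16 (r/d')² = (16/d'²) r^2` (real power 2: `Real.rpow_two` / `Real.rpow_natCast`). `frost_energy`: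
`energy δ Q ≤ c (16/d'²) n δ^{1}`. Put `η' = min (η/(16 c)) (1/32)` and `δ = η' n d'²`. `δ ≤ 1`: `pack_ball` with `r = 1` (all points of
`Q` are at distance `≤ 1` from `a`): `n - 1 ≤ 16/d'²`, so `n d'² ≤ 32` for `n ≥ 2`. `energy ≤ 16 c η' n² ≤ η n²`. `thmA` gives the excess
`η δ n² = η η' n³ d'²`. The constant of the theorem is `η η'` and `N = max N₀ 2`.
-/

set_option autoImplicit false

namespace Pool.Agent.Lib.MP_4beb96_co.ET

open Finset

private theorem dist_le_one {a b : ℝ × ℝ} (ha : a ∈ Set.Icc (0 : ℝ × ℝ) 1)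
    (hb : b ∈ Set.Icc (0 : ℝ × ℝ) 1) : dist a b ≤ 1 := by
  have ha1 : 0 ≤ a.1 ∧ 0 ≤ a.2 := ⟨ha.1.1, ha.1.2⟩
  have ha2 : a.1 ≤ 1 ∧ a.2 ≤ 1 := ⟨ha.2.1, ha.2.2⟩
  have hb1 : 0 ≤ b.1 ∧ 0 ≤ b.2 := ⟨hb.1.1, hb.1.2⟩
  have hb2 : b.1 ≤ 1 ∧ b.2 ≤ 1 := ⟨hb.2.1, hb.2.2⟩
  rw [Prod.dist_eq]
  apply max_le
  · rw [Real.dist_eq, abs_le]
    constructor <;> linarith [ha1.1, ha2.1, hb1.1, hb2.1]
  · rw [Real.dist_eq, abs_le]
    constructor <;> linarith [ha1.2, ha2.2, hb1.2, hb2.2]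

theorem thmS : ∃ η : ℝ, 0 < η ∧ ∃ N : ℕ, ∀ P : Finset (ℝ × ℝ), N ≤ P.card → GenPos P →
    ∀ d D : ℝ, 0 < d → (∀ a ∈ P, ∀ b ∈ P, a ≠ b → d ≤ dist a b ∧ dist a b ≤ D) →
      (P.card : ℝ) ^ 2 - 5 * P.card + η * (P.card : ℝ) ^ 3 * (d / D) ^ 2
        ≤ ((emptyTri P).ncard : ℝ) ∧
      η * (P.card : ℝ) ^ 3 * (d / D) ^ 2 ≤ ((emptyPent P).ncard : ℝ) := by
  classical
  obtain ⟨η, hη, N₀, hA⟩ := thmA
  obtain ⟨c, hc, hF⟩ := frost_energy 2 (by norm_num)
  have hη' : 0 < min (η / (16 * c)) (1 / 32 : ℝ) := by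
    apply lt_min
    · positivity
    · norm_num
  refine ⟨η * min (η / (16 * c)) (1 / 32 : ℝ), mul_pos hη hη', max N₀ 2, ?_⟩
  set η' : ℝ := min (η / (16 * c)) (1 / 32 : ℝ) with hη'def
  intro P hP hgp d D hd hdist
  have hn2 : 2 ≤ P.card := le_trans (le_max_right _ _) hP
  have hnN : N₀ ≤ P.card := le_trans (le_max_left _ _) hP
  obtain ⟨a0, ha0, b0, hb0, hab0⟩ := Finset.one_lt_card.1 (lt_of_lt_of_le one_lt_two hn2)
  have hD : 0 < D := lt_of_lt_of_le hd ((hdist a0 ha0 b0 hb0 hab0).1.trans (hdist a0 ha0 b0 hb0 hab0).2)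
  have hPne : P.Nonempty := ⟨a0, ha0⟩
  obtain ⟨L, hLd, hLI⟩ := exists_scale P hPne D hD (by
    intro a ha b hb
    by_cases h : a = b
    · rw [h, dist_self]
      exact hD.le
    · exact (hdist a ha b hb h).2)
  have hLinj : Function.Injective L := L.injective
  have hQcard : (P.image L).card = P.card := Finset.card_image_of_injective _ hLinj
  have hQI : ∀ q ∈ P.image L, q ∈ Set.Icc (0 : ℝ × ℝ) 1 := by
    intro q hq
    obtain ⟨p, hp, hpq⟩ := Finset.mem_image.1 hq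
    rw [← hpq]
    exact hLI p hp
  have hd' : 0 < d / D := div_pos hd hD
  have hQsep : ∀ a ∈ P.image L, ∀ b ∈ P.image L, a ≠ b → d / D ≤ dist a b := by
    intro a ha b hb hab
    obtain ⟨p, hp, hpq⟩ := Finset.mem_image.1 ha
    obtain ⟨q, hq, hqq⟩ := Finset.mem_image.1 hb
    have hpq' : p ≠ q := by
      intro h
      apply hab
      rw [← hpq, ← hqq, h]
    rw [← hpq, ← hqq, hLd]
    exact div_le_div_of_nonneg_right (hdist p hp q hq hpq').1 hD.le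
  have hQ1 : L a0 ∈ P.image L := Finset.mem_image_of_mem _ ha0
  have hQ2 : L b0 ∈ P.image L := Finset.mem_image_of_mem _ hb0
  have hd'1 : d / D ≤ 1 :=
    (hQsep _ hQ1 _ hQ2 (fun h => hab0 (hLinj h))).trans (dist_le_one (hQI _ hQ1) (hQI _ hQ2))
  have hnR : (2 : ℝ) ≤ (P.card : ℝ) := by exact_mod_cast hn2
  have hd2 : 0 < (d / D) ^ 2 := by positivity
  -- the number of points
  have hpack := pack_ball (P.image L) (d / D) hd' hQsep (L a0) hQ1 1 (by norm_num)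
  have hfil : (P.image L).filter (fun b => b ≠ L a0 ∧ dist (L a0) b ≤ 1) = (P.image L).erase (L a0) := by
    ext z
    rw [Finset.mem_filter, Finset.mem_erase]
    constructor
    · rintro ⟨h1, h2, _⟩
      exact ⟨h2, h1⟩
    · rintro ⟨h1, h2⟩
      exact ⟨h2, h1, dist_le_one (hQI _ hQ1) (hQI _ h2)⟩
  rw [hfil, Finset.card_erase_of_mem hQ1, hQcard, Nat.cast_sub (by omega), Nat.cast_one, div_pow,
    one_pow] at hpack
  have hpack2 : ((P.card : ℝ) - 1) * (d / D) ^ 2 ≤ 16 := by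
    have h := mul_le_mul_of_nonneg_right hpack hd2.le
    have h' : 16 * (1 / (d / D) ^ 2) * (d / D) ^ 2 = 16 := by
      field_simp
    linarith
  have hd21 : (d / D) ^ 2 ≤ 1 := pow_le_one₀ hd'.le hd'1
  have hn32 : (P.card : ℝ) * (d / D) ^ 2 ≤ 32 := by
    nlinarith
  -- the scale
  have hδpos : 0 < η' * P.card * (d / D) ^ 2 := by
    have : 0 < (P.card : ℝ) := by linarith
    positivity
  have hδ1 : η' * P.card * (d / D) ^ 2 ≤ 1 := by
    have h1 : η' ≤ 1 / 32 := min_le_right _ _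
    have h2 : η' * ((P.card : ℝ) * (d / D) ^ 2) ≤ (1 / 32) * 32 :=
      mul_le_mul h1 hn32 (by positivity) (by norm_num)
    linarith
  have hM : ∀ a ∈ P.image L, ∀ r : ℝ, 0 < r →
      (((P.image L).filter (fun b => b ≠ a ∧ dist a b ≤ r)).card : ℝ) ≤
        (16 / (d / D) ^ 2) * r ^ (2 : ℝ) := by
    intro a ha r hr
    have h := pack_ball (P.image L) (d / D) hd' hQsep a ha r hr.le
    have h1 : 16 * (r / (d / D)) ^ 2 = (16 / (d / D) ^ 2) * r ^ (2 : ℝ) := by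
      rw [Real.rpow_two, div_pow]
      ring
    rw [← h1]
    exact h
  have hen := hF (16 / (d / D) ^ 2) (P.image L) hM (η' * P.card * (d / D) ^ 2) hδpos hδ1
  have hen2 : energy (η' * P.card * (d / D) ^ 2) (P.image L) ≤ η * ((P.image L).card : ℝ) ^ 2 := by
    refine hen.trans ?_
    have e1 : (2 : ℝ) - 1 = 1 := by norm_num
    rw [e1, Real.rpow_one, hQcard]
    have e2 : c * (16 / (d / D) ^ 2) * (P.card : ℝ) * (η' * P.card * (d / D) ^ 2)
        = (16 * c * η') * (P.card : ℝ) ^ 2 := by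
      field_simp
    rw [e2]
    have e3 : η' ≤ η / (16 * c) := min_le_left _ _
    have e4 : 16 * c * η' ≤ η := by
      have h16 : 0 < 16 * c := by positivity
      calc 16 * c * η' ≤ 16 * c * (η / (16 * c)) := mul_le_mul_of_nonneg_left e3 h16.le
        _ = η := by field_simp
    exact mul_le_mul_of_nonneg_right e4 (by positivity)
  have hfin := hA P hgp L (Set.Icc 0 1) (convex_Icc _ _) (le_refl _) (P.image L)
    (fun z => ⟨fun h => ⟨h, hQI z h⟩, fun h => h.1⟩) (by rw [hQcard]; exact hnN)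
    (η' * P.card * (d / D) ^ 2) hδpos hδ1 hen2
  rw [hQcard] at hfin
  have e5 : η * (η' * P.card * (d / D) ^ 2) * (P.card : ℝ) ^ 2
      = η * η' * (P.card : ℝ) ^ 3 * (d / D) ^ 2 := by ring
  rw [e5] at hfin
  exact hfin

end Pool.Agent.Lib.MP_4beb96_co.ET
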