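import Pool.Agent.Lib.MP_4beb96_co.ET.DetAlg

/-!
# board ET, module TriHull

The closed triangle in terms of `det3`.
-/

set_option autoImplicit false

namespace Pool.Agent.Lib.MP_4beb96_co.ET

theorem mem_tri (a b c z : Pt) (h : 0 < det3 a b c) :
    z ∈ convexHull ℝ ({a, b, c} : Set Pt) ↔
      0 ≤ det3 a b z ∧ 0 ≤ det3 b c z ∧ 0 ≤ det3 c a z := by
  constructor
  · intro hz
    refine ⟨?_, ?_, ?_⟩
    · refine hull_det3_nonneg a b _ ?_ z hz
      intro s hs
      simp only [Set.mem_insert_iff, Set.mem_singleton_iff] at hs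
      rcases hs with rfl | rfl | rfl
      · rw [det3_aba]
      · rw [det3_abb]
      · exact h.le
    · refine hull_det3_nonneg b c _ ?_ z hz
      intro s hs
      simp only [Set.mem_insert_iff, Set.mem_singleton_iff] at hs
      rcases hs with rfl | rfl | rfl
      · rw [det3_cyc]; exact h.le
      · rw [det3_aba]
      · rw [det3_abb]
    · refine hull_det3_nonneg c a _ ?_ z hz
      intro s hs
      simp only [Set.mem_insert_iff, Set.mem_singleton_iff] at hs
      rcases hs with rfl | rfl | rfl
      · rw [det3_abb]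
      · rw [det3_cyc']; exact h.le
      · rw [det3_aba]
  · rintro ⟨h1, h2, h3⟩
    have hb := det3_bary a b c z
    have hs := det3_sum a b c z
    set D := det3 a b c with hD
    have key : ∀ α β γ : ℝ, D • z = α • a + β • b + γ • c →
        z = (α / D) • a + ((β / D) • b + (γ / D) • c) := by
      intro α β γ hh
      have e : D⁻¹ • (D • z) = z := by rw [smul_smul, inv_mul_cancel₀ h.ne', one_smul]
      rw [← e, hh]
      simp only [smul_add, smul_smul, add_assoc, div_eq_inv_mul]
    have hz : z = (det3 b c z / D) • a + ((det3 c a z / D) • b + (det3 a b z / D) • c) :=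
      key _ _ _ hb
    have e1 : 0 ≤ det3 b c z / D := div_nonneg h2 h.le
    have e2 : 0 ≤ det3 c a z / D := div_nonneg h3 h.le
    have e3 : 0 ≤ det3 a b z / D := div_nonneg h1 h.le
    have e4 : det3 b c z / D + det3 c a z / D + det3 a b z / D = 1 := by
      rw [← add_div, ← add_div, div_eq_one_iff_eq h.ne']
      linarith
    rw [hz]
    have hconv := convex_convexHull ℝ ({a, b, c} : Set Pt)
    have ma : a ∈ convexHull ℝ ({a, b, c} : Set Pt) := subset_convexHull ℝ _ (by simp)
    have mb : b ∈ convexHull ℝ ({a, b, c} : Set Pt) := subset_convexHull ℝ _ (by simp)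
    have mc : c ∈ convexHull ℝ ({a, b, c} : Set Pt) := subset_convexHull ℝ _ (by simp)
    have hsum := hconv.sum_mem (t := Finset.univ) (w := ![det3 b c z / D, det3 c a z / D, det3 a b z / D])
      (z := ![a, b, c]) (by
        intro i _
        fin_cases i
        · exact e1
        · exact e2
        · exact e3) (by
        rw [Fin.sum_univ_three]
        exact e4) (by
        intro i _
        fin_cases i
        · exact ma
        · exact mb
        · exact mc)
    rw [Fin.sum_univ_three] at hsum
    simp only [Matrix.cons_val_zero, Matrix.cons_val_one, Matrix.cons_val_two,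
      Matrix.head_cons, Matrix.tail_cons] at hsum
    rw [← add_assoc]
    exact hsum

theorem mem_tri_of_inTri (a b c z : Pt) (h : InTri a b c z) :
    z ∈ convexHull ℝ ({a, b, c} : Set Pt) := by
  obtain ⟨h1, h2, h3⟩ := h
  have hs := det3_sum a b c z
  have h0 : 0 < det3 a b c := by linarith
  exact (mem_tri a b c z h0).mpr ⟨h1.le, h2.le, h3.le⟩

theorem inTri_of_mem (P : Finset Pt) (hP : GP P) (a b c z : Pt) (ha : a ∈ P) (hb : b ∈ P)
    (hc : c ∈ P) (hz : z ∈ P) (h : 0 < det3 a b c) (hza : z ≠ a) (hzb : z ≠ b) (hzc : z ≠ c)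
    (hm : z ∈ convexHull ℝ ({a, b, c} : Set Pt)) : InTri a b c z := by
  obtain ⟨h1, h2, h3⟩ := (mem_tri a b c z h).mp hm
  have hab : a ≠ b := by rintro rfl; rw [det3_aab] at h; exact lt_irrefl _ h
  have hbc : b ≠ c := by rintro rfl; rw [det3_abb] at h; exact lt_irrefl _ h
  have hca : c ≠ a := by rintro rfl; rw [det3_aba] at h; exact lt_irrefl _ h
  refine ⟨lt_of_le_of_ne h1 ?_, lt_of_le_of_ne h2 ?_, lt_of_le_of_ne h3 ?_⟩
  · exact (hP a ha b hb z hz hab (Ne.symm hza) (Ne.symm hzb)).symm
  · exact (hP b hb c hc z hz hbc (Ne.symm hzb) (Ne.symm hzc)).symm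
  · exact (hP c hc a ha z hz hca (Ne.symm hzc) (Ne.symm hza)).symm

end Pool.Agent.Lib.MP_4beb96_co.ET
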