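import Pool.Agent.Lib.MP_4beb96_co.ET.TriHull

/-!
# board ET, module VX

Map `(p,x,y) ∈ VS P` to the set `{p,x,y}`. It is an empty triangle: the three points are distinct
(`p.1 < x.1`, `p.1 < y.1`, `det3 p x x = 0`), and a point `z ∈ P` not in the set and in
`convexHull {p,x,y}` would be `InTri p x y z` (`inTri_of_mem`). The map is injective on `VS P`:
if `{p,x,y} = {p',x',y'}` then `p = p'` (the point with the smallest first coordinate), hence
`{x,y} = {x',y'}`, and `x = y', y = x'` is impossible as `det3 p y x = - det3 p x y`.
`emptyTri P` is finite: a subset of `P.powerset`.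
-/

set_option autoImplicit false

namespace Pool.Agent.Lib.MP_4beb96_co.ET

open Finset

theorem VS_card_le (P : Finset Pt) (hg : GP P) : (VS P).card ≤ (emptyTri P).ncard := by
  classical
  have hfin : (emptyTri P).Finite := by
    apply (P.powerset.finite_toSet).subset
    intro T hT
    simpa using hT.1
  have hmem : ∀ t ∈ VS P, (({t.1, t.2.1, t.2.2} : Finset Pt)) ∈ emptyTri P := by
    rintro ⟨p, x, y⟩ ht
    simp only [VS, Finset.mem_filter, Finset.mem_product] at ht
    obtain ⟨⟨hp, hx, hy⟩, hpx, hpy, hdet, hemp⟩ := ht
    have n1 : p ≠ x := by rintro rfl; exact lt_irrefl _ hpx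
    have n2 : p ≠ y := by rintro rfl; exact lt_irrefl _ hpy
    have n3 : x ≠ y := by
      rintro rfl
      have : det3 p x x = 0 := by simp only [det3]; ring
      linarith
    refine ⟨?_, ?_, ?_⟩
    · intro z hz
      simp only [Finset.mem_insert, Finset.mem_singleton] at hz
      rcases hz with rfl | rfl | rfl <;> assumption
    · exact Finset.card_eq_three.mpr ⟨p, x, y, n1, n2, n3, rfl⟩
    · intro z hz hzT hzh
      simp only [Finset.mem_insert, Finset.mem_singleton, not_or] at hzT
      refine hemp z hz (inTri_of_mem P hg p x y z hp hx hy hz hdet hzT.1 hzT.2.1 hzT.2.2 ?_)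
      simpa using hzh
  have hinj : Set.InjOn (fun t : Pt × Pt × Pt => (({t.1, t.2.1, t.2.2} : Finset Pt)))
      (VS P : Set (Pt × Pt × Pt)) := by
    rintro ⟨p, x, y⟩ ht ⟨p', x', y'⟩ ht' he
    simp only [Finset.mem_coe, VS, Finset.mem_filter, Finset.mem_product] at ht ht'
    obtain ⟨-, hpx, hpy, hdet, -⟩ := ht
    obtain ⟨-, hpx', hpy', hdet', -⟩ := ht'
    have he' : ({p, x, y} : Finset Pt) = {p', x', y'} := he
    have m1 : p ∈ ({p', x', y'} : Finset Pt) := by rw [← he']; simp
    have m1' : p' ∈ ({p, x, y} : Finset Pt) := by rw [he']; simp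
    have m2 : x ∈ ({p', x', y'} : Finset Pt) := by rw [← he']; simp
    have m3 : y ∈ ({p', x', y'} : Finset Pt) := by rw [← he']; simp
    simp only [Finset.mem_insert, Finset.mem_singleton] at m1 m1' m2 m3
    have hpp : p = p' := by
      by_contra hne
      have a1 : p'.1 < p.1 := by
        rcases m1 with h | h | h
        · exact absurd h hne
        · rw [h]; exact hpx'
        · rw [h]; exact hpy'
      have a2 : p.1 < p'.1 := by
        rcases m1' with h | h | h
        · exact absurd h.symm hne
        · rw [h]; exact hpx
        · rw [h]; exact hpy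
      exact lt_asymm a1 a2
    subst hpp
    have n1 : x ≠ p := by rintro rfl; exact lt_irrefl _ hpx
    have n2 : y ≠ p := by rintro rfl; exact lt_irrefl _ hpy
    have n3 : x ≠ y := by
      rintro rfl
      have : det3 p x x = 0 := by simp only [det3]; ring
      linarith
    rcases m2 with h | h | h
    · exact absurd h n1
    · rcases m3 with k | k | k
      · exact absurd k n2
      · exact absurd (h.trans k.symm) n3
      · rw [h, k]
    · rcases m3 with k | k | k
      · exact absurd k n2
      · exfalso
        rw [← h, ← k] at hdet'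
        have : det3 p y x = - det3 p x y := by simp only [det3]; ring
        linarith
      · exact absurd (h.trans k.symm) n3
  calc (VS P).card = ((VS P).image
        (fun t : Pt × Pt × Pt => (({t.1, t.2.1, t.2.2} : Finset Pt)))).card :=
        (Finset.card_image_of_injOn hinj).symm
    _ ≤ hfin.toFinset.card := by
        apply Finset.card_le_card
        intro T hT
        rw [Finset.mem_image] at hT
        obtain ⟨t, ht, rfl⟩ := hT
        rw [Set.Finite.mem_toFinset]
        exact hmem t ht
    _ = (emptyTri P).ncard := (Set.ncard_eq_toFinset_card _ hfin).symm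

end Pool.Agent.Lib.MP_4beb96_co.ET
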