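import Pool.Agent.Lib.MP_4beb96_co.ET.Cut
import Pool.Agent.Lib.MP_4beb96_co.ET.Rich

/-!
# board ET, module Window

`Z = {z ∈ Q : at least K points y ∈ Q with f z ≤ f y ≤ f z + w}`; its size is bounded below by `poor_card`. For `z ∈ Z` apply `exists_cut` to
`S = {y ∈ Q : f z ≤ f y ≤ f z + w}`: there is `c = f z' ≤ f z + w` with exactly `K` points in
`W z = {y ∈ Q : f z ≤ f y ≤ c}`. Multiplicity: let `Z_p = {z ∈ Z : p ∈ W z}`, nonempty; let `z₀ ∈ Z_p` have the smallest value of `f`.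
Every `z ∈ Z_p` satisfies `f z₀ ≤ f z ≤ f p ≤ c(z₀)`, so `Z_p ⊆ W z₀`, which has `K` elements.
-/

set_option autoImplicit false

namespace Pool.Agent.Lib.MP_4beb96_co.ET

open Finset

theorem exists_windows (Q : Finset Pt) (f : Pt → ℝ) (hf : ∀ z ∈ Q, -1 ≤ f z ∧ f z ≤ 1)
    (hinj : ∀ a ∈ Q, ∀ b ∈ Q, f a = f b → a = b) (w : ℝ) (hw : 0 < w) (K : ℕ) (hK : 1 ≤ K) :
    ∃ (Z : Finset Pt) (W : Pt → Finset Pt), Z ⊆ Q ∧
      (Q.card : ℝ) - K * (2 / w + 1) ≤ Z.card ∧
      (∀ z ∈ Z, (W z).card = K ∧ ∃ c, c ≤ f z + w ∧ W z = Q.filter (fun y => f z ≤ f y ∧ f y ≤ c)) ∧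
      ∀ p, (Z.filter (fun z => p ∈ W z)).card ≤ K := by
  classical
  set S : Pt → Finset Pt := fun z => Q.filter (fun y => f z ≤ f y ∧ f y ≤ f z + w) with hS
  set Z : Finset Pt := Q.filter (fun z => ¬ (S z).card < K) with hZ
  have hc : ∀ z : Pt, ∃ c : ℝ, z ∈ Z → c ≤ f z + w ∧
      (Q.filter (fun y => f z ≤ f y ∧ f y ≤ c)).card = K := by
    intro z
    by_cases hz : z ∈ Z
    · have hzK : K ≤ (S z).card := not_lt.1 (Finset.mem_filter.1 hz).2
      obtain ⟨z', hz', h1⟩ := exists_cut (S z) f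
        (fun a ha b hb hab => hinj a (Finset.mem_filter.1 ha).1 b (Finset.mem_filter.1 hb).1 hab)
        K hK hzK
      have hz'2 : f z' ≤ f z + w := (Finset.mem_filter.1 hz').2.2
      refine ⟨f z', fun _ => ⟨hz'2, ?_⟩⟩
      rw [← h1]
      congr 1
      ext y
      simp only [hS, Finset.mem_filter]
      constructor
      · rintro ⟨h2, h3, h4⟩
        exact ⟨⟨h2, h3, h4.trans hz'2⟩, h4⟩
      · rintro ⟨⟨h2, h3, -⟩, h4⟩
        exact ⟨h2, h3, h4⟩
    · exact ⟨0, fun h => absurd h hz⟩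
  choose c hc using hc
  refine ⟨Z, fun z => Q.filter (fun y => f z ≤ f y ∧ f y ≤ c z), Finset.filter_subset _ _, ?_,
    fun z hz => ⟨(hc z hz).2, c z, (hc z hz).1, rfl⟩, fun p => ?_⟩
  · have h1 := poor_card Q f hf w hw K hK
    have h2 : (Q.filter (fun z => (S z).card < K)).card + Z.card = Q.card := by
      rw [hZ]
      exact Finset.card_filter_add_card_filter_not (s := Q) (fun z => (S z).card < K)
    have h3 : ((Q.filter (fun z => (S z).card < K)).card : ℝ) + Z.card = Q.card := by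
      exact_mod_cast h2
    simp only [hS] at h3
    linarith
  · rcases (Z.filter (fun z => p ∈ Q.filter (fun y => f z ≤ f y ∧ f y ≤ c z))).eq_empty_or_nonempty
      with h | h
    · rw [h]
      simp
    · obtain ⟨z₀, hz₀, hmin⟩ := Finset.exists_min_image _ f h
      obtain ⟨hz1, hz2⟩ := Finset.mem_filter.1 hz₀
      rw [← (hc z₀ hz1).2]
      refine Finset.card_le_card fun z hz => ?_
      obtain ⟨hz3, hz4⟩ := Finset.mem_filter.1 hz
      exact Finset.mem_filter.2 ⟨(Finset.mem_filter.1 hz3).1, hmin z hz,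
        (Finset.mem_filter.1 hz4).2.1.trans (Finset.mem_filter.1 hz2).2.2⟩

end Pool.Agent.Lib.MP_4beb96_co.ET
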